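import Pool.Agent.K1H82.KV.Defs

/-!
# The twisted forms
-/

set_option autoImplicit false
set_option linter.unusedSectionVars false

open MvPolynomial Pool.Agent.TH954.X Pool.Agent.K1H82.KM
open Pool.Agent.K1H82.KQ (PtB GalK cjg OnX sg)
open Pool.Agent.K1H82.KA (PtsB GActP trP_one)
open Pool.Agent.K1H82.KR (Off)
open Pool.Agent.K1H82.KT
open Pool.Agent.K1H82.KU (twT_one)

namespace Pool.Agent.K1H82.KV

section moves

variable {K : Type} [Field K] {n r s k N : ℕ} {T : Torus K s} {A : Fin r → AbVar K n}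
  {D : Tors T A} {G H : Type} [Group G] [Group H]

lemma q_one (S : GActV D k G H) : S.q 1 = 1 := by
  have h := S.q_mul 1 1
  rw [mul_one] at h
  exact left_eq_mul.1 h

lemma q_inv (S : GActV D k G H) (g : G) : S.q g⁻¹ = (S.q g)⁻¹ := by
  apply eq_inv_of_mul_eq_one_left
  rw [← S.q_mul, inv_mul_cancel, q_one]

lemma trT_one (S : GActV D k G H) : S.tor.tr 1 = 1 := by
  have h := S.tor.tr_mul 1 1
  rw [mul_one, S.tor.lin_one, mon_one_mat] at h
  exact left_eq_mul.1 h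

lemma trV_one (S : GActV D k G H) : S.vec.tr 1 = 0 := by
  have h := S.vec.tr_mul 1 1
  rw [mul_one, S.vec.lin_one, Matrix.one_mulVec] at h
  exact left_eq_add.1 h

lemma app_mul (S : GActV D k G H) (g h : G) (x : PtV s k A) :
    app S (g * h) x = app S g (app S h x) := by
  unfold app
  refine Prod.ext ?_ (Prod.ext ?_ ?_)
  · change mon (S.tor.lin (g * h)) x.1 * S.tor.tr (g * h) =
      mon (S.tor.lin g) (mon (S.tor.lin h) x.1 * S.tor.tr h) * S.tor.tr g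
    rw [S.tor.lin_mul, mon_mul_mat, S.tor.tr_mul, mon_mul, mul_assoc]
  · change (S.vec.lin (g * h)).mulVec x.2.1 + S.vec.tr (g * h) =
      (S.vec.lin g).mulVec ((S.vec.lin h).mulVec x.2.1 + S.vec.tr h) + S.vec.tr g
    rw [S.vec.lin_mul, S.vec.tr_mul, Matrix.mulVec_add, Matrix.mulVec_mulVec, add_assoc]
  · funext b
    change S.ab.act.lin (S.q (g * h)) b (x.2.2 b) + S.ab.act.tr (S.q (g * h)) b =
      S.ab.act.lin (S.q g) b (S.ab.act.lin (S.q h) b (x.2.2 b) + S.ab.act.tr (S.q h) b) +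
        S.ab.act.tr (S.q g) b
    rw [S.q_mul, S.ab.act.lin_mul, S.ab.act.tr_mul, S.ab.act.lin_add, add_assoc]

lemma app_one (S : GActV D k G H) (x : PtV s k A) : app S 1 x = x := by
  unfold app
  refine Prod.ext ?_ (Prod.ext ?_ ?_)
  · change mon (S.tor.lin 1) x.1 * S.tor.tr 1 = x.1
    rw [S.tor.lin_one, mon_one_mat, trT_one, mul_one]
  · change (S.vec.lin 1).mulVec x.2.1 + S.vec.tr 1 = x.2.1
    rw [S.vec.lin_one, Matrix.one_mulVec, trV_one, add_zero]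
  · funext b
    change S.ab.act.lin (S.q 1) b (x.2.2 b) + S.ab.act.tr (S.q 1) b = x.2.2 b
    rw [q_one, S.ab.act.lin_one, trP_one, add_zero]

lemma app_inv {S : GActV D k G H} {g : G} {x x' : PtV s k A} (h : x' = app S g x) :
    x = app S g⁻¹ x' := by
  rw [h, ← app_mul, inv_mul_cancel, app_one]

lemma tw_mul (σ τ : GalK K) (x : PtV s k A) : tw D (σ * τ) x = tw D σ (tw D τ x) :=
  Prod.ext (twT_comp σ τ x.1) (Prod.ext rfl (twA_comp σ τ x.2.2))

lemma tw_one (x : PtV s k A) : tw D 1 x = x := by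
  refine Prod.ext ?_ (Prod.ext rfl ?_)
  · change twT D 1 x.1 = x.1
    unfold twT
    rw [cjT_eq, T.ρ_one, mon_one_mat, a_one, mul_one]
    funext i
    exact Units.ext rfl
  · funext b
    change cjg (A b) 1 (x.2.2 b) + D.c 1 b = x.2.2 b
    rw [c_one, add_zero]
    rfl

lemma map_mulVec (σ : GalK K) (M : Matrix (Fin k) (Fin k) (AlgebraicClosure K))
    (w : Fin k → AlgebraicClosure K) (j : Fin k) :
    σ (M.mulVec w j) = (M.map σ).mulVec (fun i => σ (w i)) j := by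
  change σ (∑ i, M j i * w i) = ∑ i, σ (M j i) * σ (w i)
  rw [map_sum]
  exact Finset.sum_congr rfl (fun i _ => map_mul σ _ _)

lemma linV_gal (S : GActV D k G H) (σ : GalK K) (g : G) :
    S.vec.lin (S.γ σ g) = (S.vec.lin g).map σ := by
  ext i j
  exact S.vec.gal_lin σ g i j

lemma tw_app (S : GActV D k G H) (σ : GalK K) (g : G) (x : PtV s k A) :
    tw D σ (app S g x) = app S (S.γ σ g) (tw D σ x) := by
  refine Prod.ext ?_ (Prod.ext ?_ ?_)
  · change cjT T σ (mon (S.tor.lin g) x.1 * S.tor.tr g) * D.a σ =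
      mon (S.tor.lin (S.γ σ g)) (cjT T σ x.1 * D.a σ) * S.tor.tr (S.γ σ g)
    have h1 : cjT T σ (mon (S.tor.lin g) x.1) = mon (S.tor.lin (S.γ σ g)) (cjT T σ x.1) := by
      rw [cjT_eq, cjT_eq, mp_mon, ← mon_mul_mat, ← mon_mul_mat, S.tor.gal_lin]
    rw [cjT_mul, h1, mon_mul, mul_assoc, S.tor.gal_tr, mul_assoc]
  · funext j
    change σ ((S.vec.lin g).mulVec x.2.1 j + S.vec.tr g j) =
      (S.vec.lin (S.γ σ g)).mulVec (fun i => σ (x.2.1 i)) j + S.vec.tr (S.γ σ g) j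
    rw [map_add, map_mulVec, ← linV_gal, S.vec.gal_tr]
  · funext b
    change cjg (A b) σ (S.ab.act.lin (S.q g) b (x.2.2 b) + S.ab.act.tr (S.q g) b) + D.c σ b =
      S.ab.act.lin (S.q (S.γ σ g)) b (cjg (A b) σ (x.2.2 b) + D.c σ b) +
        S.ab.act.tr (S.q (S.γ σ g)) b
    rw [S.gal_q, cjg_add, S.ab.act.lin_add, add_assoc, add_assoc, ← S.ab.gal_tr,
      ← S.ab.gal_lin]

lemma linT_inv1 (S : GActV D k G H) (g : G) : S.tor.lin g⁻¹ * S.tor.lin g = 1 := by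
  rw [← S.tor.lin_mul, inv_mul_cancel, S.tor.lin_one]

lemma linT_inv2 (S : GActV D k G H) (g : G) : S.tor.lin g * S.tor.lin g⁻¹ = 1 := by
  rw [← S.tor.lin_mul, mul_inv_cancel, S.tor.lin_one]

lemma linV_inv1 (S : GActV D k G H) (g : G) : S.vec.lin g⁻¹ * S.vec.lin g = 1 := by
  rw [← S.vec.lin_mul, inv_mul_cancel, S.vec.lin_one]

lemma linV_inv2 (S : GActV D k G H) (g : G) : S.vec.lin g * S.vec.lin g⁻¹ = 1 := by
  rw [← S.vec.lin_mul, mul_inv_cancel, S.vec.lin_one]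

lemma eq_of_inv {R : Type} [Ring R] {a b c : R} (h1 : a * c = 1) (h2 : c * b = 1) : a = b := by
  calc a = a * (c * b) := by rw [h2, mul_one]
    _ = b := by rw [← mul_assoc, h1, one_mul]

end moves

section stab

variable {K : Type} [Field K] {n r s k N : ℕ} {T : Torus K s} {A : Fin r → AbVar K n}
  {D : Tors T A} {G H : Type} [Group G] [Group H] {X : RMapV D k N} {S : GActV D k G H}
  (hX : IsQuotV X S) {x : PtV s k A} {y : Fin N → K} (hy : ImgV X.Fam x (up y))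
  (ho : Off X.eqW (up y))

include hX hy ho

lemma conj_ex (φ : GalK K) : ∃ g, tw D φ x = app S g x := by
  have h1 := X.gal φ x _ hy
  have h2 : (fun c => φ (up y c)) = up y := by
    funext c
    change φ (algebraMap K (AlgebraicClosure K) (y c)) = _
    rw [AlgEquiv.commutes]
    rfl
  rw [h2] at h1
  exact ((hX x _ hy ho).1 _).1 h1

lemma lin_unique {g h : G} (e : app S g x = app S h x) :
    S.tor.lin g⁻¹ = S.tor.lin h⁻¹ ∧ S.vec.lin g⁻¹ = S.vec.lin h⁻¹ := by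
  have h1 : app S (g⁻¹ * h) x = x := by
    rw [app_mul, ← e, ← app_mul, inv_mul_cancel, app_one]
  obtain ⟨h2, h3⟩ := (hX x _ hy ho).2 _ h1
  rw [S.tor.lin_mul] at h2
  rw [S.vec.lin_mul] at h3
  exact ⟨eq_of_inv h2 (linT_inv2 S h), eq_of_inv h3 (linV_inv2 S h)⟩

/-- the matrix by which `φ` acts on the twisted torus -/
noncomputable def Mf (φ : GalK K) : Matrix (Fin s) (Fin s) ℤ :=
  S.tor.lin (conj_ex hX hy ho φ).choose⁻¹ * T.ρ φ

/-- the matrix by which `φ` acts on the twisted affine space -/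
noncomputable def Nf (φ : GalK K) : Matrix (Fin k) (Fin k) (AlgebraicClosure K) :=
  S.vec.lin (conj_ex hX hy ho φ).choose⁻¹

lemma Mf_eq (φ : GalK K) {g : G} (hg : tw D φ x = app S g x) :
    Mf hX hy ho φ = S.tor.lin g⁻¹ * T.ρ φ := by
  unfold Mf
  rw [(lin_unique hX hy ho ((conj_ex hX hy ho φ).choose_spec.symm.trans hg)).1]

lemma Nf_eq (φ : GalK K) {g : G} (hg : tw D φ x = app S g x) :
    Nf hX hy ho φ = S.vec.lin g⁻¹ := by
  unfold Nf
  rw [(lin_unique hX hy ho ((conj_ex hX hy ho φ).choose_spec.symm.trans hg)).2]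

lemma tw_app2 {φ ψ : GalK K} {g h : G} (hg : tw D φ x = app S g x)
    (hh : tw D ψ x = app S h x) : tw D (φ * ψ) x = app S (S.γ φ h * g) x := by
  rw [tw_mul, hh, tw_app, hg, ← app_mul]

lemma Mf_mul (φ ψ : GalK K) : Mf hX hy ho (φ * ψ) = Mf hX hy ho φ * Mf hX hy ho ψ := by
  obtain ⟨g, hg⟩ := conj_ex hX hy ho φ
  obtain ⟨h, hh⟩ := conj_ex hX hy ho ψ
  have h2 := tw_app2 hX hy ho hg hh
  rw [Mf_eq hX hy ho φ hg, Mf_eq hX hy ho ψ hh, Mf_eq hX hy ho (φ * ψ) h2, mul_inv_rev,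
    S.tor.lin_mul, T.ρ_mul]
  have h3 : S.tor.lin (S.γ φ h)⁻¹ * T.ρ φ = T.ρ φ * S.tor.lin h⁻¹ := by
    have h4 := S.tor.gal_lin φ h
    calc S.tor.lin (S.γ φ h)⁻¹ * T.ρ φ
        = S.tor.lin (S.γ φ h)⁻¹ * (T.ρ φ * S.tor.lin h) * S.tor.lin h⁻¹ := by
          rw [mul_assoc (S.tor.lin (S.γ φ h)⁻¹), mul_assoc (T.ρ φ), linT_inv2, mul_one]
      _ = (S.tor.lin (S.γ φ h)⁻¹ * S.tor.lin (S.γ φ h)) * T.ρ φ * S.tor.lin h⁻¹ := by
          rw [← h4, ← mul_assoc]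
      _ = T.ρ φ * S.tor.lin h⁻¹ := by rw [linT_inv1, one_mul]
  calc S.tor.lin g⁻¹ * S.tor.lin (S.γ φ h)⁻¹ * (T.ρ φ * T.ρ ψ)
      = S.tor.lin g⁻¹ * (S.tor.lin (S.γ φ h)⁻¹ * T.ρ φ) * T.ρ ψ := by simp only [mul_assoc]
    _ = S.tor.lin g⁻¹ * T.ρ φ * (S.tor.lin h⁻¹ * T.ρ ψ) := by rw [h3]; simp only [mul_assoc]

lemma map_mul_mat (φ : GalK K) (M M' : Matrix (Fin k) (Fin k) (AlgebraicClosure K)) :
    (M * M').map φ = M.map φ * M'.map φ := by
  ext i j
  rw [Matrix.map_apply, Matrix.mul_apply, Matrix.mul_apply, map_sum]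
  exact Finset.sum_congr rfl (fun l _ => map_mul φ _ _)

lemma map_one_mat (φ : GalK K) :
    (1 : Matrix (Fin k) (Fin k) (AlgebraicClosure K)).map φ = 1 := by
  ext i j
  rw [Matrix.map_apply, Matrix.one_apply]
  split_ifs
  · exact map_one φ
  · exact map_zero φ

lemma Nf_mul (φ ψ : GalK K) : Nf hX hy ho (φ * ψ) =
    Nf hX hy ho φ * (Nf hX hy ho ψ).map φ := by
  obtain ⟨g, hg⟩ := conj_ex hX hy ho φ
  obtain ⟨h, hh⟩ := conj_ex hX hy ho ψ
  have h2 := tw_app2 hX hy ho hg hh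
  rw [Nf_eq hX hy ho φ hg, Nf_eq hX hy ho ψ hh, Nf_eq hX hy ho (φ * ψ) h2, mul_inv_rev,
    S.vec.lin_mul]
  congr 1
  refine eq_of_inv (linV_inv1 S (S.γ φ h)) ?_
  rw [linV_gal, ← map_mul_mat hX hy ho, linV_inv2, map_one_mat hX hy ho]

lemma Mf_one : Mf hX hy ho 1 = 1 := by
  have h1 : tw D 1 x = app S 1 x := by rw [tw_one, app_one]
  rw [Mf_eq hX hy ho 1 h1, inv_one, S.tor.lin_one, T.ρ_one, one_mul]

lemma Nf_one : Nf hX hy ho 1 = 1 := by
  have h1 : tw D 1 x = app S 1 x := by rw [tw_one, app_one]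
  rw [Nf_eq hX hy ho 1 h1, inv_one, S.vec.lin_one]

end stab

end Pool.Agent.K1H82.KV
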