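import Pool.Agent.K1H82.KV.Rat

/-!
# The conditions at one place
-/

set_option autoImplicit false
set_option linter.unusedSectionVars false

open MvPolynomial Pool.Agent.TH954.X Pool.Agent.K1H82.KM Filter Topology
open Pool.Agent.K1H82.KQ (PtB GalK cjg OnX sg IsBasP)
open Pool.Agent.K1H82.KA (PtsB GActP ln exists_ptsE)
open Pool.Agent.K1H82.KR (Off)
open Pool.Agent.K1H82.KS (Sq sq_near)
open Pool.Agent.K1H82.KT hiding Mf Mf_eq Mf_mul Mf_one Mf_congr MF MF_rs MF_one nr nr_fix nr_val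
  conj_ex Big big_exists
open Pool.Agent.K1H82.KU (BasF zero_fld sub_fld zsmul_fld fix_fld)

namespace Pool.Agent.K1H82.KV

section place

variable {K : Type} [Field K] [NumberField K] {n r s k N m : ℕ} {T : Torus K s}
  {A : Fin r → AbVar K n} {D : Tors T A} {X : RMapV D k N} {x : PtV s k A} {y : Fin N → K}
  (hy : ImgV X.Fam x (up y)) (F : IntermediateField K (AlgebraicClosure K))
  [FiniteDimensional K F] [Normal K F]

include hy in
/-- the points near `x` -/
theorem placeV (hXF : X.F ≤ F) (hB : Big D x F)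
    (M : (F ≃ₐ[K] F) → Matrix (Fin s) (Fin s) ℤ)
    (Nm : (F ≃ₐ[K] F) → Matrix (Fin k) (Fin k) (AlgebraicClosure K))
    (hN : ∀ τ i j, Nm τ i j ∈ F) (ω : Module.Basis (Fin m) K F)
    {L : Type} [NontriviallyNormedField L] [CompleteSpace L] (σ : K →+* L) (hσ : DenseRange σ)
    {U : Set (Fin N → L)} (hU : IsOpen U) (h0 : (0 : Fin N → L) ∉ U)
    {c0 : L} (hc0 : (fun i => c0 * σ (y i)) ∈ U)
    {g0 : MvPolynomial (((Fin s ⊕ Fin k) ⊕ Fin r) × Fin n) X.F}
    {δ : (Fin s ⊕ Fin k) ⊕ Fin r → ℕ} (hg0 : MH δ g0) (hne : ev g0 (crB x) ≠ 0) :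
    ∃ (ε : ℝ) (𝓤 : ∀ b, Set (Set ((A b).Pt (AlgebraicClosure K))))
      (V : ∀ b, Set ((A b).Pt (AlgebraicClosure K))), 0 < ε ∧ (∀ b, BasF (A b) F (𝓤 b)) ∧
      (∀ b, V b ∈ 𝓤 b) ∧ ∀ xx : Fin s → Fin m → K, (∀ j κ, ‖σ (xx j κ)‖ < ε) →
      ∀ a : Tp s F, (∀ j, (a j : F) = 1 + ∑ κ, xx j κ • ω κ) →
      ∀ bb : Fin k → Fin m → K, (∀ l κ, ‖σ (bb l κ)‖ < ε) →
      ∀ R : Pts A (AlgebraicClosure K), (∀ b, R b ∈ V b) →
        ev g0 (crB (sh x (nr F M a) (vr F Nm (fun l => ∑ κ, bb l κ • ω κ)) R)) ≠ 0 ∧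
        ∀ y' : Fin N → K,
          ImgV X.Fam (sh x (nr F M a) (vr F Nm (fun l => ∑ κ, bb l κ • ω κ)) R) (up y') →
          ∃ c : L, c ≠ 0 ∧ (fun i => c * σ (y' i)) ∈ U := by
  classical
  have hprop : ProperSpace L := W279.Tri.properSpace_of_denseRange σ hσ
  let _ : Algebra K L := σ.toAlgebra
  let φ : AlgebraicClosure K →ₐ[K] AlgebraicClosure L := IsAlgClosed.lift
  set E : IntermediateField L (AlgebraicClosure L) := IntermediateField.adjoin L
    (Set.range fun κ => φ (ω κ : AlgebraicClosure K)) with hE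
  have hfin : FiniteDimensional L E := by
    have : Finite (Set.range fun κ => φ (ω κ : AlgebraicClosure K)) := Set.finite_range _
    refine IntermediateField.finiteDimensional_adjoin (fun x _ => ?_)
    exact (AlgebraicClosure.isAlgebraic L).isIntegral.isIntegral x
  let _ : TopologicalSpace E := moduleTopology L E
  have : IsModuleTopology L E := ⟨rfl⟩
  have htr : IsTopologicalRing E := topring L E
  have hmem : ∀ x : F, φ (x : AlgebraicClosure K) ∈ E := by
    intro x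
    have h1 : φ (x : AlgebraicClosure K) =
        ∑ κ, algebraMap L (AlgebraicClosure L) (σ (ω.repr x κ)) *
          φ (ω κ : AlgebraicClosure K) := by
      conv_lhs => rw [← ω.sum_repr x]
      rw [IntermediateField.coe_sum, map_sum]
      refine Finset.sum_congr rfl (fun k _ => ?_)
      rw [IntermediateField.coe_smul, map_smul, Algebra.smul_def]
      rfl
    rw [h1]
    exact sum_mem fun k _ => E.mul_mem (E.algebraMap_mem _)
      (IntermediateField.subset_adjoin L _ ⟨k, rfl⟩)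
  set ψ : E →ₐ[K] AlgebraicClosure L := E.val.restrictScalars K with hψ
  -- the homomorphism from `F` to `E`
  let θ : F →ₐ[K] E := (φ.comp F.val).codRestrict
    (IntermediateField.restrictScalars K E).toSubalgebra (fun x => hmem x)
  have hθ : ∀ x : F, ψ (θ x) = φ (x : AlgebraicClosure K) := fun x => rfl
  let _ : Algebra X.F E := (θ.toRingHom.comp (IntermediateField.inclusion hXF).toRingHom).toAlgebra
  obtain ⟨P', hP'⟩ := exists_ptsE φ x.2.2 E (fun b c => hmem ⟨(x.2.2 b).1 c, hB.ab b c⟩)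
  have hpt : ∀ b (R : (A b).Pt (AlgebraicClosure K)), (∀ c, R.1 c ∈ F) →
      ∃ R' : (A b).Pt E, mapPt (A b) ψ R' = mapPt (A b) φ R := by
    intro b R hR
    obtain ⟨R', hR'⟩ := exists_ptsE (A := fun _ : Fin 1 => A b) φ (fun _ => R) E
      (fun _ c => hmem ⟨R.1 c, hR c⟩)
    exact ⟨R' 0, hR' 0⟩
  set u' : Fin s → E := fun i => θ ⟨(x.1 i : AlgebraicClosure K), hB.tor i⟩ with hu'
  set w' : Fin k → E := fun j => θ ⟨x.2.1 j, hB.vec j⟩ with hw'
  -- evaluation
  have hev : ∀ (f : MvPolynomial (((Fin s ⊕ Fin k) ⊕ Fin r) × Fin n) X.F)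
      (v : (Fin s ⊕ Fin k) ⊕ Fin r → Fin n → E)
      (w : (Fin s ⊕ Fin k) ⊕ Fin r → Fin n → AlgebraicClosure K), (∀ i c, ψ (v i c) = φ (w i c)) →
      ψ (ev f v) = φ (ev f w) := by
    intro f v w hvw
    have h1 := ev_hom (ψ : E →+* AlgebraicClosure L) f v
    have h2 := ev_hom (φ : AlgebraicClosure K →+* AlgebraicClosure L) f w
    have h3 : (ψ : E →+* AlgebraicClosure L).comp (algebraMap X.F E) =
        (φ : AlgebraicClosure K →+* AlgebraicClosure L).comp
          (algebraMap X.F (AlgebraicClosure K)) := RingHom.ext fun x => rfl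
    have h4 : (fun p : ((Fin s ⊕ Fin k) ⊕ Fin r) × Fin n => (ψ : E →+* AlgebraicClosure L) (v p.1 p.2)) =
        fun p => (φ : AlgebraicClosure K →+* AlgebraicClosure L) (w p.1 p.2) :=
      funext fun p => hvw p.1 p.2
    rw [h3, h4] at h1
    exact h1.trans h2.symm
  have hψi : Function.Injective ψ := ψ.toRingHom.injective
  have hφi : Function.Injective φ := φ.toRingHom.injective
  have hnz : ∀ (f : MvPolynomial (((Fin s ⊕ Fin k) ⊕ Fin r) × Fin n) X.F)
      (v : (Fin s ⊕ Fin k) ⊕ Fin r → Fin n → E)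
      (w : (Fin s ⊕ Fin k) ⊕ Fin r → Fin n → AlgebraicClosure K), (∀ i c, ψ (v i c) = φ (w i c)) →
      (ev f v ≠ 0 ↔ ev f w ≠ 0) := by
    intro f v w hvw
    rw [not_iff_not, ← map_eq_zero_iff ψ hψi, hev f v w hvw, map_eq_zero_iff φ hφi]
  -- scalars
  have hsc : ∀ (v : Fin N → E) (s0 : AlgebraicClosure K) (z : Fin N → K), z ≠ 0 →
      (∀ i, ψ (v i) = φ (s0 * up z i)) → ∃ s1 : E, ψ s1 = φ s0 ∧
        ∀ i, v i = s1 * algebraMap K E (z i) := by
    intro v s0 z hz hv
    obtain ⟨i1, hi1⟩ := Function.ne_iff.1 hz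
    have h1 : ψ (v i1 * algebraMap K E (z i1)⁻¹) = φ s0 := by
      rw [map_mul, hv]
      change φ (s0 * algebraMap K (AlgebraicClosure K) (z i1)) *
        ψ (algebraMap K E (z i1)⁻¹) = φ s0
      rw [AlgHom.commutes, map_mul, AlgHom.commutes, mul_assoc, ← map_mul,
        mul_inv_cancel₀ hi1, map_one, mul_one]
    refine ⟨_, h1, fun i => hψi ?_⟩
    rw [hv, map_mul φ, map_mul ψ (v i1 * _) _, h1, AlgHom.commutes ψ]
    congr 1
    exact AlgHom.commutes φ (z i)
  -- coordinates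
  have hcr : ∀ (v : Fin s → E) (w : Fin s → AlgebraicClosure K) (v2 : Fin k → E)
      (w2 : Fin k → AlgebraicClosure K) (Q' : Pts A E)
      (Q : Pts A (AlgebraicClosure K)), (∀ i, ψ (v i) = φ (w i)) → (∀ i, ψ (v2 i) = φ (w2 i)) →
      (∀ b, mapPt (A b) ψ (Q' b) = mapPt (A b) φ (Q b)) →
      ∀ i c, ψ (crV (A := A) v v2 Q' i c) = φ (crV (A := A) w w2 Q i c) := by
    intro v w v2 w2 Q' Q hvw hvw2 hQ i c
    rcases i with i | b
    · change ψ (if c.1 = 0 then 1 else if c.1 = 1 then Sum.elim v v2 i else 0) =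
        φ (if c.1 = 0 then 1 else if c.1 = 1 then Sum.elim w w2 i else 0)
      split_ifs
      · rw [map_one, map_one]
      · rcases i with i | i
        · exact hvw i
        · exact hvw2 i
      · rw [map_zero, map_zero]
    · exact congrArg (fun R : (A b).Pt (AlgebraicClosure L) => R.1 c) (hQ b)
  -- the conjugates of the elements `1 + ∑ x_k ω_k`
  set aE : (Fin s → Fin m → L) → (F ≃ₐ[K] F) → Fin s → E := fun z τ j =>
    1 + ∑ κ, algebraMap L E (z j κ) * θ (τ (ω κ)) with haE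
  have haEc : ∀ τ j, Continuous fun x => aE x τ j := by
    intro τ j
    refine continuous_const.add (continuous_finsetSum _ (fun k _ => ?_))
    refine Continuous.mul ?_ continuous_const
    have hc : Continuous (algebraMap L E) :=
      IsModuleTopology.continuous_of_linearMap (Algebra.linearMap L E)
    exact hc.comp ((continuous_apply k).comp (continuous_apply j))
  have haE0 : ∀ τ j, aE 0 τ j = 1 := by
    intro τ j
    simp only [haE, Pi.zero_apply, map_zero, zero_mul, Finset.sum_const_zero, add_zero]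
  have hlin : ∀ (z : Fin m → K) (τ : F ≃ₐ[K] F), ∑ κ, algebraMap L E (σ (z κ)) * θ (τ (ω κ)) =
      θ (τ (∑ κ, z κ • ω κ)) := by
    intro z τ
    rw [map_sum, map_sum]
    refine Finset.sum_congr rfl (fun κ _ => ?_)
    rw [Algebra.smul_def, map_mul, map_mul, AlgEquiv.commutes, AlgHom.commutes,
      IsScalarTower.algebraMap_apply K L E]
    rfl
  have haEx : ∀ (z : Fin s → Fin m → K) τ j, aE (fun j κ => σ (z j κ)) τ j =
      θ (τ (1 + ∑ κ, z j κ • ω κ)) := by
    intro z τ j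
    rw [map_add τ, map_one τ, map_add θ, map_one θ, ← hlin]
  set nu : (Fin s → Fin m → L) → Fin s → E := fun z i =>
    u' i * ∏ τ : F ≃ₐ[K] F, ∏ j, (aE z τ j) ^ (M τ i j).toNat with hnu
  set de : (Fin s → Fin m → L) → Fin s → E := fun z i =>
    ∏ τ : F ≃ₐ[K] F, ∏ j, (aE z τ j) ^ (-(M τ i j)).toNat with hde
  set nv : (Fin k → Fin m → L) → Fin k → E := fun z i =>
    w' i + ∑ τ : F ≃ₐ[K] F, ∑ l, θ ⟨Nm τ i l, hN τ i l⟩ *
      ∑ κ, algebraMap L E (z l κ) * θ (τ (ω κ)) with hnv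
  have hnuc : ∀ i, Continuous fun z => nu z i := fun i =>
    continuous_const.mul (continuous_finsetProd _ (fun τ _ => continuous_finsetProd _
      (fun j _ => (haEc τ j).pow _)))
  have hdec : ∀ i, Continuous fun z => de z i := fun i =>
    continuous_finsetProd _ (fun τ _ => continuous_finsetProd _
      (fun j _ => (haEc τ j).pow _))
  have hnvc : ∀ i, Continuous fun z => nv z i := by
    intro i
    refine continuous_const.add (continuous_finsetSum _ (fun τ _ => continuous_finsetSum _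
      (fun l _ => continuous_const.mul (continuous_finsetSum _ (fun κ _ => ?_)))))
    refine Continuous.mul ?_ continuous_const
    have hc : Continuous (algebraMap L E) :=
      IsModuleTopology.continuous_of_linearMap (Algebra.linearMap L E)
    exact hc.comp ((continuous_apply κ).comp (continuous_apply l))
  set Dn : (Fin s → Fin m → L) × (Fin k → Fin m → L) → Fin s ⊕ Fin k → E := fun z =>
    Sum.elim (de z.1) (fun _ => 1) with hDn
  set Nn : (Fin s → Fin m → L) × (Fin k → Fin m → L) → Fin s ⊕ Fin k → E := fun z =>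
    Sum.elim (nu z.1) (nv z.2) with hNn
  have hDnc : ∀ i, Continuous fun z => Dn z i := by
    rintro (i | i)
    · exact (hdec i).comp continuous_fst
    · exact continuous_const
  have hNnc : ∀ i, Continuous fun z => Nn z i := by
    rintro (i | i)
    · exact (hnuc i).comp continuous_fst
    · exact (hnvc i).comp continuous_snd
  have hcoc : Continuous fun z : ((Fin s → Fin m → L) × (Fin k → Fin m → L)) ×
        (Fin r → Fin n → E) => (Sum.elim (fun i => bv n (Dn z.1 i) (Nn z.1 i)) z.2 :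
      (Fin s ⊕ Fin k) ⊕ Fin r → Fin n → E) := by
    refine continuous_pi fun i => ?_
    rcases i with i | b
    · refine continuous_pi fun c => ?_
      change Continuous fun z : ((Fin s → Fin m → L) × (Fin k → Fin m → L)) ×
          (Fin r → Fin n → E) =>
        if c.1 = 0 then Dn z.1 i else if c.1 = 1 then Nn z.1 i else 0
      split_ifs
      · exact (hDnc i).comp continuous_fst
      · exact (hNnc i).comp continuous_fst
      · exact continuous_const
    · exact (continuous_apply b).comp continuous_snd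
  have hco0 : (Sum.elim (fun i => bv n (Dn 0 i) (Nn 0 i)) (crds P') :
      (Fin s ⊕ Fin k) ⊕ Fin r → Fin n → E) = crV (A := A) u' w' P' := by
    have h1 : ∀ i, de 0 i = 1 := fun i => by
      simp only [hde, haE0, one_pow, Finset.prod_const_one]
    have h2 : ∀ i, nu 0 i = u' i := fun i => by
      simp only [hnu, haE0, one_pow, Finset.prod_const_one, mul_one]
    have h3 : ∀ i, nv 0 i = w' i := fun i => by
      simp only [hnv, Pi.zero_apply, map_zero, zero_mul, Finset.sum_const_zero, mul_zero,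
        add_zero]
    funext i
    rcases i with (i | i) | b
    · change bv n (de 0 i) (nu 0 i) = tv n (u' i)
      rw [h1, h2]
      rfl
    · change bv n 1 (nv 0 i) = tv n (w' i)
      rw [h3]
      rfl
    · rfl
  -- the tuple of forms
  obtain ⟨C0, hC0, s0, hs0, hCs0⟩ := ValT.exists_ne hy
  have hy0 : y ≠ 0 := by
    rintro rfl
    exact ValT.ne_zero hy (funext fun _ => map_zero _)
  obtain ⟨s1, hs1, hs1'⟩ := hsc (fun i => ev (C0 i) (crV (A := A) u' w' P')) s0 y hy0 (fun i => by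
    rw [hev (C0 i) _ _ (hcr u' (fun i => (x.1 i : AlgebraicClosure K)) w' x.2.1 P' x.2.2
      (fun i => hθ _) (fun i => hθ _) hP')]
    exact congrArg φ (congrFun hCs0 i))
  have hs1n : s1 ≠ 0 := by
    rintro rfl
    rw [map_zero] at hs1
    exact hs0 (hφi (by rw [← hs1, map_zero]))
  obtain ⟨ℓ, hℓ⟩ := LinearMap.exists_leftInverse_of_injective (Algebra.linearMap L E)
    (LinearMap.ker_eq_bot.2 (algebraMap L E).injective)
  have hℓ' : ∀ (z : L) (e : E), ℓ (e * algebraMap L E z) = z * ℓ e := by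
    intro z e
    rw [mul_comm, ← Algebra.smul_def, map_smul, smul_eq_mul]
  have hℓ1 : ∀ z : L, ℓ (algebraMap L E z) = z := fun z => LinearMap.congr_fun hℓ z
  have hℓc : Continuous ℓ := IsModuleTopology.continuous_of_linearMap ℓ
  have ht2 := t2E L E
  have hKE : ∀ z : K, algebraMap K E z = algebraMap L E (σ z) := fun z =>
    IsScalarTower.algebraMap_apply K L E z
  set Θ : ((Fin s → Fin m → L) × (Fin k → Fin m → L)) × (Fin r → Fin n → E) →
      (Fin N → L) × E := fun z =>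
    (fun i => c0 * ℓ (s1⁻¹ * ev (C0 i) (Sum.elim (fun i => bv n (Dn z.1 i) (Nn z.1 i)) z.2)),
      ev g0 (Sum.elim (fun i => bv n (Dn z.1 i) (Nn z.1 i)) z.2)) with hΘ
  have hΘc : Continuous Θ := Continuous.prodMk (continuous_pi fun i => continuous_const.mul
    (hℓc.comp (continuous_const.mul ((cont_evE (C0 i)).comp hcoc)))) ((cont_evE g0).comp hcoc)
  have hΘ0 : U ×ˢ {e : E | e ≠ 0} ∈ 𝓝 (Θ (0, crds P')) := by
    refine prod_mem_nhds (hU.mem_nhds ?_) (isOpen_ne.mem_nhds ?_)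
    · have h1 : (Θ (0, crds P')).1 = fun i => c0 * σ (y i) := by
        funext i
        change c0 * ℓ (s1⁻¹ * ev (C0 i) (Sum.elim (fun i => bv n (Dn 0 i) (Nn 0 i)) (crds P'))) = _
        rw [hco0, hs1', inv_mul_cancel_left₀ hs1n, hKE, hℓ1]
      change (Θ (0, crds P')).1 ∈ U
      rw [h1]
      exact hc0
    · change ev g0 (Sum.elim (fun i => bv n (Dn 0 i) (Nn 0 i)) (crds P')) ≠ 0
      rw [hco0]
      exact (hnz g0 _ _ (hcr u' (fun i => (x.1 i : AlgebraicClosure K)) w' x.2.1 P' x.2.2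
        (fun i => hθ _) (fun i => hθ _) hP')).2 hne
  obtain ⟨Zn, hZn, W, hW, hnear⟩ := split_near (L := L) A P' hΘc 0 hΘ0
  obtain ⟨ε, hε, hball⟩ := Metric.mem_nhds_iff.1 hZn
  set V : ∀ b, Set (Fin n → E) → Set ((A b).Pt (AlgebraicClosure K)) := fun b W =>
    {R | (∀ c, R.1 c ∈ F) ∧ ∃ R' : (A b).Pt E, mapPt (A b) ψ R' = mapPt (A b) φ R ∧ Nr W R'.1}
    with hV
  have hmz : ∀ b, mapPt (A b) ψ (0 : (A b).Pt E) =
      mapPt (A b) φ (0 : (A b).Pt (AlgebraicClosure K)) := by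
    intro b
    change mapH (A b) ψ 0 = mapH (A b) φ 0
    rw [map_zero, map_zero]
  have hms : ∀ b (R R2 : (A b).Pt (AlgebraicClosure K)) (R' R2' : (A b).Pt E),
      mapPt (A b) ψ R' = mapPt (A b) φ R → mapPt (A b) ψ R2' = mapPt (A b) φ R2 →
      mapPt (A b) ψ (R' - R2') = mapPt (A b) φ (R - R2) := by
    intro b R R2 R' R2' h1 h2
    rw [(map_add_sub (A b) ψ R' R2').2, (map_add_sub (A b) φ R R2).2, h1, h2]
  have hbas : ∀ b, IsBasP (A b) {U | ∃ W ∈ 𝓝 (0 : (A b).Pt E).1, U = V b W} := by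
    intro b
    refine ⟨⟨_, Set.univ, univ_mem, rfl⟩, ?_, ?_, ?_⟩
    · rintro _ ⟨W, hW, rfl⟩
      refine ⟨fun c => ?_, 0, hmz b, 1, one_ne_zero, by
        rw [one_smul]
        exact mem_of_mem_nhds hW⟩
      exact zero_fld F b c
    · rintro _ ⟨W, hW, rfl⟩
      obtain ⟨W1, hW1, W2, hW2, h12⟩ := cont_sub (L := L) (A b) 0 0 (W := W)
        (by rwa [sub_zero])
      refine ⟨_, ⟨W1 ∩ W2, inter_mem hW1 hW2, rfl⟩, ?_⟩
      rintro R ⟨hR, R', hR', hR2⟩ R1 ⟨hR1, R1', hR1', hR12⟩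
      exact ⟨sub_fld F b hR hR1, R' - R1', hms b _ _ _ _ hR' hR1',
        h12 R' R1' (hR2.mono Set.inter_subset_left) (hR12.mono Set.inter_subset_right)⟩
    · rintro _ ⟨W, hW, rfl⟩ _ ⟨W', hW', rfl⟩
      refine ⟨_, ⟨W ∩ W', inter_mem hW hW', rfl⟩, ?_⟩
      rintro R ⟨hR, R', hR', hR2⟩
      exact ⟨⟨hR, R', hR', hR2.mono Set.inter_subset_left⟩,
        ⟨hR, R', hR', hR2.mono Set.inter_subset_right⟩⟩
  refine ⟨ε, fun b => {U | ∃ W ∈ 𝓝 (0 : (A b).Pt E).1, U = V b W}, fun b => V b (W b), hε,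
    fun b => ⟨hbas b, ?_, ?_⟩, fun b => ⟨W b, hW b, rfl⟩, fun xx hx a ha bb hbb R hR => ?_⟩
  · rintro _ ⟨W, hW, rfl⟩ R hR
    exact hR.1
  · rintro _ ⟨W, hW, rfl⟩ R hR
    obtain ⟨R', hR'⟩ := hpt b R hR
    refine (sq_near (L := L) (A b) R' hW).mono (fun m hm => ?_)
    refine ⟨zsmul_fld F b hR m, m • R', ?_, hm⟩
    change mapH (A b) ψ (m • R') = mapH (A b) φ (m • R)
    rw [map_zsmul, map_zsmul, mapH_apply, mapH_apply, hR']
  choose hRF R' hR' hRn using hR
  set Xx : Fin s → Fin m → L := fun j κ => σ (xx j κ) with hXx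
  set Bb : Fin k → Fin m → L := fun j κ => σ (bb j κ) with hBb
  obtain ⟨t, ht, hnear1, hnear2⟩ := hnear (Xx, Bb) (hball (by
    rw [mem_ball_zero_iff, Prod.norm_def, max_lt_iff]
    constructor
    · rw [pi_norm_lt_iff hε]
      intro j
      rw [pi_norm_lt_iff hε]
      exact hx j
    · rw [pi_norm_lt_iff hε]
      intro j
      rw [pi_norm_lt_iff hε]
      exact hbb j)) R' hRn
  have hae : ∀ τ j, aE Xx τ j = θ (τ (a j : F)) := by
    intro τ j
    rw [haEx, ha]
  have hne0 : ∀ (τ : F ≃ₐ[K] F) j, θ (τ (a j : F)) ≠ 0 := by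
    intro τ j h1
    have h2 : τ (a j : F) = 0 := θ.toRingHom.injective (h1.trans (map_zero θ).symm)
    exact (a j).ne_zero (τ.injective (h2.trans (map_zero τ).symm))
  have hde0 : ∀ i, de Xx i ≠ 0 := by
    intro i
    refine Finset.prod_ne_zero_iff.2 (fun τ _ => Finset.prod_ne_zero_iff.2 (fun j _ =>
      pow_ne_zero _ ?_))
    rw [hae]
    exact hne0 τ j
  have hquo : ∀ i, nu Xx i / de Xx i =
      u' i * ∏ τ : F ≃ₐ[K] F, ∏ j, (θ (τ (a j : F))) ^ (M τ i j) := by
    intro i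
    simp only [hnu, hde, hae]
    rw [mul_div_assoc, ← Finset.prod_div_distrib]
    congr 1
    refine Finset.prod_congr rfl (fun τ _ => ?_)
    rw [← Finset.prod_div_distrib]
    exact Finset.prod_congr rfl (fun j _ => zpow_toNat (hne0 τ j) _)
  have hψq : ∀ i, ψ (nu Xx i / de Xx i) =
      φ ((x.1 * nr F M a) i : AlgebraicClosure K) := by
    intro i
    have h1 : (((x.1 * nr F M a) i : (AlgebraicClosure K)ˣ) : AlgebraicClosure K) =
        (x.1 i : AlgebraicClosure K) * ((nr F M a i : (AlgebraicClosure K)ˣ) :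
          AlgebraicClosure K) := rfl
    rw [hquo, h1, nr_val, map_mul, map_mul, map_prod, map_prod]
    congr 1
    refine Finset.prod_congr rfl (fun τ _ => ?_)
    rw [map_prod, map_prod]
    refine Finset.prod_congr rfl (fun j _ => ?_)
    rw [map_zpow₀, map_zpow₀]
    congr 1
  have hψv : ∀ i, ψ (nv Bb i) =
      φ ((x.2.1 + vr F Nm (fun l => ∑ κ, bb l κ • ω κ)) i) := by
    intro i
    have h1 : nv Bb i = θ ⟨x.2.1 i, hB.vec i⟩ + ∑ τ : F ≃ₐ[K] F, ∑ l,
        θ ⟨Nm τ i l, hN τ i l⟩ * θ (τ (∑ κ, bb l κ • ω κ)) := by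
      change w' i + ∑ τ : F ≃ₐ[K] F, ∑ l, θ ⟨Nm τ i l, hN τ i l⟩ *
        ∑ κ, algebraMap L E (σ (bb l κ)) * θ (τ (ω κ)) = _
      simp only [hlin]
      rfl
    rw [h1, map_add, map_sum]
    change _ = φ (x.2.1 i + vr F Nm (fun l => ∑ κ, bb l κ • ω κ) i)
    rw [map_add φ]
    congr 1
    change _ = φ (∑ τ : F ≃ₐ[K] F, ∑ l, Nm τ i l *
      ((τ (∑ κ, bb l κ • ω κ) : F) : AlgebraicClosure K))
    rw [map_sum]
    refine Finset.sum_congr rfl (fun τ _ => ?_)
    rw [map_sum, map_sum]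
    refine Finset.sum_congr rfl (fun l _ => ?_)
    rw [map_mul, map_mul]
    rfl
  set v : Fin s → E := fun i => nu Xx i / de Xx i with hv
  set ti : (Fin s ⊕ Fin k) ⊕ Fin r → E := Sum.elim (Dn (Xx, Bb)) t with hti
  have hel : (Sum.elim (fun i => bv n (Dn (Xx, Bb) i)
      (Nn (Xx, Bb) i)) (fun b => t b • (P' b + R' b).1) :
        (Fin s ⊕ Fin k) ⊕ Fin r → Fin n → E) =
      fun j => ti j • crV (A := A) v (nv Bb) (fun b => P' b + R' b) j := by
    funext j
    rcases j with (i | i) | b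
    · exact bv_eq n (hde0 i)
    · change bv n 1 (nv Bb i) = (1 : E) • tv n (nv Bb i)
      rw [one_smul]
      rfl
    · rfl
  have hQ : ∀ b, mapPt (A b) ψ (P' b + R' b) = mapPt (A b) φ (x.2.2 b + R b) := by
    intro b
    change mapH (A b) ψ (P' b + R' b) = mapH (A b) φ (x.2.2 b + R b)
    rw [map_add, map_add, mapH_apply, mapH_apply, mapH_apply, mapH_apply, hP', hR']
  have hco := hcr v (fun i => ((x.1 * nr F M a) i : AlgebraicClosure K)) (nv Bb)
    (x.2.1 + vr F Nm (fun l => ∑ κ, bb l κ • ω κ))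
    (fun b => P' b + R' b) (fun b => x.2.2 b + R b) hψq hψv hQ
  refine ⟨?_, fun y' hy' => ?_⟩
  · have h1 : ev g0 (Sum.elim (fun i => bv n (Dn (Xx, Bb) i)
      (Nn (Xx, Bb) i)) (fun b => t b • (P' b + R' b).1)) ≠ 0 := hnear2
    rw [hel, ev_smul hg0] at h1
    exact (hnz g0 _ _ hco).1 (right_ne_zero_of_mul h1)
  · have hy'0 : y' ≠ 0 := by
      rintro rfl
      exact ValT.ne_zero hy' (funext fun _ => map_zero _)
    obtain ⟨s', hs'⟩ := hy'.1 C0 hC0
    obtain ⟨s2, hs2, hs2'⟩ := hsc (fun i => ev (C0 i) (crV (A := A) v (nv Bb)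
      (fun b => P' b + R' b))) s' y' hy'0 (fun i => by
        rw [hev (C0 i) _ _ hco]
        exact congrArg φ (congrFun hs' i))
    have h1 : (fun i => c0 * ℓ (s1⁻¹ * ev (C0 i) (Sum.elim (fun i =>
      bv n (Dn (Xx, Bb) i) (Nn (Xx, Bb) i))
        (fun b => t b • (P' b + R' b).1)))) ∈ U := hnear1
    have h2 : (fun i => c0 * ℓ (s1⁻¹ * ev (C0 i) (Sum.elim (fun i =>
      bv n (Dn (Xx, Bb) i) (Nn (Xx, Bb) i))
        (fun b => t b • (P' b + R' b).1)))) =
        fun i => (c0 * ℓ (s1⁻¹ * ((∏ j, ti j ^ X.d j) * s2))) * σ (y' i) := by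
      funext i
      rw [hel, ev_smul (X.Fam_hom C0 hC0 i), hs2', hKE, ← mul_assoc (∏ j, ti j ^ X.d j),
        ← mul_assoc s1⁻¹, hℓ']
      ring
    rw [h2] at h1
    refine ⟨_, ?_, h1⟩
    intro h0'
    apply h0
    have h8 : (fun i => (c0 * ℓ (s1⁻¹ * ((∏ j, ti j ^ X.d j) * s2))) * σ (y' i)) =
        (0 : Fin N → L) := by
      funext i
      rw [h0', zero_mul]
      rfl
    rw [h8] at h1
    exact h1

end place

end Pool.Agent.K1H82.KV
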