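import Pool.Agent.K1H82.KV.Den
import Pool.Agent.K1H82.KV.Pl

/-!
# The local Zariski closures
-/

set_option autoImplicit false
set_option linter.unusedSectionVars false

open MvPolynomial Pool.Agent.TH954.X Pool.Agent.K1H82.KM Filter Topology
open Pool.Agent.K1H82.KQ (PtB GalK cjg OnX sg IsBasP)
open Pool.Agent.K1H82.KA (PtsB GActP ln ln_one)
open Pool.Agent.K1H82.KR (Off off_up)
open Pool.Agent.K1H82.KS (Sq sq_near)
open Pool.Agent.K1H82.KT hiding Mf Mf_eq Mf_mul Mf_one Mf_congr MF MF_rs MF_one nr nr_fix nr_val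
  conj_ex Big big_exists
open Pool.Agent.K1H82.KU (BasF zero_fld sub_fld zsmul_fld fix_fld)

namespace Pool.Agent.K1H82.KV

section twc

variable {K : Type} [Field K] [NumberField K] {n r s k N : ℕ} {T : Torus K s}
  {A : Fin r → AbVar K n} {D : Tors T A} {G H : Type} [Group G] [Group H] {X : RMapV D k N}
  {S : GActV D k G H}

/-- the points of the twisted abelian varieties -/
def TwC (S : GActV D k G H) (x : PtV s k A) (R : Pts A (AlgebraicClosure K)) : Prop :=
  ∀ (φ : GalK K) (g : G), tw D φ x = app S g x → ∀ b, sg (A b) φ (R b) =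
    ln S.ab.act (S.q g) b (R b)

lemma TwC.fld {x : PtV s k A} {F : IntermediateField K (AlgebraicClosure K)}
    [FiniteDimensional K F] [Normal K F] (hF : Big D x F) {R : Pts A (AlgebraicClosure K)}
    (hR : TwC S x R) (b : Fin r) : ∀ c, (R b).1 c ∈ F := by
  refine (fix_fld F).2 (fun σ hσ => ?_)
  have h1 : tw D σ x = app S 1 x := by rw [tw_fix hF hσ, app_one]
  have h2 := hR σ 1 h1 b
  rw [q_one, ln_one] at h2
  exact h2

/-- The local Zariski closure at several places: the core of the argument. -/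
theorem coreV (hDen : S_DEN) (hSml : S_SML)
    (hX : IsQuotV X S) {ι : Type} [Finite ι] [Nonempty ι]
    (L : ι → Type) [∀ i, NontriviallyNormedField (L i)] [∀ i, CompleteSpace (L i)]
    (σ : ∀ i, K →+* L i) (hσ : ∀ i, DenseRange (σ i))
    (f : MvPolynomial (Fin N) K) {U : ∀ i, Set (Fin N → L i)} (hU : ∀ i, IsOpen (U i))
    (h0 : ∀ i, (0 : Fin N → L i) ∉ U i)
    (hf : ∀ y : Fin N → K, y ≠ 0 → (∀ g ∈ X.eqX, eval y g = 0) → (∃ h ∈ X.eqW, eval y h ≠ 0) →
      (∀ i, ∃ c : L i, c ≠ 0 ∧ (fun j => c * σ i (y j)) ∈ U i) → ∀ a : K, eval (a • y) f = 0)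
    (x : PtV s k A) (y : Fin N → K) (hy : ImgV X.Fam x (up y))
    (ho : Off X.eqW (up y)) (hc0 : ∀ i, ∃ c : L i, (fun j => c * σ i (y j)) ∈ U i) :
    ∃ (F : IntermediateField K (AlgebraicClosure K)) (_ : FiniteDimensional K F)
      (_ : Normal K F) (𝓤 : ι → ∀ b, Set (Set ((A b).Pt (AlgebraicClosure K))))
      (V : ι → ∀ b, Set ((A b).Pt (AlgebraicClosure K))), Big D x F ∧
      (∀ i b, BasF (A b) F (𝓤 i b)) ∧ (∀ i b, V i b ∈ 𝓤 i b) ∧
      ∀ Q : Pts A (AlgebraicClosure K),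
        (∀ (Φ : MvPolynomial (((Fin s ⊕ Fin k) ⊕ Fin r) × Fin n) X.F)
          (τ : (Fin s ⊕ Fin k) ⊕ Fin r → ℕ), MH τ Φ → ∀ (u : Fin s → AlgebraicClosure K)
          (w : Fin k → AlgebraicClosure K),
          (∀ R : Pts A (AlgebraicClosure K), TwC S x R → (∀ i b, R b ∈ V i b) →
            ev Φ (crV (A := A) u w (fun b => x.2.2 b + R b)) = 0) →
          ev Φ (crV (A := A) u w Q) = 0) →
        ∀ (v : TpB K s) (w : Fin k → AlgebraicClosure K) (z : Fin N → AlgebraicClosure K),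
          ImgV X.Fam ((v, w, Q) : PtV s k A) z → ∀ a : AlgebraicClosure K,
            aeval (a • z) f = 0 := by
  classical
  choose c0 hc0 using hc0
  obtain ⟨F, hF1, hF2, hB, hXF⟩ := big_exists X x
  set ω := Module.finBasis K F with hω
  obtain ⟨C0, hC0, s0, hs0, hCs0⟩ := ValT.exists_ne hy
  have ho' := ho
  obtain ⟨g0, hg0, hg0'⟩ := ho'
  obtain ⟨δ0, hδ0⟩ := X.homW g0 hg0
  obtain ⟨j0, hj0⟩ := Function.ne_iff.1 (ValT.ne_zero hy)
  have hmul : ∀ w : (Fin s ⊕ Fin k) ⊕ Fin r → Fin n → AlgebraicClosure K,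
      ev (C0 j0 * aeval C0 g0) w = ev (C0 j0) w * aeval (fun c => ev (C0 c) w) g0 := by
    intro w
    rw [← ev_aevalT]
    unfold ev
    rw [map_mul]
  have hMH0 : MH (fun j => X.d j + δ0 * X.d j) (C0 j0 * aeval C0 g0) :=
    MH_mul (X.Fam_hom C0 hC0 j0) (MH_aevalT hδ0 C0 (X.Fam_hom C0 hC0))
  have hne0 : ev (C0 j0 * aeval C0 g0) (crB x) ≠ 0 := by
    rw [hmul, hCs0, aeval_smul' hδ0]
    refine mul_ne_zero ?_ (mul_ne_zero (pow_ne_zero _ hs0) hg0')
    rw [congrFun hCs0 j0]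
    exact mul_ne_zero hs0 hj0
  choose ε 𝓤 V hε hBas hV hnear using fun i => placeV hy F hXF hB (MF hX hy ho F)
    (NF hX hy ho F) (NF_mem hX hy ho hB) ω (σ i) (hσ i) (hU i) (h0 i) (hc0 i) hMH0 hne0
  have hinf := small_inf hSml L σ hσ ε hε
  refine ⟨F, hF1, hF2, 𝓤, V, hB, hBas, hV, fun Q hQ => ?_⟩
  -- the translates by the norms, the traces and the elements of the twisted group
  have key0 : ∀ l, ∀ C ∈ X.Fam, ∀ xx : Fin s → Fin (Module.finrank K F) → K,
      (∀ j κ, xx j κ ∈ {z : K | ∀ i, ‖σ i z‖ < ε i}) → ∀ a : Tp s F,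
      (∀ j, (a j : F) = 1 + ∑ κ, xx j κ • ω κ) →
      ∀ bb : Fin k → Fin (Module.finrank K F) → K,
      (∀ j κ, bb j κ ∈ {z : K | ∀ i, ‖σ i z‖ < ε i}) →
      ∀ R : Pts A (AlgebraicClosure K), TwC S x R → (∀ i b, R b ∈ V i b) →
      ev (aeval C (homogeneousComponent l f)) (crV (A := A)
        (fun i => ((x.1 * nr F (MF hX hy ho F) a) i : AlgebraicClosure K))
        (x.2.1 + vr F (NF hX hy ho F) (fun l => ∑ κ, bb l κ • ω κ))
        (fun b => x.2.2 b + R b)) = 0 := by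
    intro l C hC xx hx a ha bb hbb R hRt hRV
    set v : TpB K s := nr F (MF hX hy ho F) a with hv
    set v' : Fin k → AlgebraicClosure K :=
      vr F (NF hX hy ho F) (fun l => ∑ κ, bb l κ • ω κ) with hv'
    have hn := fun i => hnear i xx (fun j κ => hx j κ i) a ha bb (fun j κ => hbb j κ i) R
      (hRV i)
    obtain ⟨i0⟩ := ‹Nonempty ι›
    have hn0 := (hn i0).1
    rw [hmul] at hn0
    have hoff : ∀ z, ImgV X.Fam (sh x v v' R) z → Off X.eqW z := by
      intro z hz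
      refine ⟨g0, hg0, fun h0 => right_ne_zero_of_mul hn0 ?_⟩
      obtain ⟨t, ht⟩ := hz.1 C0 hC0
      change aeval (fun c => ev (C0 c) (crB (sh x v v' R))) g0 = 0
      rw [ht, aeval_smul' hδ0, h0, mul_zero]
    obtain ⟨y', hy', hy'e, hy'v⟩ := ratV hX hy ho v v' R
      (fun φ g hg => nr_tw hX hy ho hB a φ hg)
      (fun φ g hg j => vr_tw hX hy ho hB _ φ hg j) hRt
      ⟨C0, hC0, j0, left_ne_zero_of_mul hn0⟩ hoff
    have hcU : ∀ i, ∃ c : L i, c ≠ 0 ∧ (fun j => c * σ i (y' j)) ∈ U i :=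
      fun i => (hn i).2 y' hy'v
    have h2 : eval y' (homogeneousComponent l f) = 0 :=
      hom_comp_zero (hf y' hy'.ne_zero hy'e (off_up.1 (hoff _ hy'v)) hcU) l
    obtain ⟨t, ht⟩ := hy'v.1 C hC
    change ev (aeval C (homogeneousComponent l f)) (crB (sh x v v' R)) = 0
    rw [ev_aevalT, ht, aeval_smul' (homogeneousComponent_isHomogeneous l f),
      (eval_up_iff y' _).2 h2, mul_zero]
  have key : ∀ l, ∀ C ∈ X.Fam, ∀ (v : TpB K s) (w : Fin k → AlgebraicClosure K),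
      ev (aeval C (homogeneousComponent l f))
        (crV (A := A) (fun i => (v i : AlgebraicClosure K)) w Q) = 0 := by
    intro l C hC v w
    have hMHk := MH_aevalT (homogeneousComponent_isHomogeneous l f) C (X.Fam_hom C hC)
    refine dense hDen ω (MF hX hy ho F) (MF_one hX hy ho hB) (NF hX hy ho F)
      (NF_one hX hy ho hB) hinf x _ Q (fun xx hx a ha bb hbb => ?_) v w
    exact hQ _ _ hMHk _ _ (fun R hRt hRV => key0 l C hC xx hx a ha bb hbb R hRt hRV)
  rintro v w z hz a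
  refine aeval_of_comp (fun l => ?_) a
  obtain ⟨C, hC, t, ht, hCt⟩ := ValT.exists_ne hz
  have h1 := key l C hC v w
  rw [ev_aevalT] at h1
  have h2 : (fun c => ev (C c) (crV (A := A) (fun i => (v i : AlgebraicClosure K)) w Q)) =
      t • z := hCt
  rw [h2, aeval_smul' (homogeneousComponent_isHomogeneous l f)] at h1
  exact (mul_eq_zero.1 h1).resolve_left (pow_ne_zero _ ht)

end twc

end Pool.Agent.K1H82.KV
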