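import Pool.Agent.K1H82.KU.Fin

/-!
# Quotients of products of torsors and an affine space: definitions
-/

set_option autoImplicit false

open MvPolynomial Pool.Agent.TH954.X Pool.Agent.K1H82.KM
open Pool.Agent.K1H82.KQ (PtB GalK cjg OnX sg EndOf)
open Pool.Agent.K1H82.KA (PtsB GActP)
open Pool.Agent.K1H82.KR (Off)
open Pool.Agent.K1H82.KT

namespace Pool.Agent.K1H82.KV

/-- the points over the algebraic closure of the product of a torus of dimension `s`, the affine
space of dimension `k` and the abelian varieties -/
abbrev PtV {K : Type} [Field K] {n r : ℕ} (s k : ℕ) (A : Fin r → AbVar K n) : Type :=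
  TpB K s × (Fin k → AlgebraicClosure K) × PtsB A

/-- the conjugate of a point of the product of the torsors and the affine space -/
noncomputable def tw {K : Type} [Field K] {n r s k : ℕ} {T : Torus K s} {A : Fin r → AbVar K n}
    (D : Tors T A) (σ : GalK K) (x : PtV s k A) : PtV s k A :=
  (twT D σ x.1, fun j => σ (x.2.1 j), twA D σ x.2.2)

/-- The group `G`, on which the Galois group acts by `γ`, acts on the torsor of the torus by the maps
`u ↦ mon (M_g) u · t_g`, compatibly. -/
structure ActT {K : Type} [Field K] {n r s : ℕ} {T : Torus K s} {A : Fin r → AbVar K n}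
    (D : Tors T A) (G : Type) [Group G] (γ : GalK K → G → G) where
  lin : G → Matrix (Fin s) (Fin s) ℤ
  lin_one : lin 1 = 1
  lin_mul : ∀ g h, lin (g * h) = lin g * lin h
  tr : G → TpB K s
  tr_mul : ∀ g h, tr (g * h) = mon (lin g) (tr h) * tr g
  gal_lin : ∀ σ g, lin (γ σ g) * T.ρ σ = T.ρ σ * lin g
  gal_tr : ∀ σ g, cjT T σ (tr g) * D.a σ = mon (lin (γ σ g)) (D.a σ) * tr (γ σ g)

/-- The group `G`, on which the Galois group acts by `γ`, acts on the affine space of dimension `k`
by the maps `w ↦ N_g w + t_g`, compatibly. -/
structure ActV (K : Type) [Field K] (k : ℕ) (G : Type) [Group G] (γ : GalK K → G → G) where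
  lin : G → Matrix (Fin k) (Fin k) (AlgebraicClosure K)
  lin_one : lin 1 = 1
  lin_mul : ∀ g h, lin (g * h) = lin g * lin h
  tr : G → Fin k → AlgebraicClosure K
  tr_mul : ∀ g h, tr (g * h) = (lin g).mulVec (tr h) + tr g
  gal_lin : ∀ σ g i j, lin (γ σ g) i j = σ (lin g i j)
  gal_tr : ∀ σ g j, tr (γ σ g) j = σ (tr g j)

/-- The group `H`, on which the Galois group acts by `γ`, acts on the torsors of the abelian varieties
by the maps `P ↦ α_g (P) + t_g`, compatibly. -/
structure ActA {K : Type} [Field K] {n r s : ℕ} {T : Torus K s} {A : Fin r → AbVar K n}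
    (D : Tors T A) (H : Type) [Group H] where
  act : GActP A H
  γ : GalK K → MulAut H
  gal_lin : ∀ σ h b P, cjg (A b) σ (act.lin h b P) = act.lin (γ σ h) b (cjg (A b) σ P)
  gal_tr : ∀ σ h b, cjg (A b) σ (act.tr h b) + D.c σ b =
    act.lin (γ σ h) b (D.c σ b) + act.tr (γ σ h) b

/-- The group `G` acts on the torsor of the torus and on the affine space, and through its quotient
`H` on the torsors of the abelian varieties, compatibly with the Galois group. -/
structure GActV {K : Type} [Field K] {n r s : ℕ} {T : Torus K s} {A : Fin r → AbVar K n}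
    (D : Tors T A) (k : ℕ) (G H : Type) [Group G] [Group H] where
  γ : GalK K → G → G
  tor : ActT D G γ
  vec : ActV K k G γ
  ab : ActA D H
  q : G → H
  q_mul : ∀ g h, q (g * h) = q g * q h
  gal_q : ∀ σ g, q (γ σ g) = ab.γ σ (q g)

/-- the action of `G` on the product -/
noncomputable def app {K : Type} [Field K] {n r s k : ℕ} {T : Torus K s} {A : Fin r → AbVar K n}
    {D : Tors T A} {G H : Type} [Group G] [Group H] (S : GActV D k G H) (g : G)
    (x : PtV s k A) : PtV s k A :=
  (mon (S.tor.lin g) x.1 * S.tor.tr g, (S.vec.lin g).mulVec x.2.1 + S.vec.tr g,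
    fun b => S.ab.act.lin (S.q g) b (x.2.2 b) + S.ab.act.tr (S.q g) b)

/-- the homogeneous coordinates of a point of the product -/
def crV {K : Type} [Field K] {n r s k : ℕ} {A : Fin r → AbVar K n} {F : Type} [Field F]
    [Algebra K F] (u : Fin s → F) (w : Fin k → F) (P : Pts A F) :
    (Fin s ⊕ Fin k) ⊕ Fin r → Fin n → F :=
  Sum.elim (fun i => tv n (Sum.elim u w i)) (fun b => (P b).1)

/-- the homogeneous coordinates of a point over the algebraic closure -/
noncomputable def crB {K : Type} [Field K] {n r s k : ℕ} {A : Fin r → AbVar K n}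
    (x : PtV s k A) : (Fin s ⊕ Fin k) ⊕ Fin r → Fin n → AlgebraicClosure K :=
  crV (A := A) (fun i => (x.1 i : AlgebraicClosure K)) x.2.1 x.2.2

/-- the finite sets of tuples of forms with coefficients in the finite extension `F` of `K` -/
abbrev FamV {K : Type} [Field K] (n r s k N : ℕ)
    (F : IntermediateField K (AlgebraicClosure K)) : Type :=
  Finset (Fin N → MvPolynomial (((Fin s ⊕ Fin k) ⊕ Fin r) × Fin n) F)

/-- the forms in `Fam` are multihomogeneous of degree `d` -/
def HomV {K : Type} [Field K] {n r s k N : ℕ} {F : IntermediateField K (AlgebraicClosure K)}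
    (Fam : FamV n r s k N F) (d : (Fin s ⊕ Fin k) ⊕ Fin r → ℕ) : Prop :=
  ∀ C ∈ Fam, ∀ c, MH d (C c)

/-- `z` are coordinates of the image of `x` -/
def ImgV {K : Type} [Field K] {n r s k N : ℕ} {A : Fin r → AbVar K n}
    {F : IntermediateField K (AlgebraicClosure K)} (Fam : FamV n r s k N F) (x : PtV s k A)
    (z : Fin N → AlgebraicClosure K) : Prop := ValT Fam (crB x) z

/-- some form in `Fam` does not vanish at `x` -/
def DefV {K : Type} [Field K] {n r s k N : ℕ} {A : Fin r → AbVar K n}
    {F : IntermediateField K (AlgebraicClosure K)} (Fam : FamV n r s k N F)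
    (x : PtV s k A) : Prop := NV Fam (crB x)

/-- A projective variety `X ⊆ ℙ ^ (N - 1)` over `K` (homogeneous equations `eqX`), a closed subset
`W` of it (homogeneous equations `eqW`) and a rational map from the product of the torsors and the
affine space to `X`, given by the tuples of multihomogeneous forms in `Fam` with coefficients in a
finite extension `F` of `K` (and defined where one of these forms is not zero), compatible with the
Galois action (so that it is defined over `K`), the image of which contains the complement of `W`. -/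
structure RMapV {K : Type} [Field K] {n r s : ℕ} {T : Torus K s} {A : Fin r → AbVar K n}
    (D : Tors T A) (k N : ℕ) where
  eqX : Set (MvPolynomial (Fin N) K)
  homX : ∀ g ∈ eqX, ∃ d, g.IsHomogeneous d
  eqW : Set (MvPolynomial (Fin N) K)
  homW : ∀ g ∈ eqW, ∃ d, g.IsHomogeneous d
  F : IntermediateField K (AlgebraicClosure K)
  fin : FiniteDimensional K F
  Fam : FamV n r s k N F
  d : (Fin s ⊕ Fin k) ⊕ Fin r → ℕ
  Fam_hom : HomV Fam d
  total : ∀ x : PtV s k A, DefV Fam x → ∃ z, OnX eqX z ∧ ImgV Fam x z
  surj : ∀ z, OnX eqX z → Off eqW z → ∃ x : PtV s k A, ImgV Fam x z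
  gal : ∀ (σ : GalK K) (x : PtV s k A) (z : Fin N → AlgebraicClosure K),
    ImgV Fam x z → ImgV Fam (tw D σ x) (fun c => σ (z c))

/-- The fibres of the rational map over the points over the algebraic closure outside `W` are the
orbits of `G`, and the stabilisers of the points in these fibres act on the torsor of the torus and
on the affine space by translations (for instance, they are trivial). -/
def IsQuotV {K : Type} [Field K] {n r s k N : ℕ} {T : Torus K s} {A : Fin r → AbVar K n}
    {D : Tors T A} {G H : Type} [Group G] [Group H] (X : RMapV D k N)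
    (S : GActV D k G H) : Prop :=
  ∀ (x : PtV s k A) (z : Fin N → AlgebraicClosure K), ImgV X.Fam x z → Off X.eqW z →
    (∀ x' : PtV s k A, ImgV X.Fam x' z ↔ ∃ g : G, x' = app S g x) ∧
    ∀ g : G, app S g x = x → S.tor.lin g = 1 ∧ S.vec.lin g = 1

/-- The complement of a closed subset in a projective variety in `ℙ ^ (N - 1)` which is the quotient
of an open subset of the product of a torsor of a torus, an affine space and torsors of
geometrically simple abelian varieties over `K` by a group, which acts on the abelian varieties
through a finite quotient. -/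
structure PieceV (K : Type) [Field K] (N : ℕ) where
  s : ℕ
  T : Torus K s
  k : ℕ
  n : ℕ
  r : ℕ
  A : Fin r → AbVar K n
  simple : ∀ b, GeomSimple (A b)
  D : Tors T A
  G : Type
  [grpG : Group G]
  H : Type
  [grpH : Group H]
  [finH : Finite H]
  S : GActV D k G H
  X : RMapV D k N
  quot : IsQuotV X S

attribute [instance] PieceV.grpG PieceV.grpH PieceV.finH

/-- The group acts on the torsor of the abelian variety through maps `P ↦ α_g (P) + t_g` with
elements `α_g` of the endomorphism ring. -/
structure LinA {K : Type} [Field K] {n s : ℕ} {A : AbVar K n} (E : EndOf A) {T : Torus K s}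
    {D : Tors T (fun _ : Fin 1 => A)} {H : Type} [Group H] (B : ActA D H) where
  lin : H → E.B.Rt
  lin_one : lin 1 = 1
  lin_mul : ∀ g h, lin (g * h) = lin g * lin h
  lin_act : ∀ g P, B.act.lin g 0 P = E.on.act (lin g) P
  gal_lin : ∀ σ g, E.B.co (lin (B.γ σ g)) = E.on.gal σ (E.B.co (lin g))

/-- The complement of a closed subset in a projective variety in `ℙ ^ (N - 1)` which is the quotient
of an open subset of the product of a torsor of a torus, an affine space and a torsor of an abelian
variety over `K` by a group, which acts on the abelian variety through a finite quotient. -/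
structure PieceW (K : Type) [Field K] (N : ℕ) where
  s : ℕ
  T : Torus K s
  k : ℕ
  n : ℕ
  A : AbVar K n
  E : EndOf A
  D : Tors T (fun _ : Fin 1 => A)
  G : Type
  [grpG : Group G]
  H : Type
  [grpH : Group H]
  [finH : Finite H]
  S : GActV D k G H
  lin : LinA E S.ab
  X : RMapV D k N
  quot : IsQuotV X S

attribute [instance] PieceW.grpG PieceW.grpH PieceW.finH

end Pool.Agent.K1H82.KV
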