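import Pool.Agent.K1H82.KV.Nrm
import Pool.Agent.K1H82.KT.Loc
import Pool.Agent.K1H26.KT.Den

/-!
# Zariski density of norms and traces
-/

set_option autoImplicit false
set_option linter.unusedSectionVars false

open MvPolynomial Pool.Agent.TH954.X Pool.Agent.K1H82.KM
open Pool.Agent.K1H82.KQ (PtB GalK cjg OnX sg)
open Pool.Agent.K1H82.KA (PtsB GActP closure_trans2)
open Pool.Agent.K1H82.KR (Off)
open Pool.Agent.K1H82.KT hiding Mf Mf_eq Mf_mul Mf_one Mf_congr MF MF_rs MF_one nr nr_fix nr_val
  conj_ex Big big_exists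

namespace Pool.Agent.K1H82.KV

/-- traces are Zariski dense -/
theorem den_add {K F Ω : Type} [Field K] [Field F] [Field Ω] [Algebra K F] [FiniteDimensional K F]
    [Algebra K Ω] [Algebra F Ω] [IsScalarTower K F Ω] {k m : ℕ} (ω : Module.Basis (Fin m) K F)
    (M : (F ≃ₐ[K] F) → Matrix (Fin k) (Fin k) Ω) (hM : M 1 = 1) {B : Set K} (hB : B.Infinite)
    (w : Fin k → Ω) (h : MvPolynomial (Fin k) Ω)
    (hv : ∀ b : Fin k → Fin m → K, (∀ l κ, b l κ ∈ B) →
      eval (fun j => w j + ∑ τ : F ≃ₐ[K] F, ∑ l, M τ j l *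
        algebraMap F Ω (τ (∑ κ, b l κ • ω κ))) h = 0) (v : Fin k → Ω) : eval v h = 0 := by
  classical
  obtain ⟨Q, hQ⟩ : ∃ Q : MvPolynomial (Fin k × Fin m) Ω, ∀ y, eval y Q =
      eval (fun j => w j + ∑ τ : F ≃ₐ[K] F, ∑ l, M τ j l *
        ∑ κ, algebraMap F Ω (τ (ω κ)) * y (l, κ)) h := by
    refine ⟨bind₁ (fun j => C (w j) + ∑ τ : F ≃ₐ[K] F, ∑ l, C (M τ j l) *
      ∑ κ, C (algebraMap F Ω (τ (ω κ))) * X (l, κ)) h, fun y => ?_⟩
    rw [← coe_aeval_eq_eval, RingHom.coe_coe, aeval_bind₁, ← coe_aeval_eq_eval, RingHom.coe_coe]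
    congr 2
    ext j
    simp
  have hQ0 : Q = 0 := by
    refine MvPolynomial.funext_set (fun _ => algebraMap K Ω '' B) (fun _ =>
      hB.image (algebraMap K Ω).injective.injOn) fun y hy => ?_
    rw [map_zero, hQ]
    have hy' : ∀ q, ∃ b ∈ B, algebraMap K Ω b = y q := fun q => hy q (Set.mem_univ q)
    choose x hx hxy using hy'
    rw [← hv (fun l κ => x (l, κ)) (fun l κ => hx _)]
    congr 2
    ext j
    congr 1
    refine Finset.sum_congr rfl fun τ _ => Finset.sum_congr rfl fun l _ => ?_
    congr 1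
    rw [map_sum, map_sum]
    refine Finset.sum_congr rfl fun κ _ => ?_
    rw [map_smul, Algebra.smul_def, map_mul, ← IsScalarTower.algebraMap_apply, hxy, mul_comm]
  choose x hx using fun l : Fin k => K1H26.KT.surj (Ω := Ω) ω
    (fun τ => if τ = 1 then v l - w l else 0)
  have h1 := hQ (fun q => x q.1 q.2)
  rw [hQ0, map_zero] at h1
  refine Eq.trans ?_ h1.symm
  congr 2
  ext j
  simp only [hx]
  rw [Finset.sum_eq_single 1]
  · rw [hM, Finset.sum_eq_single j]
    · rw [if_pos rfl, Matrix.one_apply_eq]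
      ring
    · intro l _ hl
      rw [Matrix.one_apply_ne hl.symm, zero_mul]
    · intro hj
      exact absurd (Finset.mem_univ _) hj
  · intro τ _ hτ
    refine Finset.sum_eq_zero fun l _ => ?_
    rw [if_neg hτ, mul_zero]
  · intro hj
    exact absurd (Finset.mem_univ _) hj

section gsp

variable {K : Type} [Field K] {n r s k : ℕ} {A : Fin r → AbVar K n}

/-- substitution in the coordinates of the torus and of the affine space -/
noncomputable def gsp {K1 : Type} [Field K1] [Algebra K1 (AlgebraicClosure K)] {ι : Type}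
    (Φ : MvPolynomial (((Fin s ⊕ Fin k) ⊕ Fin r) × Fin n) K1) (Q : Pts A (AlgebraicClosure K))
    (q : Fin s ⊕ Fin k → MvPolynomial ι (AlgebraicClosure K)) :
    MvPolynomial ι (AlgebraicClosure K) :=
  aeval (fun p : ((Fin s ⊕ Fin k) ⊕ Fin r) × Fin n => Sum.elim
    (fun i : Fin s ⊕ Fin k => (if p.2.1 = 0 then 1 else if p.2.1 = 1 then q i else 0 :
      MvPolynomial ι (AlgebraicClosure K))) (fun b => C ((Q b).1 p.2)) p.1) Φ

lemma gsp_eval {K1 : Type} [Field K1] [Algebra K1 (AlgebraicClosure K)] {ι : Type}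
    (Φ : MvPolynomial (((Fin s ⊕ Fin k) ⊕ Fin r) × Fin n) K1) (Q : Pts A (AlgebraicClosure K))
    (q : Fin s ⊕ Fin k → MvPolynomial ι (AlgebraicClosure K))
    (z : ι → AlgebraicClosure K) (u : Fin s → AlgebraicClosure K)
    (w : Fin k → AlgebraicClosure K) (h : ∀ i, eval z (q i) = Sum.elim u w i) :
    eval z (gsp Φ Q q) = ev Φ (crV (A := A) u w Q) := by
  unfold gsp ev
  have h1 := MvPolynomial.comp_aeval_apply
    (f := fun p : ((Fin s ⊕ Fin k) ⊕ Fin r) × Fin n => Sum.elim
    (fun i : Fin s ⊕ Fin k => (if p.2.1 = 0 then 1 else if p.2.1 = 1 then q i else 0 :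
      MvPolynomial ι (AlgebraicClosure K))) (fun b => C ((Q b).1 p.2)) p.1)
    ((aeval z : MvPolynomial ι (AlgebraicClosure K) →ₐ[AlgebraicClosure K]
      AlgebraicClosure K).restrictScalars K1) Φ
  have h0 : ∀ p : MvPolynomial ι (AlgebraicClosure K), eval z p = aeval z p := fun p => by
    rw [aeval_eq_eval]
  rw [h0]
  refine (h1.trans ?_)
  congr 1
  congr 1
  funext p
  obtain ⟨j, c⟩ := p
  rcases j with i | b
  · change aeval z (if c.1 = 0 then 1 else if c.1 = 1 then q i else 0 :
      MvPolynomial ι (AlgebraicClosure K)) =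
        if c.1 = 0 then 1 else if c.1 = 1 then Sum.elim u w i else 0
    split_ifs
    · rw [map_one]
    · rw [← h0, h]
    · rw [map_zero]
  · change aeval z (C ((Q b).1 c)) = (Q b).1 c
    rw [aeval_C]
    rfl

variable [CharZero K]

/-- norms and traces are Zariski dense -/
theorem dense (hDen : S_DEN) {F : IntermediateField K (AlgebraicClosure K)}
    [FiniteDimensional K F] [Normal K F] {m : ℕ} (ω : Module.Basis (Fin m) K F)
    (M : (F ≃ₐ[K] F) → Matrix (Fin s) (Fin s) ℤ) (hM : M 1 = 1)
    (Nm : (F ≃ₐ[K] F) → Matrix (Fin k) (Fin k) (AlgebraicClosure K)) (hN : Nm 1 = 1)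
    {B : Set K} (hB : B.Infinite) (x : PtV s k A) {K1 : Type} [Field K1]
    [Algebra K1 (AlgebraicClosure K)]
    (Φ : MvPolynomial (((Fin s ⊕ Fin k) ⊕ Fin r) × Fin n) K1) (Q : Pts A (AlgebraicClosure K))
    (h : ∀ xx : Fin s → Fin m → K, (∀ j κ, xx j κ ∈ B) → ∀ a : Tp s F,
      (∀ j, (a j : F) = 1 + ∑ κ, xx j κ • ω κ) → ∀ bb : Fin k → Fin m → K,
      (∀ l κ, bb l κ ∈ B) → ev Φ (crV (A := A)
        (fun i => ((x.1 * nr F M a) i : AlgebraicClosure K))
        (x.2.1 + vr F Nm (fun l => ∑ κ, bb l κ • ω κ)) Q) = 0)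
    (v : TpB K s) (w : Fin k → AlgebraicClosure K) :
    ev Φ (crV (A := A) (fun i => (v i : AlgebraicClosure K)) w Q) = 0 := by
  have h2 := hDen K F (AlgebraicClosure K) s m ω M hM B hB
    (fun i => (x.1 i : AlgebraicClosure K))
    (gsp (A := A) Φ Q (Sum.elim MvPolynomial.X (fun j => C (w j))))
    (fun xx hx hxne => ?_) (fun j => (x.1 j : AlgebraicClosure K)⁻¹ * v j)
    (fun j => mul_ne_zero (inv_ne_zero (x.1 j).ne_zero) (v j).ne_zero)
  · rw [gsp_eval Φ Q _ _ (fun i => (v i : AlgebraicClosure K)) w (fun i => ?_)] at h2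
    · exact h2
    · rcases i with i | j
      · change eval _ (MvPolynomial.X i) = (v i : AlgebraicClosure K)
        rw [eval_X, mul_inv_cancel_left₀ (x.1 i).ne_zero]
      · change eval _ (C (w j)) = w j
        rw [eval_C]
  · set a : Tp s F := fun j => Units.mk0 _ (hxne j) with ha
    rw [gsp_eval Φ Q _ _ (fun i => ((x.1 * nr F M a) i : AlgebraicClosure K)) w (fun i => ?_)]
    · have h3 := den_add (Ω := AlgebraicClosure K) ω Nm hN hB x.2.1
        (gsp (A := A) Φ Q (Sum.elim (fun i => C ((x.1 * nr F M a) i : AlgebraicClosure K))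
          MvPolynomial.X)) (fun bb hbb => ?_) w
      · rw [gsp_eval Φ Q _ _ (fun i => ((x.1 * nr F M a) i : AlgebraicClosure K)) w
          (fun i => ?_)] at h3
        · exact h3
        · rcases i with i | j
          · change eval _ (C _) = _
            rw [eval_C]
            rfl
          · change eval _ (MvPolynomial.X j) = _
            rw [eval_X]
            rfl
      · rw [gsp_eval Φ Q _ _ (fun i => ((x.1 * nr F M a) i : AlgebraicClosure K))
          (x.2.1 + vr F Nm (fun l => ∑ κ, bb l κ • ω κ)) (fun i => ?_)]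
        · exact h xx hx a (fun j => rfl) bb hbb
        · rcases i with i | j
          · change eval _ (C _) = _
            rw [eval_C]
            rfl
          · change eval _ (MvPolynomial.X j) = _
            rw [eval_X]
            rfl
    · rcases i with i | j
      · change eval _ (MvPolynomial.X i) = ((x.1 * nr F M a) i : AlgebraicClosure K)
        rw [eval_X]
        change _ = (x.1 i : AlgebraicClosure K) * ((nr F M a i : (AlgebraicClosure K)ˣ) :
          AlgebraicClosure K)
        rw [nr_val]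
        rfl
      · change eval _ (C (w j)) = w j
        rw [eval_C]

end gsp

section multi

variable {K : Type} [Field K] {n r s k : ℕ} {A : Fin r → AbVar K n}

theorem multiV (hA : ∀ b, GeomSimple (A b)) (P R : Pts A (AlgebraicClosure K))
    (𝓤 : Fin r → Set (Set ℤ)) (h𝓤 : ∀ b, IsBas (𝓤 b)) (U : Fin r → Set ℤ) (hU : ∀ b, U b ∈ 𝓤 b)
    {K1 : Type} [Field K1] [Algebra K1 (AlgebraicClosure K)]
    {Φ : MvPolynomial (((Fin s ⊕ Fin k) ⊕ Fin r) × Fin n) K1}
    {τ : (Fin s ⊕ Fin k) ⊕ Fin r → ℕ} (hΦ : MH τ Φ)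
    (w : Fin s → AlgebraicClosure K) (w2 : Fin k → AlgebraicClosure K)
    (h : ∀ m : Fin r → ℤ, (∀ b, m b ∈ U b) →
      ev Φ (crV (A := A) w w2 (fun b => P b + m b • R b)) = 0)
    (Q : Pts A (AlgebraicClosure K)) (hQ : ∀ b, b ∉ NT R → Q b = P b) :
    ev Φ (crV (A := A) w w2 Q) = 0 := by
  classical
  have key : ∀ S : Finset (Fin r), (∀ b ∈ S, b ∈ NT R) → ∀ Q : Pts A (AlgebraicClosure K),
      (∀ b, b ∉ S → ∃ m ∈ U b, Q b = P b + m • R b) → ev Φ (crV (A := A) w w2 Q) = 0 := by
    intro S
    induction S using Finset.induction_on with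
    | empty =>
      intro _ Q hQ
      choose m hm hm' using fun b => hQ b (Finset.notMem_empty b)
      have : Q = fun b => P b + m b • R b := funext hm'
      rw [this]
      exact h m hm
    | insert b0 S hb0 ih =>
      intro hS Q hQ
      have h5 : ∀ Q0 : (A b0).Pt (AlgebraicClosure K),
          crV (A := A) w w2 (Function.update Q b0 Q0) =
            fun j => if j = Sum.inr b0 then Q0.1 else crV (A := A) w w2 Q j := by
        intro Q0
        funext j
        rcases j with i | b
        · rw [if_neg (by simp)]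
          rfl
        · by_cases hb : b = b0
          · subst hb
            rw [if_pos rfl]
            change (Function.update Q b Q0 b).1 = _
            rw [Function.update_self]
          · rw [if_neg (by simpa using hb)]
            change (Function.update Q b0 Q0 b).1 = _
            rw [Function.update_of_ne hb]
            rfl
      have h1 : eval (Q b0).1 (spec (Sum.inr b0) (crV (A := A) w w2 Q) Φ) = 0 := by
        refine closure_trans2 (hA b0) (P b0) (R b0) (hS b0 (Finset.mem_insert_self _ _))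
          (h𝓤 b0) (hU b0) (spec_hom (Sum.inr b0) _ hΦ) (fun m hm => ?_) (Q b0)
        rw [spec_eval]
        have h2 := ih (fun b hb => hS b (Finset.mem_insert_of_mem hb))
          (Function.update Q b0 (P b0 + m • R b0)) (fun b hb => ?_)
        · rw [h5] at h2
          exact h2
        · by_cases hbb : b = b0
          · subst hbb
            exact ⟨m, hm, by rw [Function.update_self]⟩
          · obtain ⟨m', hm', hm2⟩ := hQ b (by
              rw [Finset.mem_insert, not_or]
              exact ⟨hbb, hb⟩)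
            exact ⟨m', hm', by rw [Function.update_of_ne hbb]; exact hm2⟩
      rw [spec_eval, ← h5, Function.update_eq_self] at h1
      exact h1
  refine key (Finset.univ.filter (· ∈ NT R)) (fun b hb => (Finset.mem_filter.1 hb).2) Q
    (fun b hb => ⟨0, (h𝓤 b).zero _ (hU b), ?_⟩)
  rw [zero_smul, add_zero]
  refine hQ b (fun hb' => hb ?_)
  rw [Finset.mem_filter]
  exact ⟨Finset.mem_univ _, hb'⟩

end multi

end Pool.Agent.K1H82.KV
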