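import Mathlib

/-!
# Signs and binary codes
-/

set_option autoImplicit false
set_option linter.unusedSectionVars false

namespace Pool.Agent.K1H82.KV

/-- the sign of an element of `ℤ / 2` -/
def sgn (a : ZMod 2) : ℤ := if a = 0 then 1 else -1

lemma sgn_add : ∀ a b : ZMod 2, sgn (a + b) = sgn a * sgn b := by decide

lemma zmod2_ne : ∀ a : ZMod 2, a ≠ 0 → a = 1 := by decide

lemma sgn_zero : sgn 0 = 1 := by decide

lemma sgn_one : sgn 1 = -1 := by decide

lemma sgn_sum {ι : Type} (s : Finset ι) (f : ι → ZMod 2) :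
    sgn (∑ i ∈ s, f i) = ∏ i ∈ s, sgn (f i) := by
  classical
  induction s using Finset.induction_on with
  | empty => exact sgn_zero
  | insert i s hi ih => rw [Finset.sum_insert hi, Finset.prod_insert hi, sgn_add, ih]

/-- the product of the `y i` with `I i ≠ 0` -/
def mo {Ω : Type} [CommMonoid Ω] {r : ℕ} (I : Fin r → ZMod 2) (y : Fin r → Ω) : Ω :=
  ∏ i, if I i = 0 then 1 else y i

/-- the product of the `f i` with `I i ≠ 0` and `J i ≠ 0` -/
def m2 {Ω : Type} [CommMonoid Ω] {r : ℕ} (I J : Fin r → ZMod 2) (f : Fin r → Ω) : Ω :=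
  ∏ i, if I i = 0 ∨ J i = 0 then 1 else f i

lemma m2_mul {Ω : Type} [CommMonoid Ω] {r : ℕ} (I J : Fin r → ZMod 2) (f g : Fin r → Ω) :
    m2 I J (fun i => f i * g i) = m2 I J f * m2 I J g := by
  unfold m2
  rw [← Finset.prod_mul_distrib]
  refine Finset.prod_congr rfl (fun i _ => ?_)
  split_ifs
  · rw [one_mul]
  · rfl

section fld

variable {Ω : Type} [Field Ω] {r : ℕ}

lemma sgn_inj (h2 : (2 : Ω) ≠ 0) {a b : ZMod 2} (h : ((sgn a : ℤ) : Ω) = ((sgn b : ℤ) : Ω)) :
    a = b := by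
  by_cases ha : a = 0
  · by_cases hb : b = 0
    · rw [ha, hb]
    · rw [ha, zmod2_ne b hb, sgn_zero, sgn_one] at h
      exfalso
      apply h2
      push_cast at h
      linear_combination h
  · by_cases hb : b = 0
    · rw [hb, zmod2_ne a ha, sgn_zero, sgn_one] at h
      exfalso
      apply h2
      push_cast at h
      linear_combination -h
    · rw [zmod2_ne a ha, zmod2_ne b hb]

lemma sgn_sq (a : ZMod 2) : ((sgn a : ℤ) : Ω) * ((sgn a : ℤ) : Ω) = 1 := by
  by_cases ha : a = 0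
  · rw [ha, sgn_zero]
    simp
  · rw [zmod2_ne a ha, sgn_one]
    simp

lemma exists_sgn {u v : Ω} (h : u ^ 2 = v ^ 2) : ∃ a : ZMod 2, u = ((sgn a : ℤ) : Ω) * v := by
  rcases sq_eq_sq_iff_eq_or_eq_neg.1 h with h | h
  · exact ⟨0, by rw [sgn_zero]; simp [h]⟩
  · exact ⟨1, by rw [sgn_one]; simp [h]⟩

lemma mo_sgn (I c : Fin r → ZMod 2) (y : Fin r → Ω) :
    mo I (fun i => ((sgn (c i) : ℤ) : Ω) * y i) =
      ((sgn (∑ i, I i * c i) : ℤ) : Ω) * mo I y := by
  unfold mo
  rw [sgn_sum, Int.cast_prod, ← Finset.prod_mul_distrib]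
  refine Finset.prod_congr rfl (fun i _ => ?_)
  by_cases hi : I i = 0
  · rw [if_pos hi, if_pos hi, hi, zero_mul, sgn_zero, Int.cast_one, one_mul]
  · rw [if_neg hi, if_neg hi, zmod2_ne _ hi, one_mul]

lemma mo_mul (I J : Fin r → ZMod 2) (y : Fin r → Ω) :
    mo I y * mo J y = mo (I + J) y * m2 I J (fun i => y i ^ 2) := by
  unfold mo m2
  rw [← Finset.prod_mul_distrib, ← Finset.prod_mul_distrib]
  refine Finset.prod_congr rfl (fun i _ => ?_)
  rw [Pi.add_apply]
  by_cases hi : I i = 0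
  · rw [if_pos hi, if_pos (Or.inl hi), hi, zero_add, one_mul, mul_one]
  · by_cases hj : J i = 0
    · rw [if_pos hj, if_pos (Or.inr hj), hj, add_zero]
    · rw [if_neg hi, if_neg hj, if_neg (not_or.2 ⟨hi, hj⟩), zmod2_ne _ hi, zmod2_ne _ hj]
      have : (1 : ZMod 2) + 1 = 0 := by decide
      rw [if_pos this]
      ring

lemma mo_sq (I : Fin r → ZMod 2) (y : Fin r → Ω) :
    m2 I I (fun i => y i ^ 2) = mo I y ^ 2 := by
  unfold mo m2
  rw [← Finset.prod_pow]
  refine Finset.prod_congr rfl (fun i _ => ?_)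
  by_cases hi : I i = 0
  · rw [if_pos hi, if_pos (Or.inl hi), one_pow]
  · rw [if_neg hi, if_neg (not_or.2 ⟨hi, hi⟩)]

lemma mo_ne {I : Fin r → ZMod 2} {y : Fin r → Ω} : mo I y ≠ 0 ↔ ∀ i, I i ≠ 0 → y i ≠ 0 := by
  unfold mo
  rw [Finset.prod_ne_zero_iff]
  constructor
  · intro h i hi
    have := h i (Finset.mem_univ i)
    rwa [if_neg hi] at this
  · intro h i _
    by_cases hi : I i = 0
    · rw [if_pos hi]
      exact one_ne_zero
    · rw [if_neg hi]
      exact h i hi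

lemma m2_ne {I J : Fin r → ZMod 2} {f : Fin r → Ω} (h : ∀ i, I i ≠ 0 → f i ≠ 0) :
    m2 I J f ≠ 0 := by
  unfold m2
  rw [Finset.prod_ne_zero_iff]
  intro i _
  by_cases hi : I i = 0 ∨ J i = 0
  · rw [if_pos hi]
    exact one_ne_zero
  · rw [if_neg hi]
    exact h i (not_or.1 hi).1

end fld

/-- functionals factor through linear maps -/
lemma factor {k V1 V2 : Type} [Field k] [AddCommGroup V1] [Module k V1] [AddCommGroup V2]
    [Module k V2] (ρ : V1 →ₗ[k] V2) (ψ : V1 →ₗ[k] k) (h : ∀ x, ρ x = 0 → ψ x = 0) :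
    ∃ φ : V2 →ₗ[k] k, ∀ x, φ (ρ x) = ψ x := by
  have hk : LinearMap.ker ρ ≤ LinearMap.ker ψ := fun x hx => h x hx
  obtain ⟨g, hg⟩ := LinearMap.exists_extend
    (((LinearMap.ker ρ).liftQ ψ hk) ∘ₗ (ρ.quotKerEquivRange.symm : LinearMap.range ρ →ₗ[k] _))
  refine ⟨g, fun x => ?_⟩
  have h1 := LinearMap.congr_fun hg ⟨ρ x, x, rfl⟩
  change g (ρ x) = (LinearMap.ker ρ).liftQ ψ hk (ρ.quotKerEquivRange.symm ⟨ρ x, x, rfl⟩) at h1
  have h2 : ρ.quotKerEquivRange.symm ⟨ρ x, x, rfl⟩ = (LinearMap.ker ρ).mkQ x := by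
    rw [LinearEquiv.symm_apply_eq]
    rfl
  rw [h1, h2]
  rfl

section cod

variable {Ω : Type} [Field Ω] {r : ℕ} (C : Submodule (ZMod 2) (Fin r → ZMod 2))

lemma fun_sum (φ : (Fin r → ZMod 2) →ₗ[ZMod 2] ZMod 2) (I : Fin r → ZMod 2) :
    φ I = ∑ i, I i * φ (Pi.single i 1) := by
  rw [LinearMap.pi_apply_eq_sum_univ φ I]
  refine Finset.sum_congr rfl (fun i _ => ?_)
  rw [smul_eq_mul]
  congr 2
  funext j
  simp [Pi.single_apply, eq_comm]

/-- square roots with prescribed products -/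
theorem code_surj (h2 : (2 : Ω) ≠ 0) (y : Fin r → Ω) (z : C → Ω) (hz0 : z 0 = 1)
    (hz : ∀ I J : C, z I * z J = z (I + J) * m2 I.1 J.1 (fun i => y i ^ 2)) :
    ∃ y' : Fin r → Ω, (∀ i, y' i ^ 2 = y i ^ 2) ∧ ∀ I : C, mo I.1 y' = z I := by
  classical
  have hself : ∀ I : C, I + I = 0 := by
    intro I
    apply Subtype.ext
    funext i
    change I.1 i + I.1 i = 0
    have : ∀ a : ZMod 2, a + a = 0 := by decide
    exact this _
  have hsq : ∀ I : C, z I ^ 2 = mo I.1 y ^ 2 := by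
    intro I
    rw [sq, hz, hself, hz0, one_mul, mo_sq]
  choose η hη using fun I => exists_sgn (hsq I)
  set p : Submodule (ZMod 2) C := {
    carrier := {I | ∀ i, I.1 i ≠ 0 → y i ≠ 0}
    zero_mem' := fun i hi => absurd rfl hi
    add_mem' := by
      intro I J hI hJ i hi
      by_cases h : I.1 i = 0
      · refine hJ i (fun h' => hi ?_)
        change I.1 i + J.1 i = 0
        rw [h, h', add_zero]
      · exact hI i h
    smul_mem' := by
      intro c I hI i hi
      refine hI i (fun h => hi ?_)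
      change c * I.1 i = 0
      rw [h, mul_zero] } with hp
  have hadd : ∀ I J : p, η (I + J).1 = η I.1 + η J.1 := by
    intro I J
    apply sgn_inj h2
    have h1 := hz I.1 J.1
    rw [hη I.1, hη J.1, hη (I.1 + J.1)] at h1
    have h3 : mo (I.1 + J.1).1 y ≠ 0 := mo_ne.2 (I + J).2
    have h4 : m2 I.1.1 J.1.1 (fun i => y i ^ 2) ≠ 0 :=
      m2_ne (fun i hi => pow_ne_zero _ (I.2 i hi))
    have h5 := mo_mul I.1.1 J.1.1 y
    have h6 : (((sgn (η (I + J).1) : ℤ) : Ω) - ((sgn (η I.1 + η J.1) : ℤ) : Ω)) *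
        (mo (I.1 + J.1).1 y * m2 I.1.1 J.1.1 (fun i => y i ^ 2)) = 0 := by
      rw [sgn_add, Int.cast_mul]
      change (((sgn (η (I.1 + J.1)) : ℤ) : Ω) - _) * (mo (I.1.1 + J.1.1) y * _) = 0
      change _ = ((sgn (η (I.1 + J.1)) : ℤ) : Ω) * mo (I.1.1 + J.1.1) y * _ at h1
      linear_combination -h1 + ((sgn (η I.1) : ℤ) : Ω) * ((sgn (η J.1) : ℤ) : Ω) * h5
    exact sub_eq_zero.1 ((mul_eq_zero.1 h6).resolve_right (mul_ne_zero h3 h4))
  obtain ⟨φ, hφ⟩ := factor (C.subtype ∘ₗ p.subtype)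
    ((AddMonoidHom.mk' (fun I : p => η I.1) hadd).toZModLinearMap 2) (fun I hI => by
      have : I = 0 := by
        apply Subtype.ext
        apply Subtype.ext
        exact hI
      rw [this, map_zero])
  refine ⟨fun i => ((sgn (φ (Pi.single i 1)) : ℤ) : Ω) * y i, fun i => ?_, fun I => ?_⟩
  · rw [mul_pow, sq ((sgn (φ (Pi.single i 1)) : ℤ) : Ω), sgn_sq, one_mul]
  · rw [mo_sgn, ← fun_sum]
    by_cases hI : ∀ i, I.1 i ≠ 0 → y i ≠ 0
    · have h1 := hφ ⟨I, hI⟩
      change φ I.1 = η I at h1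
      rw [h1, ← hη]
    · have h1 : mo I.1 y = 0 := by
        by_contra h
        exact hI (mo_ne.1 h)
      rw [hη I, h1, mul_zero, mul_zero]

/-- square roots with the same products differ by signs -/
theorem code_orb (h2 : (2 : Ω) ≠ 0) (y y' : Fin r → Ω) (hy : ∀ i, y' i ^ 2 = y i ^ 2)
    (h : ∀ I : C, mo I.1 y' = mo I.1 y) : ∃ c : Fin r → ZMod 2,
      (∀ I ∈ C, ∑ i, I i * c i = 0) ∧ ∀ i, y' i = ((sgn (c i) : ℤ) : Ω) * y i := by
  classical
  choose c0 hc0 using fun i => exists_sgn (hy i)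
  have hy' : y' = fun i => ((sgn (c0 i) : ℤ) : Ω) * y i := funext hc0
  -- the two linear maps
  set ρ : C →ₗ[ZMod 2] (Fin r → ZMod 2) := {
    toFun := fun I i => if y i = 0 then I.1 i else 0
    map_add' := by
      intro I J
      funext i
      change (if y i = 0 then I.1 i + J.1 i else 0) =
        (if y i = 0 then I.1 i else 0) + if y i = 0 then J.1 i else 0
      split_ifs
      · rfl
      · rw [add_zero]
    map_smul' := by
      intro c I
      funext i
      change (if y i = 0 then c * I.1 i else 0) = c * if y i = 0 then I.1 i else 0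
      split_ifs
      · rfl
      · rw [mul_zero] } with hρ
  set ψ : C →ₗ[ZMod 2] ZMod 2 := {
    toFun := fun I => ∑ i, I.1 i * c0 i
    map_add' := by
      intro I J
      rw [← Finset.sum_add_distrib]
      exact Finset.sum_congr rfl (fun i _ => add_mul _ _ _)
    map_smul' := by
      intro c I
      rw [RingHom.id_apply, smul_eq_mul, Finset.mul_sum]
      exact Finset.sum_congr rfl (fun i _ => mul_assoc _ _ _) } with hψ
  obtain ⟨φ, hφ⟩ := factor ρ ψ (fun I hI => by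
    have h1 : mo I.1 y ≠ 0 := by
      rw [mo_ne]
      intro i hi hyi
      apply hi
      have h3 := congrFun hI i
      change (if y i = 0 then I.1 i else 0) = 0 at h3
      rwa [if_pos hyi] at h3
    have h3 := h I
    rw [hy', mo_sgn] at h3
    have h4 : ((sgn (∑ i, I.1 i * c0 i) : ℤ) : Ω) = ((sgn 0 : ℤ) : Ω) := by
      rw [sgn_zero, Int.cast_one]
      exact (mul_eq_right₀ h1).1 h3
    exact sgn_inj h2 h4)
  refine ⟨fun i => if y i = 0 then c0 i + φ (Pi.single i 1) else c0 i, fun I hI => ?_,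
    fun i => ?_⟩
  · have h1 := hφ ⟨I, hI⟩
    rw [fun_sum] at h1
    change ∑ i, (if y i = 0 then I i else 0) * φ (Pi.single i 1) = ∑ i, I i * c0 i at h1
    have h3 : ∀ i, I i * (if y i = 0 then c0 i + φ (Pi.single i 1) else c0 i) =
        I i * c0 i + (if y i = 0 then I i else 0) * φ (Pi.single i 1) := by
      intro i
      split_ifs
      · rw [mul_add]
      · rw [zero_mul, add_zero]
    simp_rw [h3]
    rw [Finset.sum_add_distrib, h1]
    have : ∀ a : ZMod 2, a + a = 0 := by decide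
    exact this _
  · by_cases hyi : y i = 0
    · rw [hc0 i, hyi, mul_zero, mul_zero]
    · simp only [if_neg hyi]
      exact hc0 i

end cod

end Pool.Agent.K1H82.KV
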