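import Pool.Agent.K1H82.KV.Fin
import Pool.Agent.K1H82.KV.Sgn
import Pool.Agent.K1H82.KA.Ell

/-!
# Products of elliptic curves modulo groups of signs
-/

set_option autoImplicit false
set_option linter.unusedSectionVars false

open MvPolynomial Pool.Agent.TH954.X Pool.Agent.K1H82.KM
open Pool.Agent.K1H82.KQ (PtB GalK cjg OnX sg)
open Pool.Agent.K1H82.KA (PtsB GActP)
open Pool.Agent.K1H82.KR (Off RatPts)
open Pool.Agent.K1H82.KS (Uni)
open Pool.Agent.K1H82.KT (Torus Tors TpB Tp tv mon twT twA cjT ValT NV mon_one_mat)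

namespace Pool.Agent.K1H82.KV

section crv

/-- the points of the elliptic curve -/
structure Ell3 {K : Type} [Field K] (a b : K) (A : AbVar K 3) : Prop where
  simple : GeomSimple A
  pt : ∀ P : A.Pt (AlgebraicClosure K), P.1 = ![0, 0, 1] ∨ ∃ x y,
    y ^ 2 = x ^ 3 + algebraMap K (AlgebraicClosure K) a * x +
      algebraMap K (AlgebraicClosure K) b ∧ P.1 = ![1, x, y]
  ex : ∀ x y : AlgebraicClosure K, y ^ 2 = x ^ 3 + algebraMap K (AlgebraicClosure K) a * x +
    algebraMap K (AlgebraicClosure K) b → ∃ P : A.Pt (AlgebraicClosure K), P.1 = ![1, x, y]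
  neg : ∀ (P : A.Pt (AlgebraicClosure K)) (x y : AlgebraicClosure K), P.1 = ![1, x, y] →
    (-P).1 = ![1, x, -y]

theorem exists_ell3 {K : Type} [Field K] [CharZero K] (a b : K)
    (hD : 4 * a ^ 3 + 27 * b ^ 2 ≠ 0) : ∃ A : AbVar K 3, Ell3 a b A := by
  classical
  obtain ⟨A, hA, h⟩ := K1H82.KA.weier le_rfl a b hD
  obtain ⟨e, he'⟩ := h (AlgebraicClosure K)
  have he : ∀ P, P.1 = We.coords (e P) := fun P => by
    rw [he' P]
    funext c
    exact dif_pos c.2
  have hD' : 4 * (algebraMap K (AlgebraicClosure K) a) ^ 3 +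
      27 * (algebraMap K (AlgebraicClosure K) b) ^ 2 ≠ 0 := by
    intro h0
    apply hD
    apply (algebraMap K (AlgebraicClosure K)).injective
    rw [map_zero, ← h0, map_add, map_mul, map_mul, map_pow, map_pow, map_ofNat, map_ofNat]
  refine ⟨A, hA, ?_, ?_, ?_⟩
  · intro P
    rcases hP : e P with _ | ⟨x, y, hxy⟩
    · left
      rw [he P, hP]
      rfl
    · right
      refine ⟨x, y, We.curve_eqn hxy, ?_⟩
      rw [he P, hP]
      rfl
  · intro x y hxy
    refine ⟨e.symm (.some x y (We.curve_nonsing hD' hxy)), ?_⟩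
    rw [he, AddEquiv.apply_symm_apply]
    rfl
  · intro P x y hP
    rcases hP1 : e P with _ | ⟨x', y', hxy⟩
    · rw [he P, hP1] at hP
      have := congrFun hP 0
      simp [We.coords] at this
    · rw [he P, hP1] at hP
      have hx : x' = x := congrFun hP 1
      have hy : y' = y := congrFun hP 2
      subst hx
      subst hy
      rw [he, map_neg, hP1, We.neg_some' hxy (We.nons_neg hxy)]
      rfl

lemma zsm {K : Type} [Field K] {a b : K} {A : AbVar K 3} (hA : Ell3 a b A) (c : ZMod 2)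
    {P : A.Pt (AlgebraicClosure K)} {x y : AlgebraicClosure K} (h : P.1 = ![1, x, y]) :
    (sgn c • P).1 = ![1, x, ((sgn c : ℤ) : AlgebraicClosure K) * y] := by
  by_cases hc : c = 0
  · rw [hc, sgn_zero, one_smul, h, Int.cast_one, one_mul]
  · rw [zmod2_ne c hc, sgn_one, neg_smul, one_smul, hA.neg P x y h, Int.cast_neg,
      Int.cast_one, neg_one_mul]

end crv

section dat

variable {K : Type} [Field K] {r : ℕ} (C : Submodule (ZMod 2) (Fin r → ZMod 2))

/-- the trivial torus -/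
noncomputable def T0 (K : Type) [Field K] : Torus K 0 where
  ρ := fun _ => 1
  ρ_one := rfl
  ρ_mul := fun _ _ => (one_mul 1).symm
  split := ⟨⊥, inferInstance, fun _ _ => rfl⟩

/-- the trivial torsors -/
noncomputable def D0 (A : Fin r → AbVar K 3) : Tors (T0 K) A where
  a := fun _ => 1
  a_mul := fun _ _ => Subsingleton.elim _ _
  c := fun _ _ => 0
  c_mul := fun σ _ b => by
    have h : cjg (A b) σ 0 = 0 := map_zero (mapH (A b) σ.toAlgHom)
    change (0 : PtB (A b)) = cjg (A b) σ 0 + 0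
    rw [h, add_zero]
  split := ⟨⊥, inferInstance, fun _ _ => ⟨rfl, fun _ => rfl⟩⟩

/-- the signs with product one on the elements of the code -/
def CP : AddSubgroup (Fin r → ZMod 2) where
  carrier := {c | ∀ I ∈ C, ∑ i, I i * c i = 0}
  zero_mem' := fun I _ => Finset.sum_eq_zero (fun i _ => mul_zero _)
  add_mem' := by
    intro c d hc hd I hI
    have h : ∀ i, I i * (c + d) i = I i * c i + I i * d i := fun i => mul_add _ _ _
    simp_rw [h]
    rw [Finset.sum_add_distrib, hc I hI, hd I hI, add_zero]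
  neg_mem' := by
    intro c hc I hI
    have h : ∀ i, I i * (-c) i = -(I i * c i) := fun i => mul_neg _ _
    simp_rw [h]
    rw [Finset.sum_neg_distrib, hc I hI, neg_zero]

/-- the group of signs -/
abbrev Gc : Type := Multiplicative (CP C)

/-- the signs act -/
noncomputable def S0 (A : Fin r → AbVar K 3) : GActV (D0 A) 0 (Gc C) (Gc C) where
  γ := fun _ g => g
  tor := {
    lin := fun _ => 1
    lin_one := rfl
    lin_mul := fun _ _ => (one_mul 1).symm
    tr := fun _ => 1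
    tr_mul := fun _ _ => Subsingleton.elim _ _
    gal_lin := fun _ _ => Subsingleton.elim _ _
    gal_tr := fun _ _ => Subsingleton.elim _ _ }
  vec := {
    lin := fun _ => 1
    lin_one := rfl
    lin_mul := fun _ _ => (one_mul 1).symm
    tr := fun _ => 0
    tr_mul := fun _ _ => Subsingleton.elim _ _
    gal_lin := fun _ _ i => i.elim0
    gal_tr := fun _ _ j => j.elim0 }
  ab := {
    act := {
      lin := fun g b P => sgn ((Multiplicative.toAdd g).1 b) • P
      lin_one := fun b P => by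
        change sgn 0 • P = P
        rw [sgn_zero, one_smul]
      lin_mul := fun g h b P => by
        change sgn ((Multiplicative.toAdd g).1 b + (Multiplicative.toAdd h).1 b) • P = _
        rw [sgn_add, mul_smul]
      lin_add := fun g b P Q => smul_add _ P Q
      tr := fun _ _ => 0
      tr_mul := fun g _ b => by
        rw [smul_zero, add_zero] }
    γ := fun _ => 1
    gal_lin := fun σ g b P => map_zsmul (mapH (A b) σ.toAlgHom) _ P
    gal_tr := fun σ g b => by
      have h : cjg (A b) σ 0 = 0 := map_zero (mapH (A b) σ.toAlgHom)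
      change cjg (A b) σ 0 + (0 : PtB (A b)) =
        sgn ((Multiplicative.toAdd g).1 b) • (0 : PtB (A b)) + 0
      rw [h, smul_zero] }
  q := fun g => g
  q_mul := fun _ _ => rfl
  gal_q := fun _ _ => rfl

/-- the exponents of the coordinates of the map -/
def ee : Fin r ⊕ C → Fin r → Fin 3 :=
  Sum.elim (fun j i => if i = j then 1 else 0) (fun I i => if I.1 i = 0 then 0 else 2)

/-- the coordinates of the map -/
noncomputable def cf (F : Type) [Field F] (c : Fin r ⊕ C) :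
    MvPolynomial (((Fin 0 ⊕ Fin 0) ⊕ Fin r) × Fin 3) F :=
  ∏ j : Fin r, X (Sum.inr j, ee C c j)

lemma MH_X1 {F ι : Type} [Field F] [Fintype ι] [DecidableEq ι] {n : ℕ} (p : ι × Fin n) :
    MH (fun i => if i = p.1 then 1 else 0) (X p : MvPolynomial (ι × Fin n) F) := by
  classical
  intro m hm i
  rw [support_X, Finset.mem_singleton] at hm
  subst hm
  by_cases hi : i = p.1
  · simp only [if_pos hi]
    rw [Finset.sum_eq_single p.2]
    · rw [hi]
      simp
    · intro c _ hc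
      rw [Finsupp.single_apply, if_neg]
      intro h
      exact hc (congrArg Prod.snd h).symm
    · intro h
      exact absurd (Finset.mem_univ _) h
  · simp only [if_neg hi]
    refine Finset.sum_eq_zero (fun c _ => ?_)
    rw [Finsupp.single_apply, if_neg]
    intro h
    exact hi (congrArg Prod.fst h).symm

lemma cf_MH (F : Type) [Field F] (c : Fin r ⊕ C) : MH (fun _ => 1) (cf C F c) := by
  classical
  have h := MH_prod (Finset.univ : Finset (Fin r))
    (fun j i => if i = (Sum.inr j : (Fin 0 ⊕ Fin 0) ⊕ Fin r) then 1 else 0)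
    (fun j => (X (Sum.inr j, ee C c j) :
      MvPolynomial (((Fin 0 ⊕ Fin 0) ⊕ Fin r) × Fin 3) F)) (fun j _ => MH_X1 _)
  have h2 : (fun i : (Fin 0 ⊕ Fin 0) ⊕ Fin r => ∑ j : Fin r,
      if i = (Sum.inr j : (Fin 0 ⊕ Fin 0) ⊕ Fin r) then 1 else 0) = fun _ => 1 := by
    funext i
    rcases i with (i | i) | i
    · exact i.elim0
    · exact i.elim0
    · simp
  rw [h2] at h
  exact h

/-- the values of the coordinates -/
noncomputable def co {A : Fin r → AbVar K 3} (x : PtV 0 0 A) (c : Fin r ⊕ C) :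
    AlgebraicClosure K := ∏ j, (x.2.2 j).1 (ee C c j)

lemma ev_cf {A : Fin r → AbVar K 3} {F : IntermediateField K (AlgebraicClosure K)}
    (x : PtV 0 0 A) (c : Fin r ⊕ C) : ev (cf C F c) (crB x) = co C x c := by
  unfold ev cf co
  rw [map_prod]
  refine Finset.prod_congr rfl (fun j _ => ?_)
  rw [aeval_X]
  rfl

variable {C}

lemma co_aff {A : Fin r → AbVar K 3} {x : PtV 0 0 A} {X Y : Fin r → AlgebraicClosure K}
    (h : ∀ j, (x.2.2 j).1 = ![1, X j, Y j]) :
    (∀ j, co C x (Sum.inl j) = X j) ∧ ∀ I : C, co C x (Sum.inr I) = mo I.1 Y := by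
  refine ⟨fun j => ?_, fun I => ?_⟩
  · unfold co ee
    rw [Finset.prod_eq_single j]
    · rw [Sum.elim_inl, if_pos rfl, h]
      rfl
    · intro i _ hi
      rw [Sum.elim_inl, if_neg hi, h]
      rfl
    · intro h
      exact absurd (Finset.mem_univ _) h
  · unfold co ee mo
    refine Finset.prod_congr rfl (fun j _ => ?_)
    rw [Sum.elim_inr, h]
    split_ifs
    · rfl
    · rfl

lemma mo_zero {Ω : Type} [CommMonoid Ω] (Y : Fin r → Ω) : mo (0 : Fin r → ZMod 2) Y = 1 :=
  Finset.prod_eq_one (fun _ _ => if_pos rfl)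

lemma co_inf {A : Fin r → AbVar K 3} {x : PtV 0 0 A} {i : Fin r}
    (h : (x.2.2 i).1 = ![0, 0, 1]) : ∀ I : C, I.1 i = 0 → co C x (Sum.inr I) = 0 := by
  intro I hI
  refine Finset.prod_eq_zero (Finset.mem_univ i) ?_
  unfold ee
  rw [Sum.elim_inr, if_pos hI, h]
  rfl

/-- the forms which give the map -/
noncomputable def fm {N : ℕ} (e : Fin N ≃ Fin r ⊕ C) (F : Type) [Field F] (c : Fin N) :
    MvPolynomial (((Fin 0 ⊕ Fin 0) ⊕ Fin r) × Fin 3) F := cf C F (e c)

lemma img_iff {N : ℕ} (e : Fin N ≃ Fin r ⊕ C) {A : Fin r → AbVar K 3}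
    {F : IntermediateField K (AlgebraicClosure K)}
    (x : PtV 0 0 A) (z : Fin N → AlgebraicClosure K) :
    ImgV ({fm e F} : FamV 3 r 0 0 N F) x z ↔
      (∃ t : AlgebraicClosure K, ∀ c, co C x (e c) = t * z c) ∧ ∃ c, co C x (e c) ≠ 0 := by
  have h : ∀ c, ev (fm e F c) (crB x) = co C x (e c) := fun c => ev_cf C x (e c)
  unfold ImgV ValT
  constructor
  · rintro ⟨h1, C', hC, c, hc⟩
    rw [Finset.mem_singleton] at hC
    subst hC
    obtain ⟨t, ht⟩ := h1 _ (Finset.mem_singleton_self _)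
    rw [h] at hc
    exact ⟨⟨t, fun c => (h c).symm.trans (congrFun ht c)⟩, c, hc⟩
  · rintro ⟨⟨t, ht⟩, c, hc⟩
    refine ⟨fun C' hC => ⟨t, ?_⟩, _, Finset.mem_singleton_self _, c, ?_⟩
    · rw [Finset.mem_singleton] at hC
      subst hC
      funext c
      exact (h c).trans (ht c)
    · rw [h]
      exact hc

/-- The equations `z_I z_J w ^ (3 |I ∩ J|) = z_(I + J) w ∏_(i ∈ I ∩ J) (x_i³ + a_i x_i w² + b_i w³)`
with the variables `x_i` and `z_I` for `I` in the code `C`, and `w = z_0`. -/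
def codeEq {K : Type} [Field K] {r : ℕ} {C : Submodule (ZMod 2) (Fin r → ZMod 2)} {N : ℕ}
    (e : Fin N ≃ Fin r ⊕ C) (a b : Fin r → K) : Set (MvPolynomial (Fin N) K) :=
  {f | ∃ I J : C, f = X (e.symm (Sum.inr I)) * X (e.symm (Sum.inr J)) *
    m2 I.1 J.1 (fun _ => X (e.symm (Sum.inr 0)) ^ 3) -
    X (e.symm (Sum.inr (I + J))) * X (e.symm (Sum.inr 0)) * m2 I.1 J.1 (fun i =>
      X (e.symm (Sum.inl i)) ^ 3 + MvPolynomial.C (a i) * X (e.symm (Sum.inl i)) *
        X (e.symm (Sum.inr 0)) ^ 2 + MvPolynomial.C (b i) * X (e.symm (Sum.inr 0)) ^ 3)}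

lemma m2_hom {N : ℕ} (I J : Fin r → ZMod 2) (f : Fin r → MvPolynomial (Fin N) K)
    (h : ∀ i, (f i).IsHomogeneous 3) :
    (m2 I J f).IsHomogeneous (∑ i, if I i = 0 ∨ J i = 0 then 0 else 3) := by
  unfold m2
  refine IsHomogeneous.prod _ _ _ (fun i _ => ?_)
  split_ifs
  · exact isHomogeneous_one _ _
  · exact h i

lemma codeEq_hom {N : ℕ} (e : Fin N ≃ Fin r ⊕ C) (a b : Fin r → K) :
    ∀ f ∈ codeEq e a b, ∃ d, f.IsHomogeneous d := by
  rintro _ ⟨I, J, rfl⟩
  refine ⟨1 + 1 + ∑ i, if I.1 i = 0 ∨ J.1 i = 0 then 0 else 3, IsHomogeneous.sub ?_ ?_⟩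
  · refine ((isHomogeneous_X _ _).mul (isHomogeneous_X _ _)).mul (m2_hom _ _ _ (fun i => ?_))
    have h := (isHomogeneous_X K (e.symm (Sum.inr 0))).pow 3
    rwa [one_mul] at h
  · refine ((isHomogeneous_X _ _).mul (isHomogeneous_X _ _)).mul (m2_hom _ _ _ (fun i => ?_))
    refine IsHomogeneous.add (IsHomogeneous.add ?_ ?_) ?_
    · have h := (isHomogeneous_X K (e.symm (Sum.inl i))).pow 3
      rwa [one_mul] at h
    · exact ((isHomogeneous_C (Fin N) (a i)).mul
          (isHomogeneous_X K (e.symm (Sum.inl i)))).mul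
          ((isHomogeneous_X K (e.symm (Sum.inr 0))).pow 2)
    · exact (isHomogeneous_C (Fin N) (b i)).mul
          ((isHomogeneous_X K (e.symm (Sum.inr 0))).pow 3)

lemma map_m2 {R R' : Type} [CommSemiring R] [CommSemiring R'] (φ : R →+* R')
    (I J : Fin r → ZMod 2) (f : Fin r → R) : φ (m2 I J f) = m2 I J (fun i => φ (f i)) := by
  unfold m2
  rw [map_prod]
  refine Finset.prod_congr rfl (fun i _ => ?_)
  split_ifs
  · exact map_one φ
  · rfl

lemma aeval_code {N : ℕ} (e : Fin N ≃ Fin r ⊕ C) (a b : Fin r → K)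
    (z : Fin N → AlgebraicClosure K) : (∀ g ∈ codeEq e a b, aeval z g = 0) ↔
    ∀ I J : C, z (e.symm (Sum.inr I)) * z (e.symm (Sum.inr J)) *
      m2 I.1 J.1 (fun _ => z (e.symm (Sum.inr 0)) ^ 3) =
      z (e.symm (Sum.inr (I + J))) * z (e.symm (Sum.inr 0)) * m2 I.1 J.1 (fun i =>
        z (e.symm (Sum.inl i)) ^ 3 + algebraMap K (AlgebraicClosure K) (a i) *
          z (e.symm (Sum.inl i)) * z (e.symm (Sum.inr 0)) ^ 2 +
          algebraMap K (AlgebraicClosure K) (b i) * z (e.symm (Sum.inr 0)) ^ 3) := by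
  have key : ∀ I J : C, aeval z (X (e.symm (Sum.inr I)) * X (e.symm (Sum.inr J)) *
    m2 I.1 J.1 (fun _ => X (e.symm (Sum.inr 0)) ^ 3) -
    X (e.symm (Sum.inr (I + J))) * X (e.symm (Sum.inr 0)) * m2 I.1 J.1 (fun i =>
      X (e.symm (Sum.inl i)) ^ 3 + MvPolynomial.C (a i) * X (e.symm (Sum.inl i)) *
        X (e.symm (Sum.inr 0)) ^ 2 + MvPolynomial.C (b i) * X (e.symm (Sum.inr 0)) ^ 3) :
          MvPolynomial (Fin N) K) = z (e.symm (Sum.inr I)) * z (e.symm (Sum.inr J)) *
      m2 I.1 J.1 (fun _ => z (e.symm (Sum.inr 0)) ^ 3) -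
      z (e.symm (Sum.inr (I + J))) * z (e.symm (Sum.inr 0)) * m2 I.1 J.1 (fun i =>
        z (e.symm (Sum.inl i)) ^ 3 + algebraMap K (AlgebraicClosure K) (a i) *
          z (e.symm (Sum.inl i)) * z (e.symm (Sum.inr 0)) ^ 2 +
          algebraMap K (AlgebraicClosure K) (b i) * z (e.symm (Sum.inr 0)) ^ 3) := by
    intro I J
    have h1 := fun f : Fin r → MvPolynomial (Fin N) K =>
      map_m2 (aeval z : MvPolynomial (Fin N) K →ₐ[K] AlgebraicClosure K).toRingHom I.1 J.1 f
    have h2 : ∀ f : Fin r → MvPolynomial (Fin N) K, aeval z (m2 I.1 J.1 f) =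
      m2 I.1 J.1 (fun i => aeval z (f i)) := h1
    rw [map_sub, map_mul, map_mul, map_mul, map_mul, h2, h2]
    simp only [map_mul, map_pow, aeval_X, map_add, aeval_C]
  constructor
  · intro h I J
    have := h _ ⟨I, J, rfl⟩
    rw [key] at this
    exact sub_eq_zero.1 this
  · rintro h _ ⟨I, J, rfl⟩
    rw [key]
    exact sub_eq_zero.2 (h I J)

end dat

section pce

variable {K : Type} [Field K] {r : ℕ} {C : Submodule (ZMod 2) (Fin r → ZMod 2)} {N : ℕ}
  (e : Fin N ≃ Fin r ⊕ C)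

lemma off_iff (z : Fin N → AlgebraicClosure K) :
    Off ({X (e.symm (Sum.inr 0))} : Set (MvPolynomial (Fin N) K)) z ↔
      z (e.symm (Sum.inr 0)) ≠ 0 := by
  unfold Off
  constructor
  · rintro ⟨h, hh, hne⟩
    rw [Set.mem_singleton_iff] at hh
    subst hh
    rwa [aeval_X] at hne
  · intro h
    exact ⟨_, rfl, by rwa [aeval_X]⟩

variable {a b : Fin r → K} {A : Fin r → AbVar K 3} (hA : ∀ i, Ell3 (a i) (b i) (A i))

include hA

lemma aff_of (x : PtV 0 0 A) (h : co C x (Sum.inr 0) ≠ 0) :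
    ∃ X Y : Fin r → AlgebraicClosure K, (∀ i, Y i ^ 2 = X i ^ 3 +
      algebraMap K (AlgebraicClosure K) (a i) * X i + algebraMap K (AlgebraicClosure K) (b i)) ∧
      ∀ i, (x.2.2 i).1 = ![1, X i, Y i] := by
  have h1 := fun i => ((hA i).pt (x.2.2 i)).resolve_left (fun h2 => h (co_inf h2 0 rfl))
  choose X Y h3 using h1
  exact ⟨X, Y, fun i => (h3 i).1, fun i => (h3 i).2⟩

lemma tot (F : IntermediateField K (AlgebraicClosure K)) (x : PtV 0 0 A)
    (hx : DefV ({fm e F} : FamV 3 r 0 0 N F) x) :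
    ∃ z, OnX (codeEq e a b) z ∧ ImgV ({fm e F} : FamV 3 r 0 0 N F) x z := by
  obtain ⟨C', hC', c, hc⟩ := hx
  rw [Finset.mem_singleton] at hC'
  subst hC'
  have hc' : co C x (e c) ≠ 0 := by
    rw [← ev_cf (F := F)]
    exact hc
  refine ⟨fun c => co C x (e c), ⟨fun h0 => hc' (congrFun h0 c), ?_⟩,
    (img_iff e x _).2 ⟨⟨1, fun c => (one_mul _).symm⟩, c, hc'⟩⟩
  rw [aeval_code]
  intro I J
  simp only [Equiv.apply_symm_apply]
  by_cases hw : co C x (Sum.inr 0) = 0
  · have hex : ∃ i, (x.2.2 i).1 = ![0, 0, 1] := by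
      by_contra hno
      have h1 := fun i => ((hA i).pt (x.2.2 i)).resolve_left (fun h => hno ⟨i, h⟩)
      choose X Y h3 using h1
      have h4 := (co_aff (C := C) (fun i => (h3 i).2)).2 0
      rw [hw] at h4
      exact zero_ne_one (h4.trans (mo_zero Y))
    obtain ⟨i, hi⟩ := hex
    rw [hw, mul_zero, zero_mul]
    by_cases hI : I.1 i = 0
    · rw [co_inf hi I hI, zero_mul, zero_mul]
    · by_cases hJ : J.1 i = 0
      · rw [co_inf hi J hJ, mul_zero, zero_mul]
      · have h5 : m2 I.1 J.1 (fun _ => (0 : AlgebraicClosure K) ^ 3) = 0 :=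
          Finset.prod_eq_zero (Finset.mem_univ i) (by
            rw [if_neg (not_or.2 ⟨hI, hJ⟩)]
            exact zero_pow three_ne_zero)
        rw [h5, mul_zero]
  · obtain ⟨X, Y, hXY, hP⟩ := aff_of hA x hw
    obtain ⟨h1, h2⟩ := co_aff (C := C) hP
    have h3 : co C x (Sum.inr 0) = 1 := (h2 0).trans (mo_zero Y)
    simp only [h3, h1, one_pow, mul_one]
    rw [h2 I, h2 J, h2 (I + J)]
    have h4 : m2 I.1 J.1 (fun _ => (1 : AlgebraicClosure K)) = 1 :=
      Finset.prod_eq_one (fun i _ => by split_ifs <;> rfl)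
    have h5 : (fun i => X i ^ 3 + algebraMap K (AlgebraicClosure K) (a i) * X i +
        algebraMap K (AlgebraicClosure K) (b i)) = fun i => Y i ^ 2 :=
      funext (fun i => (hXY i).symm)
    rw [h4, h5, mul_one]
    exact mo_mul I.1 J.1 Y

lemma srj [CharZero K] (F : IntermediateField K (AlgebraicClosure K))
    (z : Fin N → AlgebraicClosure K) (hz : OnX (codeEq e a b) z)
    (ho : Off ({X (e.symm (Sum.inr 0))} : Set (MvPolynomial (Fin N) K)) z) :
    ∃ x : PtV 0 0 A, ImgV ({fm e F} : FamV 3 r 0 0 N F) x z := by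
  have hw := (off_iff e z).1 ho
  have heq := (aeval_code e a b z).1 hz.2
  set w := z (e.symm (Sum.inr 0)) with hwd
  set Xx : Fin r → AlgebraicClosure K := fun i => z (e.symm (Sum.inl i)) / w with hXx
  choose Y0 hY0 using fun i => IsAlgClosed.exists_pow_nat_eq (Xx i ^ 3 +
    algebraMap K (AlgebraicClosure K) (a i) * Xx i +
      algebraMap K (AlgebraicClosure K) (b i)) (n := 2) two_pos
  have h2 : (2 : AlgebraicClosure K) ≠ 0 := by
    have : CharZero (AlgebraicClosure K) :=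
      charZero_of_injective_algebraMap (algebraMap K (AlgebraicClosure K)).injective
    exact two_ne_zero
  have hζ : ∀ I J : C, z (e.symm (Sum.inr I)) / w * (z (e.symm (Sum.inr J)) / w) =
      z (e.symm (Sum.inr (I + J))) / w * m2 I.1 J.1 (fun i => Y0 i ^ 2) := by
    intro I J
    have h1 := heq I J
    have h4 : m2 I.1 J.1 (fun i => z (e.symm (Sum.inl i)) ^ 3 +
        algebraMap K (AlgebraicClosure K) (a i) * z (e.symm (Sum.inl i)) * w ^ 2 +
          algebraMap K (AlgebraicClosure K) (b i) * w ^ 3) =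
        m2 I.1 J.1 (fun _ => w ^ 3) * m2 I.1 J.1 (fun i => Y0 i ^ 2) := by
      rw [← m2_mul]
      congr 1
      funext i
      rw [hY0]
      simp only [hXx]
      field_simp
    rw [h4] at h1
    have h3 : m2 I.1 J.1 (fun _ : Fin r => w ^ 3) ≠ 0 := m2_ne (fun _ _ => pow_ne_zero _ hw)
    have h5 : z (e.symm (Sum.inr I)) * z (e.symm (Sum.inr J)) =
        z (e.symm (Sum.inr (I + J))) * w * m2 I.1 J.1 (fun i => Y0 i ^ 2) := by
      refine mul_right_cancel₀ h3 ?_
      rw [h1]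
      ring
    rw [div_mul_div_comm, h5]
    field_simp
  obtain ⟨Y, hY, hYz⟩ := code_surj C h2 Y0 (fun I : C => z (e.symm (Sum.inr I)) / w)
    (div_self hw) hζ
  choose P hP using fun i => (hA i).ex (Xx i) (Y i) ((hY i).trans (hY0 i))
  obtain ⟨h1, h3⟩ := co_aff (C := C) (x := ((1, 0, P) : PtV 0 0 A)) hP
  refine ⟨((1, 0, P) : PtV 0 0 A), (img_iff e _ z).2 ⟨⟨w⁻¹, fun c => ?_⟩,
    e.symm (Sum.inr 0), ?_⟩⟩
  · rcases hc : e c with j | I
    · rw [h1]
      have h4 : c = e.symm (Sum.inl j) := by rw [← hc, Equiv.symm_apply_apply]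
      rw [h4]
      exact div_eq_inv_mul _ _
    · rw [h3, hYz]
      have h4 : c = e.symm (Sum.inr I) := by rw [← hc, Equiv.symm_apply_apply]
      rw [h4]
      exact div_eq_inv_mul _ _
  · rw [Equiv.apply_symm_apply, h3 0]
    intro h0
    exact one_ne_zero ((mo_zero Y).symm.trans h0)

omit hA

lemma co_tw (σ : GalK K) (x : PtV 0 0 A) (c : Fin r ⊕ C) :
    co C (tw (D0 A) σ x) c = σ (co C x c) := by
  unfold co
  rw [map_prod]
  refine Finset.prod_congr rfl (fun j _ => ?_)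
  change (cjg (A j) σ (x.2.2 j) + 0).1 _ = _
  rw [add_zero]
  rfl

lemma gl (F : IntermediateField K (AlgebraicClosure K)) (σ : GalK K) (x : PtV 0 0 A)
    (z : Fin N → AlgebraicClosure K) (h : ImgV ({fm e F} : FamV 3 r 0 0 N F) x z) :
    ImgV ({fm e F} : FamV 3 r 0 0 N F) (tw (D0 A) σ x) (fun c => σ (z c)) := by
  obtain ⟨⟨t, ht⟩, c, hc⟩ := (img_iff e x z).1 h
  exact (img_iff e _ _).2 ⟨⟨σ t, fun c => by rw [co_tw, ht, map_mul]⟩, c, by
    rw [co_tw]
    exact (map_ne_zero σ).2 hc⟩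

variable (a b)

/-- the map -/
noncomputable def Xc [CharZero K] (hA : ∀ i, Ell3 (a i) (b i) (A i)) : RMapV (D0 A) 0 N where
  eqX := codeEq e a b
  homX := codeEq_hom e a b
  eqW := {X (e.symm (Sum.inr 0))}
  homW := by
    rintro _ rfl
    exact ⟨1, isHomogeneous_X _ _⟩
  F := ⊥
  fin := inferInstance
  Fam := {fm e (⊥ : IntermediateField K (AlgebraicClosure K))}
  d := fun _ => 1
  Fam_hom := by
    intro C' hC' c
    rw [Finset.mem_singleton] at hC'
    subst hC'
    exact cf_MH C _ (e c)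
  total := tot e hA ⊥
  surj := srj e hA ⊥
  gal := gl e ⊥

theorem quo [CharZero K] (hA : ∀ i, Ell3 (a i) (b i) (A i)) :
    IsQuotV (Xc e a b hA) (S0 C A) := by
  have h2' : (2 : AlgebraicClosure K) ≠ 0 := by
    have : CharZero (AlgebraicClosure K) :=
      charZero_of_injective_algebraMap (algebraMap K (AlgebraicClosure K)).injective
    exact two_ne_zero
  intro x z hz ho
  have hw := (off_iff e z).1 ho
  have key : ∀ x : PtV 0 0 A, ImgV (Xc e a b hA).Fam x z → ∃ X Y : Fin r → AlgebraicClosure K,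
      (∀ i, Y i ^ 2 = X i ^ 3 + algebraMap K (AlgebraicClosure K) (a i) * X i +
        algebraMap K (AlgebraicClosure K) (b i)) ∧ (∀ i, (x.2.2 i).1 = ![1, X i, Y i]) ∧
      (∀ i, X i = (z (e.symm (Sum.inr 0)))⁻¹ * z (e.symm (Sum.inl i))) ∧
      ∀ I : C, mo I.1 Y = (z (e.symm (Sum.inr 0)))⁻¹ * z (e.symm (Sum.inr I)) := by
    intro x hx
    obtain ⟨⟨t, ht⟩, c, hc⟩ := (img_iff e x z).1 hx
    have ht0 : t ≠ 0 := by
      rintro rfl
      apply hc
      rw [ht, zero_mul]
    have ht' : ∀ c, co C x c = t * z (e.symm c) := fun c => by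
      rw [← ht, Equiv.apply_symm_apply]
    obtain ⟨X, Y, hXY, hP⟩ := aff_of hA x (C := C) (by
      rw [ht']
      exact mul_ne_zero ht0 hw)
    obtain ⟨h1, h2⟩ := co_aff (C := C) hP
    have h3 : t * z (e.symm (Sum.inr 0)) = 1 := by
      rw [← ht', h2 0]
      exact mo_zero Y
    have h4 : t = (z (e.symm (Sum.inr 0)))⁻¹ := eq_inv_of_mul_eq_one_left h3
    refine ⟨X, Y, hXY, hP, fun i => ?_, fun I => ?_⟩
    · rw [← h1, ht', h4]
    · rw [← h2, ht', h4]
  obtain ⟨X, Y, hXY, hP, hX, hY⟩ := key x hz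
  refine ⟨fun x' => ⟨fun hx' => ?_, ?_⟩, fun g _ => ⟨rfl, rfl⟩⟩
  · obtain ⟨X', Y', hXY', hP', hX', hY'⟩ := key x' hx'
    have hXX : ∀ i, X' i = X i := fun i => (hX' i).trans (hX i).symm
    obtain ⟨c, hc1, hc2⟩ := code_orb C h2' Y Y' (fun i => by rw [hXY', hXY, hXX])
      (fun I => (hY' I).trans (hY I).symm)
    refine ⟨Multiplicative.ofAdd ⟨c, hc1⟩, ?_⟩
    refine Prod.ext (Subsingleton.elim _ _) (Prod.ext (Subsingleton.elim _ _) ?_)
    funext i
    apply Subtype.ext
    change (x'.2.2 i).1 = (sgn (c i) • x.2.2 i + 0).1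
    rw [add_zero, zsm (hA i) (c i) (hP i), hP' i, hc2, hXX]
  · rintro ⟨g, rfl⟩
    obtain ⟨⟨t, ht⟩, c, hc⟩ := (img_iff e x z).1 hz
    have hPg : ∀ i, ((app (S0 C A) g x).2.2 i).1 = ![1, X i,
        ((sgn ((Multiplicative.toAdd g).1 i) : ℤ) : AlgebraicClosure K) * Y i] := by
      intro i
      change (sgn ((Multiplicative.toAdd g).1 i) • x.2.2 i + 0).1 = _
      rw [add_zero, zsm (hA i) _ (hP i)]
    obtain ⟨h1, h2⟩ := co_aff (C := C) hPg
    obtain ⟨h1', h2'⟩ := co_aff (C := C) hP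
    have hco : ∀ c, co C (app (S0 C A) g x) c = co C x c := by
      rintro (j | I)
      · rw [h1, h1']
      · rw [h2, h2', mo_sgn, (Multiplicative.toAdd g).2 I.1 I.2, sgn_zero, Int.cast_one,
          one_mul]
    exact (img_iff e _ z).2 ⟨⟨t, fun c => by rw [hco, ht]⟩, c, by rwa [hco]⟩

/-- the piece -/
noncomputable def pcC [CharZero K] (hA : ∀ i, Ell3 (a i) (b i) (A i)) : PieceV K N where
  s := 0
  T := T0 K
  k := 0
  n := 3
  r := r
  A := A
  simple := fun i => (hA i).simple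
  D := D0 A
  G := Gc C
  H := Gc C
  S := S0 C A
  X := Xc e a b hA
  quot := quo e a b hA

theorem code_uni [NumberField K] (hDen : K1H82.KT.S_DEN) (hSml : K1H82.KT.S_SML)
    (hD : ∀ i, 4 * a i ^ 3 + 27 * b i ^ 2 ≠ 0) :
    Uni (codeEq e a b) {X (e.symm (Sum.inr 0))} := by
  choose A hA using fun i => exists_ell3 (a i) (b i) (hD i)
  exact uni_pieceV hDen hSml (pcC e a b hA)

end pce

end Pool.Agent.K1H82.KV
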