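import Pool.Agent.K1H82.KV.Cor
import Pool.Agent.K1H82.KT.Fin

/-!
# Finiteness of the set of the local ideals
-/

set_option autoImplicit false
set_option linter.unusedSectionVars false

open MvPolynomial Pool.Agent.TH954.X Pool.Agent.K1H82.KM Filter Topology
open Pool.Agent.K1H82.KQ (PtB GalK cjg OnX sg torB)
open Pool.Agent.K1H82.KA (PtsB GActP ln ln_one orb_fin)
open Pool.Agent.K1H82.KR (Off off_up RatPts)
open Pool.Agent.K1H82.KS (Sq IdealFin Uni empty_eq)
open Pool.Agent.K1H82.KT hiding Mf Mf_eq Mf_mul Mf_one Mf_congr MF MF_rs MF_one nr nr_fix nr_val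
  conj_ex Big big_exists
open Pool.Agent.K1H82.KU (BasF)

namespace Pool.Agent.K1H82.KV

section gen

variable {K : Type} [Field K] [NumberField K] {n r s k N : ℕ} {T : Torus K s}
  {A : Fin r → AbVar K n} {D : Tors T A}

/-- the general finiteness argument -/
theorem uni_gen {X : RMapV D k N} (Z : PtV s k A → Set (MvPolynomial (Fin N) K))
    (hfin : {I | ∃ (x : PtV s k A) (y : Fin N → K), ImgV X.Fam x (up y) ∧
      Off X.eqW (up y) ∧ I = Z x}.Finite)
    (hself : ∀ (x : PtV s k A) (y : Fin N → K), ImgV X.Fam x (up y) → ∀ f ∈ Z x,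
      ∀ a : AlgebraicClosure K, aeval (a • up y) f = 0)
    (hloc : ∀ {ι : Type} [Finite ι] [Nonempty ι]
      (L : ι → Type) [∀ i, NontriviallyNormedField (L i)] [∀ i, CompleteSpace (L i)]
      (σ : ∀ i, K →+* L i) (_ : ∀ i, DenseRange (σ i))
      (f : MvPolynomial (Fin N) K) {U : ∀ i, Set (Fin N → L i)} (_ : ∀ i, IsOpen (U i))
      (_ : ∀ i, (0 : Fin N → L i) ∉ U i)
      (_ : ∀ y : Fin N → K, y ≠ 0 → (∀ g ∈ X.eqX, eval y g = 0) →
        (∃ h ∈ X.eqW, eval y h ≠ 0) →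
        (∀ i, ∃ c : L i, c ≠ 0 ∧ (fun j => c * σ i (y j)) ∈ U i) → ∀ a : K, eval (a • y) f = 0)
      (x : PtV s k A) (y : Fin N → K) (_ : ImgV X.Fam x (up y))
      (_ : Off X.eqW (up y)) (_ : ∀ i, ∃ c : L i, (fun j => c * σ i (y j)) ∈ U i), f ∈ Z x) :
    Uni X.eqX X.eqW := by
  set Ty : Set (Set (MvPolynomial (Fin N) K)) := {I | ∃ (x : PtV s k A) (y : Fin N → K),
    ImgV X.Fam x (up y) ∧ Off X.eqW (up y) ∧ I = Z x} with hTy
  refine ⟨(fun S => {f | ∀ I ∈ S, f ∈ I}) '' Ty.powerset ∪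
    {{f | ∀ y ∈ RatPts X.eqX X.eqW, ∀ a : K, eval (a • y) f = 0}},
    (hfin.powerset.image _).union (Set.finite_singleton _), ?_⟩
  intro ι _ L _ _ σ hσ x hx0
  cases isEmpty_or_nonempty ι with
  | inl h =>
    right
    exact empty_eq _ _ _ _
  | inr h =>
  left
  -- the types which occur in every neighbourhood
  set S' : Set (Set (MvPolynomial (Fin N) K)) := {I | I ∈ Ty ∧
    ∀ U : ∀ i, Set (Fin N → L i), (∀ i, U i ∈ 𝓝 (x i)) →
    ∃ (x : PtV s k A) (y : Fin N → K), ImgV X.Fam x (up y) ∧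
      Off X.eqW (up y) ∧ (∀ i, ∃ c : L i, c ≠ 0 ∧ (fun j => c * σ i (y j)) ∈ U i) ∧
      I = Z x} with hS'
  refine ⟨S', fun I hI => hI.1, ?_⟩
  ext f
  constructor
  · intro hf
    have hU : ∀ I ∈ Ty, ∃ U : ∀ i, Set (Fin N → L i), (∀ i, U i ∈ 𝓝 (x i)) ∧ (I ∉ S' →
        ¬ ∃ (x : PtV s k A) (y : Fin N → K), ImgV X.Fam x (up y) ∧
          Off X.eqW (up y) ∧ (∀ i, ∃ c : L i, c ≠ 0 ∧ (fun j => c * σ i (y j)) ∈ U i) ∧
          I = Z x) := by
      intro I hI
      by_cases hIS : I ∈ S'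
      · exact ⟨fun _ => Set.univ, fun _ => univ_mem, fun h => absurd hIS h⟩
      · have h1 : ¬ ∀ U : ∀ i, Set (Fin N → L i), (∀ i, U i ∈ 𝓝 (x i)) →
            ∃ (x : PtV s k A) (y : Fin N → K), ImgV X.Fam x (up y) ∧
              Off X.eqW (up y) ∧
              (∀ i, ∃ c : L i, c ≠ 0 ∧ (fun j => c * σ i (y j)) ∈ U i) ∧
              I = Z x := fun h => hIS ⟨hI, h⟩
        simp only [not_forall] at h1
        obtain ⟨U, hU, hU'⟩ := h1
        exact ⟨U, hU, fun _ => hU'⟩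
    choose! U hU hUI using hU
    refine ⟨fun i => ⋂ I ∈ Ty, U I i, fun i => (Filter.biInter_mem hfin).2
      (fun I hI => hU I hI i), ?_⟩
    rintro y ⟨hy0, hye, hyo⟩ hyU a
    have hup0 : up y ≠ 0 := by
      intro h0
      apply hy0
      funext i
      have := congrFun h0 i
      exact (map_eq_zero_iff _ (algebraMap K (AlgebraicClosure K)).injective).1 this
    have ho : Off X.eqW (up y) := off_up.2 hyo
    obtain ⟨x0, hP⟩ := X.surj (up y) ⟨hup0, fun g hg => (eval_up_iff y g).2 (hye g hg)⟩ ho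
    have hT : Z x0 ∈ Ty := ⟨x0, y, hP, ho, rfl⟩
    have hIS : Z x0 ∈ S' := by
      by_contra hIS
      refine hUI _ hT hIS ⟨x0, y, hP, ho, fun i => ?_, rfl⟩
      obtain ⟨c, hc, hcU⟩ := hyU i
      exact ⟨c, hc, Set.mem_iInter₂.1 hcU _ hT⟩
    have h2 := hself x0 y hP f (hf _ hIS) (algebraMap K (AlgebraicClosure K) a)
    have h3 : algebraMap K (AlgebraicClosure K) a • up y = up (a • y) := by
      funext i
      change _ * algebraMap K (AlgebraicClosure K) (y i) =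
        algebraMap K (AlgebraicClosure K) (a * y i)
      rw [map_mul]
    rw [h3] at h2
    exact (eval_up_iff _ _).1 h2
  · rintro ⟨U, hU, hf⟩ I ⟨hI, hI'⟩
    choose V hVU hV hxV using fun i => mem_nhds_iff.1 (hU i)
    have hV0 : ∀ i, IsOpen (V i ∩ {v | v ≠ 0}) := fun i => (hV i).inter isOpen_ne
    obtain ⟨x0, y, hy, ho, hc, rfl⟩ := hI' (fun i => V i ∩ {v | v ≠ 0})
      (fun i => (hV0 i).mem_nhds ⟨hxV i, hx0 i⟩)
    refine hloc L σ hσ f hV0 (fun i h => h.2 rfl) ?_ x0 y hy ho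
      (fun i => (hc i).imp fun c h => h.2)
    intro y hy0 hye hyo hc a
    refine hf y ⟨hy0, hye, hyo⟩ (fun i => ?_) a
    obtain ⟨c, hc, hcU⟩ := hc i
    exact ⟨c, hc, hVU i hcU.1⟩

end gen

section spl

variable {K : Type} [Field K] {n r s k N : ℕ} {T : Torus K s}
  {A : Fin r → AbVar K n} {D : Tors T A} {G H : Type} [Group G] [Group H]

/-- the action on the torsors of the abelian varieties, with the trivial action on the torus -/
noncomputable def toGT (B : ActA D H) : GActT D H where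
  act := B.act
  linT := fun _ => 1
  linT_one := rfl
  linT_mul := fun _ _ => (one_mul 1).symm
  trT := fun _ => 1
  trT_mul := fun _ _ => by rw [mon_one_mat, one_mul]
  galG := B.γ
  gal_linT := fun σ _ => by rw [one_mul, mul_one]
  gal_trT := fun σ _ => by
    have h1 : cjT T σ 1 = 1 := by
      have h := cjT_mul (T := T) σ 1 1
      rw [one_mul] at h
      exact left_eq_mul.1 h
    rw [h1, mon_one_mat, one_mul, mul_one]
  gal_lin := B.gal_lin
  gal_tr := B.gal_tr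

lemma eq3 {S : GActV D k G H} {x : PtV s k A} {φ : GalK K} {g : G}
    (hg : tw D φ x = app S g x) (b : Fin r) : sg (A b) φ (x.2.2 b) + D.c φ b =
      ln S.ab.act (S.q g) b (x.2.2 b) + S.ab.act.tr (S.q g) b :=
  congrArg (fun x : PtV s k A => x.2.2 b) hg

/-- the polynomials which vanish at the images of the points which agree with `P` outside `J` -/
def ZIV (X : RMapV D k N) (P : Pts A (AlgebraicClosure K)) (J : Set (Fin r)) :
    Set (MvPolynomial (Fin N) K) :=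
  {f | ∀ (v : TpB K s) (w : Fin k → AlgebraicClosure K) (Q : PtsB A)
    (z : Fin N → AlgebraicClosure K), (∀ b, b ∉ J → Q b = P b) →
    ImgV X.Fam ((v, w, Q) : PtV s k A) z → ∀ a : AlgebraicClosure K, aeval (a • z) f = 0}

lemma ZIV_congr (X : RMapV D k N) {P P' : Pts A (AlgebraicClosure K)} {J : Set (Fin r)}
    (h : ∀ b, b ∉ J → P' b = P b) : ZIV X P' J = ZIV X P J := by
  ext f
  constructor
  · intro hf v w Q z hQ
    exact hf v w Q z (fun b hb => (hQ b hb).trans (h b hb).symm)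
  · intro hf v w Q z hQ
    exact hf v w Q z (fun b hb => (hQ b hb).trans (h b hb))

lemma toZ {b : Fin r} {F : IntermediateField K (AlgebraicClosure K)}
    {𝓤 : Set (Set ((A b).Pt (AlgebraicClosure K)))} (h : BasF (A b) F 𝓤)
    {R : (A b).Pt (AlgebraicClosure K)} (hR : ∀ c, R.1 c ∈ F) :
    BasZ {U | ∃ W ∈ 𝓤, U = {m : ℤ | m • R ∈ W}} := by
  refine ⟨?_, ?_, ?_, ?_, ?_⟩
  · obtain ⟨W, hW⟩ := h.bas.ne
    exact ⟨_, W, hW, rfl⟩
  · rintro _ ⟨W, hW, rfl⟩
    change (0 : ℤ) • R ∈ W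
    rw [zero_smul]
    exact h.bas.zero W hW
  · rintro _ ⟨W, hW, rfl⟩
    exact h.sq W hW R hR
  · rintro _ ⟨W, hW, rfl⟩
    obtain ⟨W', hW', h'⟩ := h.bas.sub W hW
    refine ⟨_, ⟨W', hW', rfl⟩, fun m hm m' hm' => ?_⟩
    change (m - m') • R ∈ W
    rw [sub_smul]
    exact h' _ hm _ hm'
  · rintro _ ⟨W, hW, rfl⟩ _ ⟨W', hW', rfl⟩
    obtain ⟨W2, hW2, h2⟩ := h.bas.inter W hW W' hW'
    exact ⟨_, ⟨W2, hW2, rfl⟩, fun m hm => ⟨(h2 hm).1, (h2 hm).2⟩⟩

variable [NumberField K] [Fintype H] {X : RMapV D k N} {S : GActV D k G H}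

lemma RT_tw (x : PtV s k A) : TwC S x (RT (toGT S.ab) x.2.2) := by
  intro φ g hg b
  exact sg_RT (toGT S.ab) (P := x.2.2) (φ := φ) (g := S.q g) (fun b => eq3 hg b) b

lemma TwC.zsmul {x : PtV s k A} {R : Pts A (AlgebraicClosure K)} (h : TwC S x R)
    (m : Fin r → ℤ) : TwC S x (fun b => m b • R b) := by
  intro φ g hg b
  change sg (A b) φ (m b • R b) = ln S.ab.act (S.q g) b (m b • R b)
  rw [map_zsmul, map_zsmul, h φ g hg b]

/-- The local Zariski closure at several places contains the images of all the points which agree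
with `P` at the factors where `R` is torsion. -/
theorem locV (hDen : S_DEN) (hSml : S_SML) (hA : ∀ b, GeomSimple (A b))
    (hX : IsQuotV X S) {ι : Type} [Finite ι] [Nonempty ι]
    (L : ι → Type) [∀ i, NontriviallyNormedField (L i)] [∀ i, CompleteSpace (L i)]
    (σ : ∀ i, K →+* L i) (hσ : ∀ i, DenseRange (σ i))
    (f : MvPolynomial (Fin N) K) {U : ∀ i, Set (Fin N → L i)} (hU : ∀ i, IsOpen (U i))
    (h0 : ∀ i, (0 : Fin N → L i) ∉ U i)
    (hf : ∀ y : Fin N → K, y ≠ 0 → (∀ g ∈ X.eqX, eval y g = 0) → (∃ h ∈ X.eqW, eval y h ≠ 0) →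
      (∀ i, ∃ c : L i, c ≠ 0 ∧ (fun j => c * σ i (y j)) ∈ U i) → ∀ a : K, eval (a • y) f = 0)
    (x : PtV s k A) (y : Fin N → K) (hy : ImgV X.Fam x (up y))
    (ho : Off X.eqW (up y)) (hc0 : ∀ i, ∃ c : L i, (fun j => c * σ i (y j)) ∈ U i) :
    f ∈ ZIV X x.2.2 (NT (RT (toGT S.ab) x.2.2)) := by
  obtain ⟨F, hF1, hF2, 𝓤, V, hB, hBas, hV, hcl⟩ :=
    coreV hDen hSml hX L σ hσ f hU h0 hf x y hy ho hc0
  intro v w Q z hQ hz a
  have hRt : TwC S x (RT (toGT S.ab) x.2.2) := RT_tw x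
  refine hcl Q (fun Φ τ hΦ u w' h => ?_) v w z hz a
  refine multiV hA x.2.2 (RT (toGT S.ab) x.2.2)
    (fun b => {U | ∃ V' : ι → Set ℤ, (∀ i, V' i ∈
      {U | ∃ W ∈ 𝓤 i b, U = {m : ℤ | m • RT (toGT S.ab) x.2.2 b ∈ W}}) ∧ U = ⋂ i, V' i})
    (fun b => (BasZ.all (fun i => toZ (hBas i b) (hRt.fld hB b))).isBas)
    (fun b => ⋂ i, {m : ℤ | m • RT (toGT S.ab) x.2.2 b ∈ V i b})
    (fun b => ⟨_, fun i => ⟨V i b, hV i b, rfl⟩, rfl⟩) hΦ u w' (fun m hm => ?_) Q hQ
  exact h _ (hRt.zsmul m) (fun i b => Set.mem_iInter.1 (hm b) i)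

theorem typV_fin (h : IsQuotV X S) :
    {I | ∃ (x : PtV s k A) (y : Fin N → K), ImgV X.Fam x (up y) ∧
      Off X.eqW (up y) ∧ I = ZIV X x.2.2 (NT (RT (toGT S.ab) x.2.2))}.Finite := by
  classical
  choose c hc using fun b => (A b).div (AlgebraicClosure K) (Zc (toGT S.ab) b)
    (nn (D := D) (G := H)) nn_pos
  have hc' : ∀ b, nn (D := D) (G := H) • (c b : (A b).Pt (AlgebraicClosure K)) =
    Zc (toGT S.ab) b := hc
  set d : Fin r → ℕ := fun b => Fintype.card ((F0 D ≃ₐ[K] F0 D) × H) *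
    (orb_fin (c b)).toFinset.card with hd
  have hTB := fun b => torB (A b) (d b)
  have hS : ∀ b, (({0} : Set ((A b).Pt (AlgebraicClosure K))) ∪ (fun w => c b + w) ''
      {w : (A b).Pt (AlgebraicClosure K) | (∃ k : ℕ, 0 < k ∧ k • w = 0) ∧
        ∃ s : Finset ((A b).Pt (AlgebraicClosure K)),
          s.card ≤ d b ∧ ∀ σ, sg (A b) σ w ∈ s}).Finite := fun b =>
    (Set.finite_singleton _).union ((hTB b).image _)
  refine (Set.Finite.biUnion (Set.toFinite (Set.univ : Set (Set (Fin r)))) (fun J _ =>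
    (Set.Finite.pi hS).image (fun P => ZIV X P J))).subset ?_
  rintro _ ⟨x, y, hy, ho, rfl⟩
  refine Set.mem_biUnion (Set.mem_univ (NT (RT (toGT S.ab) x.2.2)))
    ⟨fun b => if b ∈ NT (RT (toGT S.ab) x.2.2) then 0 else x.2.2 b, ?_,
      ZIV_congr X (fun b hb => if_neg hb)⟩
  rw [Set.mem_pi]
  intro b _
  by_cases hb : b ∈ NT (RT (toGT S.ab) x.2.2)
  · left
    exact if_pos hb
  · right
    refine ⟨x.2.2 b - c b, ⟨?_, ?_⟩, ?_⟩
    · have h3 := hb
      simp only [NT, Set.mem_ofPred_eq, not_forall, not_not] at h3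
      obtain ⟨m, hm, hm'⟩ := h3
      refine ⟨m.natAbs * nn (D := D) (G := H), Nat.mul_pos (Int.natAbs_pos.2 hm) nn_pos, ?_⟩
      rw [mul_smul, smul_sub, hc']
      change m.natAbs • RT (toGT S.ab) x.2.2 b = 0
      rcases Int.natAbs_eq m with h4 | h4
      · rw [h4, natCast_zsmul] at hm'
        exact hm'
      · rw [h4, neg_smul, natCast_zsmul, neg_eq_zero] at hm'
        exact hm'
    · refine ⟨(Finset.univ ×ˢ (orb_fin (c b)).toFinset).image
        (fun p : ((F0 D ≃ₐ[K] F0 D) × H) × (A b).Pt (AlgebraicClosure K) =>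
          ln S.ab.act p.1.2 b (x.2.2 b) + S.ab.act.tr p.1.2 b - cH D p.1.1 b - p.2), ?_,
            fun σ => ?_⟩
      · refine Finset.card_image_le.trans ?_
        rw [Finset.card_product, Finset.card_univ]
      · obtain ⟨g, hg⟩ := conj_ex h hy ho σ
        rw [Finset.mem_image]
        refine ⟨((rsF (F0 D) σ, S.q g), sg (A b) σ (c b)), ?_, ?_⟩
        · rw [Finset.mem_product]
          exact ⟨Finset.mem_univ _, (orb_fin (c b)).mem_toFinset.2 ⟨σ, rfl⟩⟩
        · have h5 := eq3 hg b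
          change ln S.ab.act (S.q g) b (x.2.2 b) + S.ab.act.tr (S.q g) b -
            cH D (rsF (F0 D) σ) b - sg (A b) σ (c b) = _
          rw [cH_rs, map_sub, ← h5, add_sub_cancel_right]
    · change c b + (x.2.2 b - c b) = if b ∈ NT (RT (toGT S.ab) x.2.2) then 0 else x.2.2 b
      rw [if_neg hb, add_sub_cancel]

end spl

/-- one piece -/
theorem uni_pieceV (hDen : S_DEN) (hSml : S_SML) {K : Type} [Field K] [NumberField K] {N : ℕ}
    (p : PieceV K N) : Uni p.X.eqX p.X.eqW := by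
  have := Fintype.ofFinite p.H
  refine uni_gen (fun x => ZIV p.X x.2.2 (NT (RT (toGT p.S.ab) x.2.2))) (typV_fin p.quot)
    (fun x y hy f hf a => hf x.1 x.2.1 x.2.2 (up y) (fun _ _ => rfl) hy a) ?_
  intro ι _ _ L _ _ σ hσ f U hU h0 hf x y hy ho hc0
  exact locV hDen hSml p.simple p.quot L σ hσ f hU h0 hf x y hy ho hc0

end Pool.Agent.K1H82.KV
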