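import Pool.Agent.K1H82.KV.Fin
import Pool.Agent.K1H82.KU.Fin

/-!
# The twisted groups of points and their annihilators
-/

set_option autoImplicit false
set_option linter.unusedSectionVars false

open MvPolynomial Pool.Agent.TH954.X Pool.Agent.K1H82.KM Filter Topology
open Pool.Agent.K1H82.KQ (EndAlg EndOf toEnd sg PtB GalK cjg closureP closureP_trans torB eI mI
  mI_pos mI_mem mul_eI)
open Pool.Agent.K1H82.KA (PtsB GActP ln)
open Pool.Agent.K1H82.KR (Off act_mul act_one act_add act_sub act_nsmul act_natCast sg_act cns)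
open Pool.Agent.K1H82.KS (Sq Uni)
open Pool.Agent.K1H82.KT hiding Mf Mf_eq Mf_mul Mf_one Mf_congr MF MF_rs MF_one nr nr_fix nr_val
  conj_ex Big big_exists
open Pool.Agent.K1H82.KU (LinG lin_inv Tor1 cj cj_apply cj_mul cj_one gal_cj Tset Tset_fin BasM
  BasM.all BasF)

namespace Pool.Agent.K1H82.KV

section gen

variable {K : Type} [Field K] {n s : ℕ} {A : AbVar K n} {E : EndAlg A} {T : Torus K s}
  {D : Tors T (fun _ : Fin 1 => A)} {H : Type} [Group H] {S0 : GActT D H}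

/-- the relations which occur as stabilisers -/
structure StP (S0 : GActT D H) (W : H → GalK K → Prop) : Prop where
  one : W 1 1
  mul : ∀ {g g' σ σ'}, W g σ → W g' σ' → W (g * S0.galG σ g') (σ * σ')
  inv : ∀ {g σ}, W g σ → W (S0.galG σ⁻¹ g⁻¹) σ⁻¹

/-- the twisted group -/
noncomputable def MoP (Y : LinG E S0) (W : H → GalK K → Prop) :
    AddSubgroup (A.Pt (AlgebraicClosure K)) where
  carrier := {R | ∀ g σ, W g σ → E.act (Y.lin g) (sg A σ R) = R}
  zero_mem' := by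
    intro g σ _
    rw [map_zero, map_zero]
  add_mem' := by
    intro R R' hR hR' g σ h
    rw [map_add, map_add, hR g σ h, hR' g σ h]
  neg_mem' := by
    intro R hR g σ h
    rw [map_neg, map_neg, hR g σ h]

lemma mem_MoP (Y : LinG E S0) {W : H → GalK K → Prop} {R : A.Pt (AlgebraicClosure K)} :
    R ∈ MoP Y W ↔ ∀ g σ, W g σ → E.act (Y.lin g) (sg A σ R) = R := Iff.rfl

/-- the annihilator of the twisted group -/
noncomputable def anP (Y : LinG E S0) (W : H → GalK K → Prop) : Ideal E.S where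
  carrier := {s | ∃ (m : ℕ) (α : E.R), 0 < m ∧ (α : E.S) = m • s ∧
    ∀ R ∈ MoP Y W, Tor1 (E.act α R)}
  zero_mem' := ⟨1, 0, Nat.one_pos, by simp, fun R _ => ⟨1, Nat.one_pos, by
    rw [map_zero]
    simp⟩⟩
  add_mem' := by
    rintro s s' ⟨m, α, hm, hα, h⟩ ⟨m', α', hm', hα', h'⟩
    refine ⟨m * m', m' • α + m • α', Nat.mul_pos hm hm', ?_, fun R hR => ?_⟩
    · rw [Subring.coe_add, cns, cns, hα, hα', smul_add, smul_smul,
        smul_smul, mul_comm m' m]
    · rw [act_add, act_nsmul, act_nsmul]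
      exact ((h R hR).map (nsmulAddMonoidHom m')).add ((h' R hR).map (nsmulAddMonoidHom m))
  smul_mem' := by
    rintro c s ⟨m, α, hm, hα, h⟩
    obtain ⟨k, hk, hkc⟩ := E.mult c
    refine ⟨k * m, ⟨k • c, hkc⟩ * α, Nat.mul_pos hk hm, ?_, fun R hR => ?_⟩
    · rw [Subring.coe_mul, hα, smul_mul_assoc, mul_smul_comm, smul_smul, smul_eq_mul]
    · rw [act_mul]
      exact (h R hR).map _

lemma mem_anP (Y : LinG E S0) (W : H → GalK K → Prop) (β : E.R) :
    (β : E.S) ∈ anP Y W ↔ ∀ R ∈ MoP Y W, Tor1 (E.act β R) := by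
  constructor
  · rintro ⟨m, α, hm, hα, h⟩ R hR
    have h1 : α = m • β := Subtype.ext (by rw [hα, cns])
    have h2 := h R hR
    rw [h1, act_nsmul] at h2
    exact h2.of_nsmul hm
  · intro h
    exact ⟨1, β, Nat.one_pos, by rw [one_smul], h⟩

/-- the group of the automorphisms of `S` given by the stabiliser -/
noncomputable def HPP (Y : LinG E S0) {W : H → GalK K → Prop} (hW : StP S0 W) :
    Subgroup (RingAut E.S) where
  carrier := {τ | ∃ g σ, W g σ ∧ τ = cj Y g * E.gal σ}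
  one_mem' := ⟨1, 1, hW.one, by rw [cj_one, map_one, one_mul]⟩
  mul_mem' := by
    rintro _ _ ⟨g, σ, h, rfl⟩ ⟨g', σ', h', rfl⟩
    refine ⟨g * S0.galG σ g', σ * σ', hW.mul h h', ?_⟩
    · rw [cj_mul, map_mul]
      calc cj Y g * E.gal σ * (cj Y g' * E.gal σ')
          = cj Y g * (E.gal σ * cj Y g') * E.gal σ' := by simp only [mul_assoc]
        _ = _ := by rw [gal_cj]; simp only [mul_assoc]
  inv_mem' := by
    rintro _ ⟨g, σ, h, rfl⟩
    refine ⟨S0.galG σ⁻¹ g⁻¹, σ⁻¹, hW.inv h, ?_⟩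
    · rw [mul_inv_rev, ← map_inv, ← gal_cj]
      congr 1
      apply inv_eq_of_mul_eq_one_right
      rw [← cj_mul, mul_inv_cancel, cj_one]

lemma HPP_sub (Y : LinG E S0) {W : H → GalK K → Prop} (hW : StP S0 W) :
    (HPP Y hW : Set (RingAut E.S)) ⊆ Tset Y := by
  rintro _ ⟨g, σ, -, rfl⟩
  exact ⟨g, σ, rfl⟩

lemma anP_stable (Y : LinG E S0) {W : H → GalK K → Prop} (hW : StP S0 W) :
    ∀ τ ∈ HPP Y hW, ∀ s ∈ anP Y W, (τ : RingAut E.S) s ∈ anP Y W := by
  rintro _ ⟨g, σ, h, rfl⟩ s ⟨m, α, hm, hα, hs⟩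
  refine ⟨m, Y.lin g * ⟨E.gal σ α, E.gal_mem σ α α.2⟩ * Y.lin g⁻¹, hm, ?_, fun R hR => ?_⟩
  · change _ = m • cj Y g (E.gal σ s)
    rw [cj_apply, Subring.coe_mul, Subring.coe_mul]
    change (Y.lin g : E.S) * E.gal σ α * (Y.lin g⁻¹ : E.S) = _
    rw [hα, map_nsmul, mul_smul_comm, smul_mul_assoc]
  · rw [act_mul, act_mul, ← lin_inv Y g (mem_MoP Y |>.1 hR g σ h), ← sg_act]
    exact ((hs R hR).map (sg A σ)).map _

lemma anP_right (Y : LinG E S0) {W : H → GalK K → Prop} (hW : StP S0 W) :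
    ∀ s ∈ anP Y W, ∀ b ∈ fixB (HPP Y hW), s * b ∈ anP Y W := by
  rintro s ⟨m, α, hm, hα, hs⟩ b hb
  obtain ⟨k, hk, hkb⟩ := E.mult b
  refine ⟨m * k, α * ⟨k • b, hkb⟩, Nat.mul_pos hm hk, ?_, fun R hR => ?_⟩
  · rw [Subring.coe_mul, hα, smul_mul_assoc, mul_smul_comm, smul_smul]
  · rw [act_mul]
    refine hs _ (fun g σ h => ?_)
    rw [sg_act, lin_inv Y g (mem_MoP Y |>.1 hR g σ h), ← act_mul, ← act_mul]
    congr 2
    apply Subtype.ext
    rw [Subring.coe_mul, Subring.coe_mul]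
    change (Y.lin g : E.S) * E.gal σ (k • b) * (Y.lin g⁻¹ : E.S) = k • b
    rw [map_nsmul, mul_smul_comm, smul_mul_assoc, ← cj_apply]
    congr 1
    exact hb _ ⟨g, σ, h, rfl⟩

/-- there are only finitely many annihilators -/
theorem anP_fin [Finite H] (Y : LinG E S0) :
    {I | ∃ W : H → GalK K → Prop, StP S0 W ∧ I = anP Y W}.Finite := by
  have h1 : {H : Subgroup (RingAut E.S) | (H : Set (RingAut E.S)) ⊆ Tset Y}.Finite := by
    refine Set.Finite.of_finite_image (f := fun H : Subgroup (RingAut E.S) =>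
      (H : Set (RingAut E.S))) ((Tset_fin Y).powerset.subset ?_) ?_
    · rintro _ ⟨H, hH, rfl⟩
      exact hH
    · intro H _ H' _ h
      exact SetLike.coe_injective h
  refine (h1.biUnion (t := fun H => {I : Ideal E.S |
    (∀ h ∈ H, ∀ x ∈ I, (h : RingAut E.S) x ∈ I) ∧ ∀ x ∈ I, ∀ b ∈ fixB H, x * b ∈ I})
    (fun H hH => ?_)).subset ?_
  · have : Finite H := ((Tset_fin Y).subset hH).to_subtype
    exact fin_ideals H
  · rintro _ ⟨W, hW, rfl⟩
    exact Set.mem_biUnion (x := HPP Y hW) (HPP_sub Y hW) ⟨anP_stable Y hW, anP_right Y hW⟩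

end gen

section stb

variable {K : Type} [Field K] {n s k N : ℕ} {A : AbVar K n} {E : EndAlg A} {T : Torus K s}
  {D : Tors T (fun _ : Fin 1 => A)} {G H : Type} [Group G] [Group H] {X : RMapV D k N}
  {S : GActV D k G H}

/-- the stabiliser of `x` -/
def Wx (S : GActV D k G H) (x : PtV s k (fun _ : Fin 1 => A)) (h : H) (σ : GalK K) : Prop :=
  ∃ g, S.q g = h ∧ app S g (tw D σ x) = x

lemma Wx_st (S : GActV D k G H) (x : PtV s k (fun _ : Fin 1 => A)) :
    StP (toGT S.ab) (Wx S x) := by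
  refine ⟨⟨1, q_one S, by rw [tw_one, app_one]⟩, ?_, ?_⟩
  · rintro _ _ σ σ' ⟨g, rfl, h⟩ ⟨g', rfl, h'⟩
    refine ⟨g * S.γ σ g', ?_, ?_⟩
    · rw [S.q_mul, S.gal_q]
      rfl
    · rw [app_mul, tw_mul, ← tw_app, h', h]
  · rintro _ σ ⟨g, rfl, h⟩
    refine ⟨S.γ σ⁻¹ g⁻¹, ?_, ?_⟩
    · rw [S.gal_q, q_inv]
      rfl
    · have h1 : tw D σ x = app S g⁻¹ x := app_inv h.symm
      rw [← tw_app, ← h1, ← tw_mul, inv_mul_cancel, tw_one]

variable (Y : LinG E (toGT S.ab))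

lemma ln_eqW (h : H) (b : Fin 1) (R : A.Pt (AlgebraicClosure K)) :
    ln S.ab.act h b R = E.act (Y.lin h) R := by
  have hb : b = 0 := Subsingleton.elim _ _
  subst hb
  exact Y.lin_eq h R

lemma mem_MoW (x : PtV s k (fun _ : Fin 1 => A)) (R : A.Pt (AlgebraicClosure K)) :
    R ∈ MoP Y (Wx S x) ↔ TwC S x (fun _ => R) := by
  constructor
  · intro hR φ g hg b
    have h1 := hR (S.q g⁻¹) φ ⟨g⁻¹, rfl, (app_inv hg).symm⟩
    have h2 := lin_inv Y _ h1
    rw [ln_eqW Y]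
    rw [q_inv, inv_inv] at h2
    exact h2
  · rintro hR _ σ ⟨g, rfl, h⟩
    have h1 := hR σ g⁻¹ (app_inv h.symm) 0
    rw [ln_eqW Y] at h1
    change sg A σ R = E.act (Y.lin (S.q g⁻¹)) R at h1
    rw [h1, ← act_mul, ← map_mul, ← S.q_mul, mul_inv_cancel, q_one, map_one, act_one]

/-- the polynomials which vanish at the images of the points `(v, w, P + e Q)` -/
def ZIW (E : EndAlg A) (X : RMapV D k N) (P : A.Pt (AlgebraicClosure K)) (e : E.R) :
    Set (MvPolynomial (Fin N) K) :=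
  {f | ∀ (v : TpB K s) (w : Fin k → AlgebraicClosure K) (Q : A.Pt (AlgebraicClosure K))
    (z : Fin N → AlgebraicClosure K),
    ImgV X.Fam ((v, w, fun _ => P + E.act e Q) : PtV s k (fun _ : Fin 1 => A)) z →
    ∀ a : AlgebraicClosure K, aeval (a • z) f = 0}

lemma ZIW_eq {P P' Q : A.Pt (AlgebraicClosure K)} {e : E.R}
    (h : P' = P + E.act e Q) : ZIW E X P' e = ZIW E X P e := by
  ext f
  constructor
  · intro hf v w Q0 z hz
    refine hf v w (Q0 - Q) z ?_
    have : P' + E.act e (Q0 - Q) = P + E.act e Q0 := by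
      rw [h, map_sub]
      abel
    rw [this]
    exact hz
  · intro hf v w Q0 z hz
    refine hf v w (Q + Q0) z ?_
    have : P + E.act e (Q + Q0) = P' + E.act e Q0 := by
      rw [h, map_add]
      abel
    rw [this]
    exact hz

lemma fin_cosetW (X : RMapV D k N) (e : E.R) {m l : ℕ} (hm : 0 < m) (hk : 0 < l)
    (c T0 : A.Pt (AlgebraicClosure K)) :
    {I : Set (MvPolynomial (Fin N) K) | ∃ P : A.Pt (AlgebraicClosure K),
      E.act ((m : E.R) - e) (l • P - c) = T0 ∧ I = ZIW E X P e}.Finite := by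
  by_cases hne : ∃ P0 : A.Pt (AlgebraicClosure K), E.act ((m : E.R) - e) (l • P0 - c) = T0
  · obtain ⟨P0, hP0⟩ := hne
    have hM : 0 < m * l := Nat.mul_pos hm hk
    refine ((E.tor _ hM).image (fun w => ZIW E X (P0 + w) e)).subset ?_
    rintro _ ⟨P, hP, rfl⟩
    obtain ⟨Q, hQ⟩ := A.div (AlgebraicClosure K) (l • (P - P0)) (m * l) hM
    have hQ' : (m * l) • Q = l • (P - P0) := hQ
    have h1 : E.act ((m : E.R) - e) (l • (P - P0)) = 0 := by
      have h2 : l • (P - P0) = (l • P - c) - (l • P0 - c) := by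
        rw [smul_sub]
        abel
      rw [h2, map_sub, hP, hP0, sub_self]
    rw [act_sub, act_natCast, sub_eq_zero, smul_smul, ← hQ', map_nsmul] at h1
    refine ⟨P - P0 - E.act e Q, ?_, ?_⟩
    · change (m * l) • (P - P0 - E.act e Q) = 0
      rw [smul_sub, h1, sub_self]
    · refine (ZIW_eq (Q := Q) ?_).symm
      abel
  · refine Set.finite_empty.subset ?_
    rintro _ ⟨P, hP, -⟩
    exact absurd ⟨P, hP⟩ hne

variable [NumberField K]

/-- The local Zariski closure at several places contains the images of all the points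
`(v, w, P + e Q)`. -/
theorem locW (hDen : S_DEN) (hSml : S_SML)
    (hX : IsQuotV X S) {ι : Type} [Finite ι] [Nonempty ι]
    (L : ι → Type) [∀ i, NontriviallyNormedField (L i)] [∀ i, CompleteSpace (L i)]
    (σ : ∀ i, K →+* L i) (hσ : ∀ i, DenseRange (σ i))
    (f : MvPolynomial (Fin N) K) {U : ∀ i, Set (Fin N → L i)} (hU : ∀ i, IsOpen (U i))
    (h0 : ∀ i, (0 : Fin N → L i) ∉ U i)
    (hf : ∀ y : Fin N → K, y ≠ 0 → (∀ g ∈ X.eqX, eval y g = 0) → (∃ h ∈ X.eqW, eval y h ≠ 0) →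
      (∀ i, ∃ c : L i, c ≠ 0 ∧ (fun j => c * σ i (y j)) ∈ U i) → ∀ a : K, eval (a • y) f = 0)
    (x : PtV s k (fun _ : Fin 1 => A)) (y : Fin N → K) (hy : ImgV X.Fam x (up y))
    (ho : Off X.eqW (up y)) (hc0 : ∀ i, ∃ c : L i, (fun j => c * σ i (y j)) ∈ U i) (e : E.R)
    (he : ∀ β ∈ anP Y (Wx S x), β * (e : E.S) = 0) : f ∈ ZIW E X (x.2.2 0) e := by
  obtain ⟨F, hF1, hF2, 𝓤, V, hB, hBas, hV, hcl⟩ :=
    coreV hDen hSml hX L σ hσ f hU h0 hf x y hy ho hc0
  have hBM : ∀ i, BasM (MoP Y (Wx S x)) {U | ∃ V ∈ 𝓤 i 0, U = V ∩ (MoP Y (Wx S x))} := fun i =>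
    (hBas i 0).toM (fun R hR => ((mem_MoW Y x R).1 hR).fld hB 0)
  have hBall := BasM.all hBM
  have hW2 : (⋂ i, (V i 0 ∩ (MoP Y (Wx S x) : Set (A.Pt (AlgebraicClosure K))))) ∈
      {U | ∃ V : ι → Set (A.Pt (AlgebraicClosure K)),
        (∀ i, V i ∈ {U | ∃ V ∈ 𝓤 i 0, U = V ∩ (MoP Y (Wx S x))}) ∧ U = ⋂ i, V i} :=
    ⟨_, fun i => ⟨V i 0, hV i 0, rfl⟩, rfl⟩
  obtain ⟨Z, HH, hZ, hHZ, ⟨W0, hW0, hVH⟩, hHg⟩ := closureP hBall.bas
  -- the image of `e` is in `HH`
  have heH : ∀ Q, E.act e Q ∈ HH := by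
    obtain ⟨β, m, hm, hβ1, hβ2⟩ := E.poinc Z hZ HH hHZ
    have hβ : (β : E.S) ∈ anP Y (Wx S x) := by
      rw [mem_anP]
      intro R hR
      obtain ⟨l, hk, hk'⟩ := (hBall.sq _ hW0 R hR).exists_ne
      have h1 : l • R ∈ HH := hVH hk'
      have h2 := hβ1 _ h1
      rw [map_zsmul] at h2
      refine ⟨m * l.natAbs, Nat.mul_pos hm (Int.natAbs_pos.2 hk), ?_⟩
      rw [mul_smul]
      rcases Int.natAbs_eq l with h3 | h3
      · rw [h3, natCast_zsmul] at h2
        exact h2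
      · rw [h3, neg_smul, natCast_zsmul, smul_neg, neg_eq_zero] at h2
        exact h2
    intro Q
    obtain ⟨Q0, hQ0⟩ := A.div (AlgebraicClosure K) Q m hm
    have h3 : E.act β (E.act e Q0) = 0 := by
      rw [← act_mul]
      have : β * e = 0 := Subtype.ext (he _ hβ)
      rw [this, map_zero]
      rfl
    have h4 := hβ2 _ h3
    rw [← map_nsmul] at h4
    have h5 : m • Q0 = Q := hQ0
    rwa [h5] at h4
  have hcr1 : ∀ (u : Fin s → AlgebraicClosure K) (w : Fin k → AlgebraicClosure K)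
      (R : A.Pt (AlgebraicClosure K)),
      (fun j => if j = Sum.inr 0 then R.1 else crV (A := fun _ : Fin 1 => A) u w x.2.2 j) =
        crV (A := fun _ : Fin 1 => A) u w (fun _ => R) := by
    intro u w R
    funext j
    rcases j with i | b
    · rw [if_neg (by simp)]
      rfl
    · have hb : b = 0 := Subsingleton.elim _ _
      subst hb
      rw [if_pos rfl]
      rfl
  intro v w Q z hz a
  refine hcl (fun _ => x.2.2 0 + E.act e Q) (fun Φ τ hΦ u w' h => ?_) v w z hz a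
  have h4 := closureP_trans hBall.bas hHg (x.2.2 0) hW2
    (spec_hom (Sum.inr 0) (crV (A := fun _ : Fin 1 => A) u w' x.2.2) hΦ) (fun R hR => ?_)
    _ (heH Q)
  · rw [spec_eval, hcr1] at h4
    exact h4
  · rw [spec_eval, hcr1]
    obtain ⟨i0⟩ := ‹Nonempty ι›
    have hRM : R ∈ MoP Y (Wx S x) := (Set.mem_iInter.1 hR i0).2
    have h5 := h (fun _ => R) ((mem_MoW Y x R).1 hRM) (fun i b => by
      have hb : b = 0 := Subsingleton.elim _ _
      subst hb
      exact (Set.mem_iInter.1 hR i).1)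
    have h6 : (fun b : Fin 1 => x.2.2 b + R) = fun _ => x.2.2 0 + R := by
      funext b
      have hb : b = 0 := Subsingleton.elim _ _
      subst hb
      rfl
    rw [h6] at h5
    exact h5

theorem typW_fin [Fintype H] (hX : IsQuotV X S) :
    {I | ∃ (x : PtV s k (fun _ : Fin 1 => A)) (y : Fin N → K), ImgV X.Fam x (up y) ∧
      Off X.eqW (up y) ∧ I = ZIW E X (x.2.2 0) (eI E (anP Y (Wx S x)))}.Finite := by
  classical
  have hT := torB A (E.gal_fin.toFinset.card * Fintype.card H)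
  refine (((anP_fin Y)).biUnion (t := fun I0 => ⋃ T0 ∈ {T0 : A.Pt (AlgebraicClosure K) |
      (∃ k : ℕ, 0 < k ∧ k • T0 = 0) ∧ ∃ s : Finset (A.Pt (AlgebraicClosure K)),
        s.card ≤ E.gal_fin.toFinset.card * Fintype.card H ∧ ∀ σ, sg A σ T0 ∈ s},
    {I : Set (MvPolynomial (Fin N) K) | ∃ P : A.Pt (AlgebraicClosure K),
      E.act ((mI E I0 : E.R) - eI E I0) (nn (D := D) (G := H) • P - Zc (toGT S.ab) 0) = T0 ∧
        I = ZIW E X P (eI E I0)}) (fun I0 _ => hT.biUnion (fun T0 _ =>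
      fin_cosetW X (eI E I0) (mI_pos I0) nn_pos (Zc (toGT S.ab) 0) T0))).subset ?_
  rintro _ ⟨x, y, hy, ho, rfl⟩
  set a : E.R := (mI E (anP Y (Wx S x)) : E.R) - eI E (anP Y (Wx S x)) with ha
  have hRt : TwC S x (RT (toGT S.ab) x.2.2) := RT_tw x
  have hRM : RT (toGT S.ab) x.2.2 0 ∈ MoP Y (Wx S x) := by
    rw [mem_MoW]
    intro φ g hg b
    have hb : b = 0 := Subsingleton.elim _ _
    subst hb
    exact hRt φ g hg 0
  refine Set.mem_biUnion (x := anP Y (Wx S x)) ⟨Wx S x, Wx_st S x, rfl⟩ (Set.mem_biUnion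
    (x := E.act a (nn (D := D) (G := H) • x.2.2 0 - Zc (toGT S.ab) 0)) ?_ ⟨x.2.2 0, rfl, rfl⟩)
  refine ⟨(mem_anP Y (Wx S x) a).1 (mI_mem (anP Y (Wx S x))) _ hRM, ?_⟩
  set F : RingAut E.S × H → A.Pt (AlgebraicClosure K) := fun p =>
    if h : p.1 a ∈ E.R then E.act ⟨p.1 a, h⟩ (E.act (Y.lin p.2) (RT (toGT S.ab) x.2.2 0))
    else 0 with hF
  refine ⟨(E.gal_fin.toFinset ×ˢ Finset.univ).image F, ?_, fun σ => ?_⟩
  · refine Finset.card_image_le.trans ?_
    rw [Finset.card_product, Finset.card_univ]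
  · obtain ⟨g, hg⟩ := conj_ex hX hy ho σ
    rw [Finset.mem_image]
    refine ⟨(E.gal σ, S.q g), ?_, ?_⟩
    · rw [Finset.mem_product]
      exact ⟨E.gal_fin.mem_toFinset.2 ⟨σ, rfl⟩, Finset.mem_univ _⟩
    · have h1 : (E.gal σ) (a : E.S) ∈ E.R := E.gal_mem σ a a.2
      have h2 : sg A σ (RT (toGT S.ab) x.2.2 0) =
          E.act (Y.lin (S.q g)) (RT (toGT S.ab) x.2.2 0) := by
        rw [← ln_eqW Y (S.q g) 0]
        exact hRt σ g hg 0
      simp only [hF]
      rw [dif_pos h1, ← h2]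
      exact (sg_act σ a _).symm

end stb

/-- the action in the other form -/
noncomputable def toLinW {K : Type} [Field K] {n s : ℕ} {A : AbVar K n} {E : EndOf A}
    {T : Torus K s} {D : Tors T (fun _ : Fin 1 => A)} {H : Type} [Group H] {B : ActA D H}
    (l : LinA E B) : LinG (toEnd E) (toGT B) where
  lin := { toFun := l.lin, map_one' := l.lin_one, map_mul' := l.lin_mul }
  lin_eq := l.lin_act
  gal_lin := l.gal_lin

/-- one piece -/
theorem uni_pieceW (hDen : S_DEN) (hSml : S_SML) {K : Type} [Field K] [NumberField K] {N : ℕ}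
    (p : PieceW K N) : Uni p.X.eqX p.X.eqW := by
  have := Fintype.ofFinite p.H
  set Y := toLinW p.lin with hY
  refine uni_gen (fun x => ZIW (toEnd p.E) p.X (x.2.2 0)
    (eI (toEnd p.E) (anP Y (Wx p.S x)))) (typW_fin Y p.quot)
    (fun x y hy f hf a => hf x.1 x.2.1 0 (up y) ?_ a) ?_
  · have h1 : (fun _ : Fin 1 => x.2.2 0 +
        (toEnd p.E).act (eI (toEnd p.E) (anP Y (Wx p.S x))) 0) = x.2.2 := by
      funext b
      have hb : b = 0 := Subsingleton.elim _ _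
      subst hb
      rw [map_zero, add_zero]
    rw [h1]
    exact hy
  intro ι _ _ L _ _ σ hσ f U hU h0 hf x y hy ho hc0
  exact locW Y hDen hSml p.quot L σ hσ f hU h0 hf x y hy ho hc0 _ (mul_eI _)

end Pool.Agent.K1H82.KV
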