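import Pool.Agent.K1H82.KS.Adl

/-!
# Isolated points of Diophantine sets
-/

set_option autoImplicit false
set_option linter.unusedSectionVars false

open MvPolynomial Pool.Agent.K1H82.KM Filter Topology
open Pool.Agent.K1H82.KR (RatPts)
open Pool.Agent.K1H82.KS (IdealAt)

namespace Pool.Agent.K1H82.KV

/-- the point `t` of `S` is isolated for the topology given by the fields `L i` -/
def IsoAt {K : Type} [Field K] (S : Set K) {ι : Type} {L : ι → Type}
    [∀ i, NontriviallyNormedField (L i)] (σ : ∀ i, K →+* L i) (t : K) : Prop :=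
  t ∈ S ∧ ∃ (s : Finset ι) (U : ∀ i, Set (L i)), (∀ i, U i ∈ 𝓝 (σ i t)) ∧
    ∀ t' ∈ S, (∀ i ∈ s, σ i t' ∈ U i) → t' = t

/-- the image of the rational points under the function `P / Q` -/
def dio {K : Type} [Field K] {N : ℕ} (eqX eqW : Set (MvPolynomial (Fin N) K))
    (P Q : MvPolynomial (Fin N) K) : Set K := {t | ∃ y ∈ RatPts eqX eqW, t = eval y P / eval y Q}

variable {K : Type} [Field K] {N : ℕ} {eqX eqW : Set (MvPolynomial (Fin N) K)}

lemma eval_smul_hom {R : Type} [CommRing R] {P : MvPolynomial (Fin N) R} {d : ℕ}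
    (hP : P.IsHomogeneous d) (c : R) (y : Fin N → R) : eval (c • y) P = c ^ d * eval y P := by
  rw [eval_eq', eval_eq', Finset.mul_sum]
  refine Finset.sum_congr rfl (fun m hm => ?_)
  have h1 : ∏ i, (c • y) i ^ m i = c ^ d * ∏ i, y i ^ m i := by
    have h2 : ∀ i, (c • y) i ^ m i = c ^ m i * y i ^ m i := fun i => by
      rw [Pi.smul_apply, smul_eq_mul, mul_pow]
    simp_rw [h2]
    rw [Finset.prod_mul_distrib, Finset.prod_pow_eq_pow_sum]
    congr 2
    have h3 := hP (mem_support_iff.1 hm)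
    rw [← h3, Finsupp.weight_apply, Finsupp.sum_fintype _ _ (fun i => by simp)]
    simp
  rw [h1]
  ring

theorem iso_fin {𝒯 : Set (Set (MvPolynomial (Fin N) K))} (h𝒯 : 𝒯.Finite)
    (h : ∀ (ι : Type) (L : ι → Type) [∀ i, NontriviallyNormedField (L i)]
        [∀ i, CompleteSpace (L i)] (σ : ∀ i, K →+* L i), (∀ i, DenseRange (σ i)) →
        ∀ x : ∀ i, Fin N → L i, (∀ i, x i ≠ 0) → IdealAt eqX eqW σ x ∈ 𝒯)
    (P Q : MvPolynomial (Fin N) K) (d : ℕ) (hP : P.IsHomogeneous d) (hQ : Q.IsHomogeneous d)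
    (hQ0 : ∀ y ∈ RatPts eqX eqW, eval y Q ≠ 0) :
    {t : K | ∃ (ι : Type) (L : ι → Type) (_ : ∀ i, NontriviallyNormedField (L i))
      (_ : ∀ i, CompleteSpace (L i)) (σ : ∀ i, K →+* L i), (∀ i, DenseRange (σ i)) ∧
      IsoAt (dio eqX eqW P Q) σ t}.Finite := by
  classical
  have key : ∀ t ∈ {t : K | ∃ (ι : Type) (L : ι → Type) (_ : ∀ i, NontriviallyNormedField (L i))
      (_ : ∀ i, CompleteSpace (L i)) (σ : ∀ i, K →+* L i), (∀ i, DenseRange (σ i)) ∧
      IsoAt (dio eqX eqW P Q) σ t}, ∃ I ∈ 𝒯, P - C t * Q ∈ I ∧ ∃ y ∈ RatPts eqX eqW,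
        ∀ g ∈ I, eval y g = 0 := by
    rintro t ⟨ι, L, _, _, σ, hσ, ⟨y, hy, ht⟩, s, U, hU, hiso⟩
    have hyQ := hQ0 y hy
    set x : ∀ i, Fin N → L i := fun i j => σ i (y j) with hx
    have hev : ∀ i (R : MvPolynomial (Fin N) K) (v : Fin N → K),
        eval (fun j => σ i (v j)) (map (σ i) R) = σ i (eval v R) := by
      intro i R v
      have h1 := eval₂_comp_left (σ i) (RingHom.id K) v R
      rw [RingHom.comp_id] at h1
      rw [eval_map]
      exact h1.symm
    have hx0 : ∀ i, x i ≠ 0 := by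
      intro i h0
      apply hy.1
      funext j
      have h1 := congrFun h0 j
      exact (map_eq_zero (σ i)).1 h1
    refine ⟨_, h ι L σ hσ x hx0, ?_, y, hy, ?_⟩
    · refine ⟨s, fun i => {v | eval v (map (σ i) P) / eval v (map (σ i) Q) ∈ U i}, fun i => ?_,
        fun y' hy' hnear a => ?_⟩
      · have h1 : eval (x i) (map (σ i) Q) ≠ 0 := by
          rw [hx, hev]
          exact (map_ne_zero (σ i)).2 hyQ
        have h2 : ContinuousAt (fun v => eval v (map (σ i) P) / eval v (map (σ i) Q)) (x i) :=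
          (continuous_eval _).continuousAt.div (continuous_eval _).continuousAt h1
        refine h2.preimage_mem_nhds ?_
        change U i ∈ 𝓝 (eval (x i) (map (σ i) P) / eval (x i) (map (σ i) Q))
        rw [hx, hev, hev, ← map_div₀, ← ht]
        exact hU i
      · have hy'Q := hQ0 y' hy'
        have h1 : eval y' P / eval y' Q = t := by
          refine hiso _ ⟨y', hy', rfl⟩ (fun i hi => ?_)
          obtain ⟨c, hc, hcU⟩ := hnear i hi
          have h2 : (fun j => c * σ i (y' j)) = c • fun j => σ i (y' j) := rfl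
          change eval (fun j => c * σ i (y' j)) (map (σ i) P) /
            eval (fun j => c * σ i (y' j)) (map (σ i) Q) ∈ U i at hcU
          rw [h2, eval_smul_hom (hP.map (σ i)), eval_smul_hom (hQ.map (σ i)), hev, hev,
            mul_div_mul_left _ _ (pow_ne_zero d hc), ← map_div₀] at hcU
          exact hcU
        rw [map_sub, map_mul, eval_C, eval_smul_hom hP, eval_smul_hom hQ]
        have h2 : eval y' P = t * eval y' Q := (div_eq_iff hy'Q).1 h1
        rw [h2]
        ring
    · rintro g ⟨s', U', hU', hg⟩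
      have h1 := hg y hy (fun i _ => ⟨1, one_ne_zero, by
        have h2 : (fun j => 1 * σ i (y j)) = x i := funext (fun j => one_mul _)
        rw [h2]
        exact mem_of_mem_nhds (hU' i)⟩) 1
      rwa [one_smul] at h1
  choose! I hI hPI hyI using key
  refine Set.Finite.of_injOn (f := I) hI (fun t ht t' ht' htt => ?_) h𝒯
  obtain ⟨y, hy, hyg⟩ := hyI t ht
  have h1 := hyg _ (hPI t ht)
  have h2 := hPI t' ht'
  rw [← htt] at h2
  have h3 := hyg _ h2
  rw [map_sub, map_mul, eval_C] at h1 h3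
  have h4 : (t - t') * eval y Q = 0 := by linear_combination h3 - h1
  exact sub_eq_zero.1 ((mul_eq_zero.1 h4).resolve_right (hQ0 y hy))

end Pool.Agent.K1H82.KV
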