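import Pool.Agent.K1H82.KV.Alg

/-!
# Norms and traces
-/

set_option autoImplicit false
set_option linter.unusedSectionVars false

open MvPolynomial Pool.Agent.TH954.X Pool.Agent.K1H82.KM
open Pool.Agent.K1H82.KQ (PtB GalK cjg OnX sg)
open Pool.Agent.K1H82.KA (PtsB GActP)
open Pool.Agent.K1H82.KR (Off)
open Pool.Agent.K1H82.KT hiding Mf Mf_eq Mf_mul Mf_one Mf_congr MF MF_rs MF_one nr nr_fix nr_val
  conj_ex Big big_exists

namespace Pool.Agent.K1H82.KV

section gen

variable {K : Type} [Field K] [CharZero K] {s k : ℕ}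
  (F : IntermediateField K (AlgebraicClosure K)) [FiniteDimensional K F] [Normal K F]

/-- norms -/
noncomputable def nr (M : (F ≃ₐ[K] F) → Matrix (Fin s) (Fin s) ℤ) (a : Tp s F) : TpB K s :=
  ∏ τ : F ≃ₐ[K] F, mon (M τ) (eb F τ a)

/-- traces -/
noncomputable def vr (N : (F ≃ₐ[K] F) → Matrix (Fin k) (Fin k) (AlgebraicClosure K))
    (b : Fin k → F) : Fin k → AlgebraicClosure K :=
  fun j => ∑ τ : F ≃ₐ[K] F, ∑ l, N τ j l * ((τ (b l) : F) : AlgebraicClosure K)

variable {F}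

lemma nr_fix (M : (F ≃ₐ[K] F) → Matrix (Fin s) (Fin s) ℤ) (M0 : Matrix (Fin s) (Fin s) ℤ)
    (φ : GalK K) (h : ∀ τ, M0 * M τ = M (rsF F φ * τ)) (a : Tp s F) :
    mon M0 (mp (φ : AlgebraicClosure K →* AlgebraicClosure K) (nr F M a)) = nr F M a := by
  have h1 : mp (φ : AlgebraicClosure K →* AlgebraicClosure K) (nr F M a) =
      ∏ τ : F ≃ₐ[K] F, mon (M τ) (eb F (rsF F φ * τ) a) := by
    have h2 : ∀ t : Finset (F ≃ₐ[K] F), mp (φ : AlgebraicClosure K →* AlgebraicClosure K)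
        (∏ τ ∈ t, mon (M τ) (eb F τ a)) =
        ∏ τ ∈ t, mon (M τ) (eb F (rsF F φ * τ) a) := by
      classical
      intro t
      induction t using Finset.induction_on with
      | empty =>
        rw [Finset.prod_empty, Finset.prod_empty]
        funext i
        exact map_one (Units.map _)
      | insert τ t hτ ih =>
        rw [Finset.prod_insert hτ, Finset.prod_insert hτ, mp_mul, ih, mp_mon]
        congr 2
        funext i
        apply Units.ext
        change φ (((τ (a i : F)) : F) : AlgebraicClosure K) = _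
        exact (rsF_apply F φ (τ (a i : F))).symm
    exact h2 _
  rw [h1, mon_prod]
  unfold nr
  refine Fintype.prod_equiv (Equiv.mulLeft (rsF F φ)) _ _ (fun τ => ?_)
  rw [← mon_mul_mat, h]
  rfl

lemma vr_fix (N : (F ≃ₐ[K] F) → Matrix (Fin k) (Fin k) (AlgebraicClosure K))
    (N0 : Matrix (Fin k) (Fin k) (AlgebraicClosure K))
    (φ : GalK K) (h : ∀ τ, N0 * (N τ).map φ = N (rsF F φ * τ)) (b : Fin k → F) :
    N0.mulVec (fun j => φ (vr F N b j)) = vr F N b := by
  funext j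
  change ∑ i, N0 j i * φ (∑ τ : F ≃ₐ[K] F, ∑ l, N τ i l * ((τ (b l) : F) : AlgebraicClosure K)) =
    ∑ τ : F ≃ₐ[K] F, ∑ l, N τ j l * ((τ (b l) : F) : AlgebraicClosure K)
  have h1 : ∀ i, φ (∑ τ : F ≃ₐ[K] F, ∑ l, N τ i l * ((τ (b l) : F) : AlgebraicClosure K)) =
      ∑ τ : F ≃ₐ[K] F, ∑ l, φ (N τ i l) *
        (((rsF F φ * τ) (b l) : F) : AlgebraicClosure K) := by
    intro i
    rw [map_sum]
    refine Finset.sum_congr rfl (fun τ _ => ?_)
    rw [map_sum]
    refine Finset.sum_congr rfl (fun l _ => ?_)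
    rw [map_mul]
    congr 1
    exact (rsF_apply F φ (τ (b l))).symm
  simp_rw [h1, Finset.mul_sum]
  rw [Finset.sum_comm]
  refine Fintype.sum_equiv (Equiv.mulLeft (rsF F φ)) _ _ (fun τ => ?_)
  rw [Finset.sum_comm]
  refine Finset.sum_congr rfl (fun l _ => ?_)
  change ∑ i, N0 j i * (φ (N τ i l) * (((rsF F φ * τ) (b l) : F) : AlgebraicClosure K)) =
    N (rsF F φ * τ) j l * (((rsF F φ * τ) (b l) : F) : AlgebraicClosure K)
  rw [← h, Matrix.mul_apply, Finset.sum_mul]
  refine Finset.sum_congr rfl (fun i _ => ?_)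
  rw [mul_assoc]
  rfl

lemma nr_val (M : (F ≃ₐ[K] F) → Matrix (Fin s) (Fin s) ℤ) (a : Tp s F) (i : Fin s) :
    ((nr F M a i : (AlgebraicClosure K)ˣ) : AlgebraicClosure K) = ∏ τ : F ≃ₐ[K] F, ∏ j,
      (algebraMap F (AlgebraicClosure K) (τ (a j : F))) ^ (M τ i j) := by
  unfold nr
  rw [Finset.prod_apply]
  rw [Units.coe_prod]
  refine Finset.prod_congr rfl (fun τ _ => ?_)
  change ((∏ j, (eb F τ a j) ^ M τ i j : (AlgebraicClosure K)ˣ) :
    AlgebraicClosure K) = _
  rw [Units.coe_prod]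
  refine Finset.prod_congr rfl (fun j _ => ?_)
  rw [Units.val_zpow_eq_zpow_val]
  rfl

end gen

section stab

variable {K : Type} [Field K] [CharZero K] {n r s k N : ℕ} {T : Torus K s}
  {A : Fin r → AbVar K n}
  {D : Tors T A} {G H : Type} [Group G] [Group H] {X : RMapV D k N} {S : GActV D k G H}
  (hX : IsQuotV X S) {x : PtV s k A} {y : Fin N → K} (hy : ImgV X.Fam x (up y))
  (ho : Off X.eqW (up y))
  (F : IntermediateField K (AlgebraicClosure K)) [FiniteDimensional K F] [Normal K F]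

/-- `F` contains the coordinates of `x`, and the torus and the torsors split over `F`. -/
structure Big (D : Tors T A) (x : PtV s k A)
    (F : IntermediateField K (AlgebraicClosure K)) : Prop where
  split : ∀ σ : GalK K, (∀ x ∈ F, σ x = x) → T.ρ σ = 1
  tors : ∀ σ : GalK K, (∀ x ∈ F, σ x = x) → D.a σ = 1 ∧ ∀ b, D.c σ b = 0
  tor : ∀ i, (x.1 i : AlgebraicClosure K) ∈ F
  vec : ∀ j, x.2.1 j ∈ F
  ab : ∀ b c, (x.2.2 b).1 c ∈ F

variable {F}

lemma tw_fix (hF : Big D x F) {σ : GalK K} (hσ : ∀ x ∈ F, σ x = x) : tw D σ x = x := by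
  refine Prod.ext ?_ (Prod.ext ?_ ?_)
  · change cjT T σ x.1 * D.a σ = x.1
    rw [cjT_eq, hF.split σ hσ, mon_one_mat, (hF.tors σ hσ).1, mul_one]
    funext i
    exact Units.ext (hσ _ (hF.tor i))
  · funext j
    exact hσ _ (hF.vec j)
  · funext b
    change cjg (A b) σ (x.2.2 b) + D.c σ b = x.2.2 b
    rw [(hF.tors σ hσ).2 b, add_zero]
    apply Subtype.ext
    funext c
    exact hσ _ (hF.ab b c)

lemma rsF_fix {φ ψ : GalK K} (h : rsF F φ = rsF F ψ) : ∀ x ∈ F, (ψ⁻¹ * φ) x = x := by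
  intro x hx
  have h1 : ((rsF F φ ⟨x, hx⟩ : F) : AlgebraicClosure K) = ((rsF F ψ ⟨x, hx⟩ : F) :
      AlgebraicClosure K) := by rw [h]
  rw [rsF_apply, rsF_apply] at h1
  change φ x = ψ x at h1
  change ψ⁻¹ (φ x) = x
  rw [h1]
  exact AlgEquiv.symm_apply_apply ψ x

lemma tw_congr (hF : Big D x F) {φ ψ : GalK K} (h : rsF F φ = rsF F ψ) :
    tw D φ x = tw D ψ x := by
  have h4 : ψ * (ψ⁻¹ * φ) = φ := mul_inv_cancel_left ψ φ
  rw [← h4, tw_mul, tw_fix hF (rsF_fix h)]

lemma ρ_congr (hF : Big D x F) {φ ψ : GalK K} (h : rsF F φ = rsF F ψ) : T.ρ φ = T.ρ ψ := by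
  have h4 : ψ * (ψ⁻¹ * φ) = φ := mul_inv_cancel_left ψ φ
  rw [← h4, T.ρ_mul, hF.split _ (rsF_fix h), mul_one]

include hX hy ho in
lemma Mf_congr (hF : Big D x F) {φ ψ : GalK K} (h : rsF F φ = rsF F ψ) :
    Mf hX hy ho φ = Mf hX hy ho ψ := by
  obtain ⟨g, hg⟩ := conj_ex hX hy ho ψ
  rw [Mf_eq hX hy ho φ ((tw_congr hF h).trans hg), Mf_eq hX hy ho ψ hg, ρ_congr hF h]

include hX hy ho in
lemma Nf_congr (hF : Big D x F) {φ ψ : GalK K} (h : rsF F φ = rsF F ψ) :
    Nf hX hy ho φ = Nf hX hy ho ψ := by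
  obtain ⟨g, hg⟩ := conj_ex hX hy ho ψ
  rw [Nf_eq hX hy ho φ ((tw_congr hF h).trans hg), Nf_eq hX hy ho ψ hg]

/-- the matrices of the automorphisms of `F` -/
noncomputable def MF (F : IntermediateField K (AlgebraicClosure K)) [FiniteDimensional K F]
    [Normal K F] (τ : F ≃ₐ[K] F) : Matrix (Fin s) (Fin s) ℤ := Mf hX hy ho (lf F τ)

/-- the matrices of the automorphisms of `F` -/
noncomputable def NF (F : IntermediateField K (AlgebraicClosure K)) [FiniteDimensional K F]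
    [Normal K F] (τ : F ≃ₐ[K] F) : Matrix (Fin k) (Fin k) (AlgebraicClosure K) :=
  Nf hX hy ho (lf F τ)

lemma MF_rs (hF : Big D x F) (φ : GalK K) : MF hX hy ho F (rsF F φ) = Mf hX hy ho φ :=
  Mf_congr hX hy ho hF (rsF_lf F _)

lemma NF_rs (hF : Big D x F) (φ : GalK K) : NF hX hy ho F (rsF F φ) = Nf hX hy ho φ :=
  Nf_congr hX hy ho hF (rsF_lf F _)

lemma MF_one (hF : Big D x F) : MF hX hy ho F 1 = 1 := by
  have h := MF_rs hX hy ho hF 1
  have h1 : rsF F (1 : GalK K) = 1 := map_one (AlgEquiv.restrictNormalHom F)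
  rw [h1, Mf_one] at h
  exact h

lemma NF_one (hF : Big D x F) : NF hX hy ho F 1 = 1 := by
  have h := NF_rs hX hy ho hF 1
  have h1 : rsF F (1 : GalK K) = 1 := map_one (AlgEquiv.restrictNormalHom F)
  rw [h1, Nf_one] at h
  exact h

lemma rsF_lf2 (φ : GalK K) (τ : F ≃ₐ[K] F) : rsF F φ * τ = rsF F (φ * lf F τ) := by
  rw [rsF_mul, rsF_lf]

lemma MF_mul (hF : Big D x F) (φ : GalK K) (τ : F ≃ₐ[K] F) :
    Mf hX hy ho φ * MF hX hy ho F τ = MF hX hy ho F (rsF F φ * τ) := by
  rw [rsF_lf2, MF_rs hX hy ho hF, Mf_mul]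
  rfl

lemma NF_mul (hF : Big D x F) (φ : GalK K) (τ : F ≃ₐ[K] F) :
    Nf hX hy ho φ * (NF hX hy ho F τ).map φ = NF hX hy ho F (rsF F φ * τ) := by
  rw [rsF_lf2, NF_rs hX hy ho hF, Nf_mul]
  rfl

lemma NF_mem (hF : Big D x F) (τ : F ≃ₐ[K] F) (i j : Fin k) : NF hX hy ho F τ i j ∈ F := by
  have hgal : IsGalois K (AlgebraicClosure K) := inferInstance
  suffices h : NF hX hy ho F τ i j ∈ IntermediateField.fixedField F.fixingSubgroup by
    rwa [InfiniteGalois.fixedField_fixingSubgroup] at h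
  rw [IntermediateField.mem_fixedField_iff]
  intro σ hσ
  have h0 : ∀ x ∈ F, σ x = x := fun x hx =>
    (IntermediateField.mem_fixingSubgroup_iff F σ).1 hσ x hx
  have h1 : rsF F σ = 1 := by
    ext x
    rw [rsF_apply]
    exact h0 _ x.2
  have h2 := NF_mul hX hy ho hF σ τ
  have h3 : Nf hX hy ho σ = 1 := by
    rw [← NF_rs hX hy ho hF, h1, NF_one hX hy ho hF]
  rw [h1, h3, one_mul, one_mul] at h2
  exact congrFun (congrFun h2 i) j

/-- the norms are points of the twisted torus -/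
lemma nr_tw (hF : Big D x F) (a : Tp s F) (φ : GalK K) {g : G} (hg : tw D φ x = app S g x) :
    cjT T φ (nr F (MF hX hy ho F) a) = mon (S.tor.lin g) (nr F (MF hX hy ho F) a) := by
  have h3 := nr_fix (MF hX hy ho F) (Mf hX hy ho φ) φ (MF_mul hX hy ho hF φ) a
  rw [cjT_eq]
  rw [Mf_eq hX hy ho φ hg] at h3
  conv_rhs => rw [← h3]
  rw [← mon_mul_mat, ← mul_assoc, linT_inv2, one_mul]

/-- the traces are points of the twisted affine space -/
lemma vr_tw (hF : Big D x F) (b : Fin k → F) (φ : GalK K) {g : G}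
    (hg : tw D φ x = app S g x) (j : Fin k) : φ (vr F (NF hX hy ho F) b j) =
      (S.vec.lin g).mulVec (vr F (NF hX hy ho F) b) j := by
  have h3 := vr_fix (NF hX hy ho F) (Nf hX hy ho φ) φ (NF_mul hX hy ho hF φ) b
  rw [Nf_eq hX hy ho φ hg] at h3
  conv_rhs => rw [← h3]
  rw [Matrix.mulVec_mulVec, linV_inv2, Matrix.one_mulVec]

/-- a finite normal extension which contains everything -/
lemma big_exists (X : RMapV D k N) (x : PtV s k A) :
    ∃ F : IntermediateField K (AlgebraicClosure K), FiniteDimensional K F ∧ Normal K F ∧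
      Big D x F ∧ X.F ≤ F := by
  obtain ⟨F0, hF0, hs⟩ := T.split
  obtain ⟨F3, hF3, hs3⟩ := D.split
  have hF := X.fin
  set F1 : IntermediateField K (AlgebraicClosure K) :=
    IntermediateField.adjoin K ((Set.range fun i : Fin s => (x.1 i : AlgebraicClosure K)) ∪
      ((Set.range fun j : Fin k => x.2.1 j) ∪
        Set.range fun p : Fin r × Fin n => (x.2.2 p.1).1 p.2)) with hF1
  have hF1f : FiniteDimensional K F1 := by
    have : Finite ((Set.range fun i : Fin s => (x.1 i : AlgebraicClosure K)) ∪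
      ((Set.range fun j : Fin k => x.2.1 j) ∪
        Set.range fun p : Fin r × Fin n => (x.2.2 p.1).1 p.2) : Set (AlgebraicClosure K)) :=
      ((Set.finite_range _).union ((Set.finite_range _).union (Set.finite_range _))).to_subtype
    refine IntermediateField.finiteDimensional_adjoin (fun x _ => ?_)
    exact (AlgebraicClosure.isAlgebraic K).isIntegral.isIntegral x
  set F2 : IntermediateField K (AlgebraicClosure K) := F0 ⊔ (X.F ⊔ (F1 ⊔ F3)) with hF2
  have hF2f : FiniteDimensional K F2 := inferInstance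
  have hle : F2 ≤ IntermediateField.normalClosure K F2 (AlgebraicClosure K) :=
    IntermediateField.le_normalClosure F2
  have hF1' : F1 ≤ IntermediateField.normalClosure K F2 (AlgebraicClosure K) :=
    ((le_sup_left.trans le_sup_right).trans le_sup_right).trans hle
  have hF3' : F3 ≤ IntermediateField.normalClosure K F2 (AlgebraicClosure K) :=
    ((le_sup_right.trans le_sup_right).trans le_sup_right).trans hle
  refine ⟨IntermediateField.normalClosure K F2 (AlgebraicClosure K), inferInstance, inferInstance,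
    ⟨fun σ hσ => hs σ (fun x hx => hσ x (hle ((le_sup_left : F0 ≤ F2) hx))),
    fun σ hσ => hs3 σ (fun x hx => hσ x (hF3' hx)), fun i => hF1'
      (IntermediateField.subset_adjoin K _ (Or.inl ⟨i, rfl⟩)), fun j => hF1'
      (IntermediateField.subset_adjoin K _ (Or.inr (Or.inl ⟨j, rfl⟩))), fun b c => hF1'
      (IntermediateField.subset_adjoin K _ (Or.inr (Or.inr ⟨(b, c), rfl⟩)))⟩,
    (le_sup_left.trans le_sup_right).trans hle⟩

end stab

end Pool.Agent.K1H82.KV
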