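import Pool.Agent.K1H82.KV.Nrm

/-!
# Rationality
-/

set_option autoImplicit false
set_option linter.unusedSectionVars false

open MvPolynomial Pool.Agent.TH954.X Pool.Agent.K1H82.KM
open Pool.Agent.K1H82.KQ (PtB GalK cjg OnX sg)
open Pool.Agent.K1H82.KA (PtsB GActP ln trP_one)
open Pool.Agent.K1H82.KR (Off)
open Pool.Agent.K1H82.KT hiding Mf Mf_eq Mf_mul Mf_one Mf_congr MF MF_rs MF_one nr nr_fix nr_val
  conj_ex Big big_exists

namespace Pool.Agent.K1H82.KV

variable {K : Type} [Field K] [CharZero K] {n r s k N : ℕ} {T : Torus K s}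
  {A : Fin r → AbVar K n}
  {D : Tors T A} {G H : Type} [Group G] [Group H] {X : RMapV D k N} {S : GActV D k G H}
  (hX : IsQuotV X S) {x : PtV s k A} {y : Fin N → K} (hy : ImgV X.Fam x (up y))
  (ho : Off X.eqW (up y))

/-- translated points -/
noncomputable def sh (x : PtV s k A) (v : TpB K s) (v' : Fin k → AlgebraicClosure K)
    (R : Pts A (AlgebraicClosure K)) : PtV s k A :=
  (x.1 * v, x.2.1 + v', fun b => x.2.2 b + R b)

include hX hy ho in
/-- The images of the translates of `x` by the points of the twisted groups are rational, if they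
are outside `W`. -/
theorem ratV (v : TpB K s) (v' : Fin k → AlgebraicClosure K) (R : Pts A (AlgebraicClosure K))
    (hv : ∀ (φ : GalK K) (g : G), tw D φ x = app S g x → cjT T φ v = mon (S.tor.lin g) v)
    (hv' : ∀ (φ : GalK K) (g : G), tw D φ x = app S g x → ∀ j, φ (v' j) =
      (S.vec.lin g).mulVec v' j)
    (hR : ∀ (φ : GalK K) (g : G), tw D φ x = app S g x →
      ∀ b, sg (A b) φ (R b) = ln S.ab.act (S.q g) b (R b))
    (hd : DefV X.Fam (sh x v v' R))
    (ho' : ∀ z, ImgV X.Fam (sh x v v' R) z → Off X.eqW z) :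
    ∃ y' : Fin N → K, Normed y' ∧ (∀ g ∈ X.eqX, eval y' g = 0) ∧
      ImgV X.Fam (sh x v v' R) (up y') := by
  obtain ⟨z, ⟨hz0, hze⟩, hz⟩ := X.total (sh x v v' R) hd
  obtain ⟨t, x1, ht, hx1, rfl⟩ := exists_normed hz0
  have hxe1 : ∀ g ∈ X.eqX, aeval x1 g = 0 := by
    intro g hg
    obtain ⟨d, hd⟩ := X.homX g hg
    have h1 := hze g hg
    rw [aeval_smul' hd] at h1
    exact (mul_eq_zero.1 h1).resolve_left (pow_ne_zero _ ht)
  have hv1 : ImgV X.Fam (sh x v v' R) x1 := by
    have := ValT.smul hz (inv_ne_zero ht)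
    rwa [inv_smul_smul₀ ht] at this
  have hfix : ∀ φ : AlgebraicClosure K ≃ₐ[K] AlgebraicClosure K, ∀ c, φ (x1 c) = x1 c := by
    intro φ c
    obtain ⟨g, hg⟩ := conj_ex hX hy ho φ
    have h4 : ImgV X.Fam (tw D φ (sh x v v' R)) x1 := by
      refine ((hX _ _ hv1 (ho' _ hv1)).1 _).2 ⟨g, ?_⟩
      refine Prod.ext ?_ (Prod.ext ?_ ?_)
      · have h6 : cjT T φ x.1 * D.a φ = mon (S.tor.lin g) x.1 * S.tor.tr g :=
          congrArg Prod.fst hg
        change cjT T φ (x.1 * v) * D.a φ = mon (S.tor.lin g) (x.1 * v) * S.tor.tr g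
        rw [cjT_mul, hv φ g hg, mon_mul]
        calc cjT T φ x.1 * mon (S.tor.lin g) v * D.a φ =
              (cjT T φ x.1 * D.a φ) * mon (S.tor.lin g) v := by
              rw [mul_assoc, mul_comm (mon (S.tor.lin g) v), ← mul_assoc]
          _ = mon (S.tor.lin g) x.1 * mon (S.tor.lin g) v * S.tor.tr g := by
              rw [h6, mul_assoc, mul_comm (S.tor.tr g), ← mul_assoc]
      · funext j
        have h6 : φ (x.2.1 j) = (S.vec.lin g).mulVec x.2.1 j + S.vec.tr g j :=
          congrArg (fun x : PtV s k A => x.2.1 j) hg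
        change φ (x.2.1 j + v' j) = (S.vec.lin g).mulVec (x.2.1 + v') j + S.vec.tr g j
        rw [map_add, h6, hv' φ g hg, Matrix.mulVec_add, Pi.add_apply]
        abel
      · funext b
        have h7 : sg (A b) φ (x.2.2 b) + D.c φ b = ln S.ab.act (S.q g) b (x.2.2 b) +
            S.ab.act.tr (S.q g) b := congrArg (fun x : PtV s k A => x.2.2 b) hg
        change sg (A b) φ (x.2.2 b + R b) + D.c φ b =
          ln S.ab.act (S.q g) b (x.2.2 b + R b) + S.ab.act.tr (S.q g) b
        have h8 : sg (A b) φ (x.2.2 b) = ln S.ab.act (S.q g) b (x.2.2 b) +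
            S.ab.act.tr (S.q g) b - D.c φ b := by
          rw [← h7, add_sub_cancel_right]
        rw [map_add, hR φ g hg, h8, map_add]
        abel
    have h5 := X.gal φ _ _ hv1
    obtain ⟨t', -, ht'⟩ := ValT.unique h4 h5
    have h6 : mapV φ.toAlgHom x1 = x1 := normed_unique (Normed.mapV _ hx1) hx1 ht'
    exact congrFun h6 c
  have hgal : IsGalois K (AlgebraicClosure K) := inferInstance
  have hmem : ∀ c, ∃ z : K, algebraMap K (AlgebraicClosure K) z = x1 c := by
    intro c
    have := (InfiniteGalois.mem_range_algebraMap_iff_fixed (k := K) (K := AlgebraicClosure K)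
      (x1 c)).2 (fun φ => hfix φ c)
    exact this
  choose y' hy' using hmem
  have hup : up y' = x1 := funext hy'
  refine ⟨y', ?_, fun g hg => ?_, ?_⟩
  · obtain ⟨i, hi, hj⟩ := hx1
    refine ⟨i, ?_, fun j hji => ?_⟩
    · apply (algebraMap K (AlgebraicClosure K)).injective
      rw [hy', hi, map_one]
    · apply (algebraMap K (AlgebraicClosure K)).injective
      rw [hy', hj j hji, map_zero]
  · rw [← eval_up_iff, hup]
    exact hxe1 g hg
  · rw [hup]
    exact hv1

end Pool.Agent.K1H82.KV
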